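import Pool.Agent.V1183.LM.Cons

/-!
Conservation of energy and helicity for the modified equations: conclusion.
-/

open Set Filter Topology MeasureTheory
open scoped ContDiff ENNReal

set_option autoImplicit false

namespace Pool.Agent.V1183.LM

open H459R3.NS Pool.Agent.V1178.NS

variable {β δ r T : ℝ} {K : (V → V) → V → V} {u : ℝ → V → V} {p : ℝ → V → ℝ}

theorem curl_div {u : V → V} (hu : SV u) (x : V) : ∑ i, pd i (fun y => curl u y i) x = 0 := by
  rw [Fin.sum_univ_three]
  have e0 : pd 0 (fun y => curl u y 0) x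
      = pd 0 (pd 1 (fun y => u y 2)) x - pd 0 (pd 2 (fun y => u y 1)) x :=
    pd_sub' ((hu 2).pd 1) ((hu 1).pd 2) 0 x
  have e1 : pd 1 (fun y => curl u y 1) x
      = pd 1 (pd 2 (fun y => u y 0)) x - pd 1 (pd 0 (fun y => u y 2)) x :=
    pd_sub' ((hu 0).pd 2) ((hu 2).pd 0) 1 x
  have e2 : pd 2 (fun y => curl u y 2) x
      = pd 2 (pd 0 (fun y => u y 1)) x - pd 2 (pd 1 (fun y => u y 0)) x :=
    pd_sub' ((hu 1).pd 0) ((hu 0).pd 1) 2 x
  rw [e0, e1, e2, pd_comm (hu 2) 0 1, pd_comm (hu 1) 0 2, pd_comm (hu 0) 1 2]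
  ring

/-- the curl is symmetric -/
theorem curl_symm {u w : V → V} (hu : SV u) (hw : SV w) : dot u (curl w) = dot w (curl u) := by
  unfold dot
  rw [Fin.sum_univ_three, Fin.sum_univ_three]
  have key : ∀ i j k l : Fin 3, ∀ (a b : V → V), SV a → SV b →
      ∫ x in cube, a x i * (pd j (fun y => b y k) x - pd l (fun y => b y j) x)
        = -(∫ x in cube, pd j (fun y => a y i) x * b x k)
          + ∫ x in cube, pd l (fun y => a y i) x * b x j := by
    intro i j k l a b ha hb
    have h1 := ibp (ha i) (hb k) j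
    have h2 := ibp (ha i) (hb j) l
    have h3 : ∫ x in cube, a x i * (pd j (fun y => b y k) x - pd l (fun y => b y j) x)
        = (∫ x in cube, a x i * pd j (fun y => b y k) x)
          - ∫ x in cube, a x i * pd l (fun y => b y j) x := by
      rw [← integral_sub ((ha i).mul ((hb k).pd j)).int ((ha i).mul ((hb j).pd l)).int]
      congr 1
      funext x
      ring
    rw [h3]
    linarith
  have k2 : ∀ i j k l : Fin 3, ∀ (a b : V → V), SV a → SV b →
      ∫ x in cube, a x i * (pd j (fun y => b y k) x - pd l (fun y => b y j) x)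
        = (∫ x in cube, pd j (fun y => b y k) x * a x i)
          - ∫ x in cube, pd l (fun y => b y j) x * a x i := by
    intro i j k l a b ha hb
    rw [← integral_sub (((hb k).pd j).mul (ha i)).int (((hb j).pd l).mul (ha i)).int]
    congr 1
    funext x
    ring
  have a0 := key 0 1 2 2 u w hu hw
  have a1 := key 1 2 0 0 u w hu hw
  have a2 := key 2 0 1 1 u w hu hw
  have b0 := k2 0 1 2 2 w u hw hu
  have b1 := k2 1 2 0 0 w u hw hu
  have b2 := k2 2 0 1 1 w u hw hu
  have e0 : ∫ x in cube, u x 0 * curl w x 0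
      = ∫ x in cube, u x 0 * (pd 1 (fun y => w y 2) x - pd 2 (fun y => w y 1) x) := rfl
  have e1 : ∫ x in cube, u x 1 * curl w x 1
      = ∫ x in cube, u x 1 * (pd 2 (fun y => w y 0) x - pd 0 (fun y => w y 2) x) := rfl
  have e2 : ∫ x in cube, u x 2 * curl w x 2
      = ∫ x in cube, u x 2 * (pd 0 (fun y => w y 1) x - pd 1 (fun y => w y 0) x) := rfl
  have f0 : ∫ x in cube, w x 0 * curl u x 0
      = ∫ x in cube, w x 0 * (pd 1 (fun y => u y 2) x - pd 2 (fun y => u y 1) x) := rfl
  have f1 : ∫ x in cube, w x 1 * curl u x 1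
      = ∫ x in cube, w x 1 * (pd 2 (fun y => u y 0) x - pd 0 (fun y => u y 2) x) := rfl
  have f2 : ∫ x in cube, w x 2 * curl u x 2
      = ∫ x in cube, w x 2 * (pd 0 (fun y => u y 1) x - pd 1 (fun y => u y 0) x) := rfl
  rw [e0, e1, e2, f0, f1, f2, a0, a1, a2, b0, b1, b2]
  ring

theorem curl_contDiffOn (h : LSol T K u p) (i : Fin 3) :
    ContDiffOn ℝ ∞ (fun z : ℝ × V => curl (u z.1) z.2 i) (Ico 0 T ×ˢ univ) := by
  have h1 : ∀ k j, ContDiffOn ℝ ∞ (fun z : ℝ × V => pd j (fun y => u z.1 y k) z.2)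
      (Ico 0 T ×ˢ univ) := fun k j => contDiffOn_pd (f := fun s y => u s y k) (h.smooth_c k) j
  fin_cases i
  · exact (h1 2 1).sub (h1 1 2)
  · exact (h1 0 2).sub (h1 2 0)
  · exact (h1 1 0).sub (h1 0 1)

theorem curl_slice (hK : Smo β δ r K) (h : LSol T K u p) {t : ℝ} (ht : t ∈ Ioo 0 T) (i : Fin 3)
    (x : V) : HasDerivAt (fun s => curl (u s) x i) (curl (rh K (u t) (p t)) x i) t := by
  have h1 : ∀ k j, HasDerivAt (fun s => pd j (fun y => u s y k) x)
      (pd j (fun y => rh K (u t) (p t) y k) x) t := by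
    intro k j
    have h2 := hasDerivAt_slice (F := fun s => pd j (fun y => u s y k))
      (mono_Ioo (f := fun s => pd j (fun y => u s y k))
        (contDiffOn_pd (f := fun s y => u s y k) (h.smooth_c k) j) (by norm_cast)) ht x
    have h3 := dt_pd (f := fun s y => u s y k) (h.smooth_c k) ht j x
    have h4 : H459R3.NS.dt (fun s y => u s y k) t = fun y => rh K (u t) (p t) y k :=
      funext fun y => h.dt_eq ht k y
    rw [h4] at h3
    refine h2.congr_deriv ?_
    rw [← h2.deriv]
    exact h3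
  fin_cases i
  · exact (h1 2 1).sub (h1 1 2)
  · exact (h1 0 2).sub (h1 2 0)
  · exact (h1 1 0).sub (h1 0 1)

/-- conservation of helicity -/
theorem hel_deriv (hK : Smo β δ r K) (h : LSol T K u p) {t : ℝ}
    (ht : t ∈ Ioo 0 T) : HasDerivAt (fun s => dot (u s) (curl (u s))) 0 t := by
  have hI : t ∈ Ico 0 T := ⟨ht.1.le, ht.2⟩
  have hu := h.sv hI
  have hrh := rh_sv hK hu (h.sp_p hI)
  have hcu := curl_sv hu
  have h1 : ∀ i, HasDerivAt (fun s => ∫ x in cube, u s x i * curl (u s) x i)
      ((∫ x in cube, rh K (u t) (p t) x i * curl (u t) x i)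
        + ∫ x in cube, u t x i * curl (rh K (u t) (p t)) x i) t := by
    intro i
    have hF : ContDiffOn ℝ 1 (fun y : ℝ × V => u y.1 y.2 i * curl (u y.1) y.2 i)
        (Ioo 0 T ×ˢ univ) :=
      (mono_Ioo (f := fun s y => u s y i) (h.smooth_c i) (by norm_cast)).mul
        (mono_Ioo (f := fun s y => curl (u s) y i) (curl_contDiffOn h i) (by norm_cast))
    refine (hasDerivAt_int (F := fun s x => u s x i * curl (u s) x i) hF ht).congr_deriv ?_
    rw [← integral_add ((hrh i).mul (hcu i)).int ((hu i).mul (curl_sv hrh i)).int]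
    congr 1
    funext x
    exact ((slice_dt h ht i x).mul (curl_slice hK h ht i x)).deriv
  have h2 : HasDerivAt (fun s => dot (u s) (curl (u s)))
      (dot (rh K (u t) (p t)) (curl (u t)) + dot (u t) (curl (rh K (u t) (p t)))) t := by
    unfold dot
    rw [← Finset.sum_add_distrib]
    exact HasDerivAt.fun_sum fun i (_ : i ∈ Finset.univ) => h1 i
  refine h2.congr_deriv ?_
  rw [curl_symm hu hrh]
  have h3 := rh_dot hK hu (h.sp_p hI) hcu (curl_div hu) (fun x => by
    rw [Fin.sum_univ_three, cross0, cross1, cross2]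
    ring)
  rw [h3, add_zero]

theorem const_of_deriv {f : ℝ → ℝ} (hc : ContinuousOn f (Ico 0 T))
    (hd : ∀ t ∈ Ioo 0 T, HasDerivAt f 0 t) : ∀ t ∈ Ico 0 T, f t = f 0 := by
  intro b hb
  have hcont : ContinuousOn f (Icc 0 b) := hc.mono fun t ht => ⟨ht.1, ht.2.trans_lt hb.2⟩
  have h1 : AntitoneOn f (Icc 0 b) := antitoneOn_of_deriv_nonpos (convex_Icc 0 b) hcont
    (fun t ht => by
      rw [interior_Icc] at ht
      exact (hd t ⟨ht.1, ht.2.trans hb.2⟩).differentiableAt.differentiableWithinAt)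
    (fun t ht => by
      rw [interior_Icc] at ht
      rw [(hd t ⟨ht.1, ht.2.trans hb.2⟩).deriv])
  have h2 : MonotoneOn f (Icc 0 b) := monotoneOn_of_deriv_nonneg (convex_Icc 0 b) hcont
    (fun t ht => by
      rw [interior_Icc] at ht
      exact (hd t ⟨ht.1, ht.2.trans hb.2⟩).differentiableAt.differentiableWithinAt)
    (fun t ht => by
      rw [interior_Icc] at ht
      rw [(hd t ⟨ht.1, ht.2.trans hb.2⟩).deriv])
  exact le_antisymm (h1 ⟨le_rfl, hb.1⟩ ⟨hb.1, le_rfl⟩ hb.1) (h2 ⟨le_rfl, hb.1⟩ ⟨hb.1, le_rfl⟩ hb.1)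

theorem dot_cont (h : LSol T K u p) {z : V → V} (hz : SV z) :
    ContinuousOn (fun s => dot (u s) z) (Ico 0 T) := by
  unfold dot
  refine continuousOn_finsetSum _ fun i _ => ?_
  have h1 : ContinuousOn (fun y : ℝ × V => z y.2 i) (Ico 0 T ×ˢ univ) :=
    ((hz i).cont.comp continuous_snd).continuousOn
  exact continuousOn_int (F := fun s x => u s x i * z x i) ((h.smooth_c i).continuousOn.mul h1)

theorem En_fix_cont (h : LSol T K u p) {c : V → V} (hc : SV c) :
    ContinuousOn (fun s => En (fun x => u s x - c x)) (Ico 0 T) := by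
  unfold En
  refine continuousOn_finsetSum _ fun i _ => ?_
  have h1 : ContinuousOn (fun z : ℝ × V => u z.1 z.2 i - c z.2 i) (Ico 0 T ×ˢ univ) :=
    (h.smooth_c i).continuousOn.sub ((hc i).cont.comp continuous_snd).continuousOn
  exact continuousOn_int (F := fun s x => (u s x i - c x i) * (u s x i - c x i)) (h1.mul h1)

theorem K_cont (hK : Smo β δ r K) (hδ : 0 ≤ δ) (h : LSol T K u p) :
    ContinuousOn (fun s => dot (K (u s)) (u s)) (Ico 0 T) := by
  intro t ht
  have hc := h.sv ht
  have hKc := K_sv hK hc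
  have h1 := (dot_cont h hKc t ht).const_mul (2 : ℝ)
  have h2 := En_fix_cont h hc t ht
  have hR : ContinuousWithinAt (fun s => dot (K (fun x => u s x - u t x))
      (fun x => u s x - u t x)) (Ico 0 T) t := by
    have hE0 : En (fun x => u t x - u t x) = 0 := by
      unfold En; simp
    have hR0 : dot (K (fun x => u t x - u t x)) (fun x => u t x - u t x) = 0 := by
      unfold dot; simp
    unfold ContinuousWithinAt at h2 ⊢
    beta_reduce at h2 ⊢
    rw [hE0] at h2
    rw [hR0]
    have h3 := h2.const_mul δ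
    rw [mul_zero] at h3
    refine squeeze_zero_norm' ?_ h3
    filter_upwards [self_mem_nhdsWithin] with s hs
    have hs2 : SV (fun x => u s x - u t x) := fun i => sp_sub (h.sv hs i) (hc i)
    rw [Real.norm_eq_abs]
    exact K_quad hK hs2 hδ
  have h3 := (h1.sub (continuousWithinAt_const (b := dot (K (u t)) (u t)))).add hR
  refine h3.congr (fun s hs => ?_) ?_
  · exact K_expand hK (h.sv hs) hc
  · exact K_expand hK hc hc

/-- conservation laws -/
theorem conservation (hK : Smo β δ r K) (hδ : 0 ≤ δ) (h : LSol T K u p) : ∀ t ∈ Ico 0 T,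
    dot (u t) (u t) + dot (K (u t)) (u t) = dot (u 0) (u 0) + dot (K (u 0)) (u 0) ∧
    dot (u t) (curl (u t)) = dot (u 0) (curl (u 0)) := by
  intro t ht
  constructor
  · refine const_of_deriv (f := fun s => dot (u s) (u s) + dot (K (u s)) (u s)) ?_
      (fun t ht => energy_deriv hK hδ h ht) t ht
    refine ContinuousOn.add ?_ (K_cont hK hδ h)
    unfold dot
    refine continuousOn_finsetSum _ fun i _ => ?_
    exact continuousOn_int (F := fun s x => u s x i * u s x i)
      ((h.smooth_c i).continuousOn.mul (h.smooth_c i).continuousOn)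
  · refine const_of_deriv (f := fun s => dot (u s) (curl (u s))) ?_
      (fun t ht => hel_deriv hK h ht) t ht
    unfold dot
    refine continuousOn_finsetSum _ fun i _ => ?_
    exact continuousOn_int (F := fun s x => u s x i * curl (u s) x i)
      ((h.smooth_c i).continuousOn.mul (curl_contDiffOn h i).continuousOn)

end Pool.Agent.V1183.LM
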