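import Pool.Agent.V1183.LM.Fun1

/-!
The two-dimensional building blocks.
-/

open Set Filter Topology MeasureTheory
open scoped ContDiff ENNReal

set_option autoImplicit false

namespace Pool.Agent.V1183.LM

open H459R3.NS Pool.Agent.V1178.NS

/-! ### products -/

/-- product of two one-dimensional functions -/
noncomputable def T2 (f g : ℝ → ℝ) (x : V) : ℝ := per1 f (x 0) * per1 g (x 1)

theorem T2_hasFDerivAt {f g : ℝ → ℝ} (hf : S1 f) (hg : S1 g) (x : V) :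
    HasFDerivAt (T2 f g) (per1 f (x 0) • (per1 (deriv g) (x 1) •
        (ContinuousLinearMap.proj 1 : V →L[ℝ] ℝ))
        + per1 g (x 1) • (per1 (deriv f) (x 0) • (ContinuousLinearMap.proj 0 : V →L[ℝ] ℝ))) x :=
  (hasFDerivAt_per1 hf 0 x).mul (hasFDerivAt_per1 hg 1 x)

theorem T2_sp {f g : ℝ → ℝ} (hf : S1 f) (hg : S1 g) : SP (T2 f g) where
  smooth := by
    have h0 : ContDiff ℝ ∞ (fun y : V => per1 f (y 0)) :=
      (per1_contDiff hf.sup hf.smooth).comp (contDiff_apply ℝ ℝ 0)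
    have h1 : ContDiff ℝ ∞ (fun y : V => per1 g (y 1)) :=
      (per1_contDiff hg.sup hg.smooth).comp (contDiff_apply ℝ ℝ 1)
    exact h0.mul h1
  per := by
    intro i x
    unfold T2
    fin_cases i <;> simp [per1_periodic]

theorem T2_pd0 {f g : ℝ → ℝ} (hf : S1 f) (hg : S1 g) : pd 0 (T2 f g) = T2 (deriv f) g := by
  funext x
  unfold pd
  rw [(T2_hasFDerivAt hf hg x).fderiv]
  simp [T2]
  ring

theorem T2_pd1 {f g : ℝ → ℝ} (hf : S1 f) (hg : S1 g) : pd 1 (T2 f g) = T2 f (deriv g) := by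
  funext x
  unfold pd
  rw [(T2_hasFDerivAt hf hg x).fderiv]
  simp [T2]

theorem T2_pd2 {f g : ℝ → ℝ} (hf : S1 f) (hg : S1 g) : pd 2 (T2 f g) = fun _ => 0 := by
  funext x
  unfold pd
  rw [(T2_hasFDerivAt hf hg x).fderiv]
  simp

theorem T2_le {f g : ℝ → ℝ} {A B : ℝ} (hA : 0 ≤ A) (hf : ∀ z, |f z| ≤ A) (hg : ∀ z, |g z| ≤ B)
    (x : V) : |T2 f g x| ≤ A * B := by
  unfold T2
  rw [abs_mul]
  exact mul_le_mul (hf _) (hg _) (abs_nonneg _) hA

theorem PB_T2 {L : ℕ → ℝ} (hL : ∀ n, 1 ≤ L n) {f g : ℕ → ℝ → ℝ} (hf : ∀ n, S1 (f n))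
    (hg : ∀ n, S1 (g n)) (pf : PB L f) (pg : PB L g) : PB L (fun n => T2 (f n) (g n)) := by
  have h0 := (PB_per1 hf pf).comp hL (ContinuousLinearMap.proj (R := ℝ) (φ := fun _ : Fin 3 => ℝ) 0)
  have h1 := (PB_per1 hg pg).comp hL (ContinuousLinearMap.proj (R := ℝ) (φ := fun _ : Fin 3 => ℝ) 1)
  exact h0.mul hL h1

theorem per1_Icc {f : ℝ → ℝ} (hf : Sup f) {z : ℝ} (hz : z ∈ Icc (0 : ℝ) 1) : per1 f z = f z := by
  unfold per1
  rcases hz.2.eq_or_lt with h | h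
  · rw [h, Int.fract_one, hf 0 (fun h => by linarith [h.1]), hf 1 (fun h => by linarith [h.2])]
  · rw [Int.fract_eq_self.2 ⟨hz.1, h⟩]

/-! ### parameters -/

/-- the parameters -/
structure Dat where
  /-- the exponent -/
  a : ℝ
  /-- the size of the largest scale -/
  ρ : ℝ

namespace Dat

variable (d : Dat)

/-- the ratio of the scales -/
noncomputable def N : ℝ := Real.exp (1 / d.a)

/-- the scales -/
noncomputable def l (n : ℕ) : ℝ := d.ρ / d.N ^ n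

/-- the frequencies -/
noncomputable def L (n : ℕ) : ℝ := d.N ^ n

/-- the shifts -/
noncomputable def h (n : ℕ) : ℝ := 3 * d.N * d.l n

/-- the widths of the supports -/
noncomputable def w (n : ℕ) : ℝ := (3 * n + 4) * d.N * d.l n

/-- the conditions on the parameters -/
structure Ok : Prop where
  a0 : 0 < d.a
  a1 : d.a ≤ 1 / 4
  aM : d.a * M1 ≤ Real.exp (-1)
  ρ0 : 0 < d.ρ
  ρ1 : 32 * d.N * d.ρ ≤ 1

variable {d}

theorem N_pos : 0 < d.N := Real.exp_pos _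

theorem exp4 : (50 : ℝ) ≤ Real.exp 4 := by
  have h3 := Real.exp_one_gt_d9
  have h4 : Real.exp 4 = (Real.exp 1) ^ 4 := by
    rw [← Real.exp_nat_mul]; norm_num
  rw [h4]
  have h5 : (2.7 : ℝ) ^ 4 ≤ Real.exp 1 ^ 4 := by gcongr; linarith
  norm_num at h5 ⊢
  linarith

theorem Ok.N50 (h : d.Ok) : 50 ≤ d.N := by
  refine exp4.trans (Real.exp_le_exp.2 ?_)
  rw [le_div_iff₀ h.a0]
  linarith [h.a1]

theorem Ok.l_pos (h : d.Ok) (n : ℕ) : 0 < d.l n := div_pos h.ρ0 (pow_pos N_pos n)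

theorem Ok.h_nonneg (h : d.Ok) (n : ℕ) : 0 ≤ d.h n := by
  have := h.l_pos n
  have := N_pos (d := d)
  unfold Dat.h
  positivity

theorem Ok.L1 (h : d.Ok) (n : ℕ) : 1 ≤ d.L n := one_le_pow₀ (by linarith [h.N50])

theorem L_pos (n : ℕ) : 0 < d.L n := pow_pos N_pos n

theorem l_inv (n : ℕ) : (d.l n)⁻¹ = d.ρ⁻¹ * d.L n := by
  unfold l L
  rw [inv_div]
  ring

theorem Ok.two_pow (h : d.Ok) (n : ℕ) : (2 : ℝ) ^ n ≤ d.L n := by
  unfold L
  have := h.N50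
  gcongr
  linarith

theorem n_le (n : ℕ) : (n : ℝ) + 1 ≤ 2 ^ n := by
  exact_mod_cast Nat.succ_le_of_lt (Nat.lt_two_pow_self)

theorem Ok.l_le (h : d.Ok) (n : ℕ) : d.l n ≤ d.ρ := by
  unfold l
  exact div_le_self h.ρ0.le (h.L1 n)

theorem Ok.w_le (h : d.Ok) (n : ℕ) : d.w n ≤ 4 * d.N * d.ρ := by
  have h1 := h.two_pow n
  have h2 := n_le n
  have h3 := N_pos (d := d)
  have h4 := h.ρ0
  have h5 : (3 * n + 4 : ℝ) ≤ 4 * d.L n := by
    have : (0 : ℝ) ≤ n := Nat.cast_nonneg n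
    linarith
  have h6 : d.w n = ((3 * n + 4) / d.L n) * (d.N * d.ρ) := by
    unfold w l L; ring
  rw [h6]
  have h7 : (3 * n + 4) / d.L n ≤ 4 := by
    rw [div_le_iff₀ (L_pos n)]; exact h5
  have h8 : 0 ≤ d.N * d.ρ := by positivity
  nlinarith

theorem Ok.w_le8 (h : d.Ok) (n : ℕ) : d.w n ≤ 1 / 8 := by
  have h1 := h.w_le n
  have h2 := h.ρ1
  linarith

theorem Ok.Nl_le (h : d.Ok) (n : ℕ) : 3 * d.N * d.l n ≤ d.w n := by
  have h1 := N_pos (d := d)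
  have h2 := h.l_pos n
  unfold w
  have : (0 : ℝ) ≤ n := Nat.cast_nonneg n
  have h3 : 0 ≤ d.N * d.l n := by positivity
  nlinarith [mul_nonneg this h3]

theorem Ok.w_nonneg (h : d.Ok) (n : ℕ) : 0 ≤ d.w n := by
  have h1 := N_pos (d := d)
  have h2 := h.l_pos n
  unfold w; positivity

theorem Ok.seqs (h : d.Ok) : Seqs d.L where
  one := h.L1
  sum := by
    have h50 := h.N50
    have e : (fun n => (d.L n)⁻¹) = fun n => (d.N⁻¹) ^ n := by
      funext n; unfold L; rw [inv_pow]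
    rw [e]
    exact summable_geometric_of_lt_one (by positivity) (inv_lt_one_of_one_lt₀ (by linarith))
  mono := pow_right_mono₀ (by linarith [h.N50])

theorem Ok.pol_l_inv (h : d.Ok) : Pol d.L (fun n => (d.l n)⁻¹) := by
  have e : (fun n => (d.l n)⁻¹) = fun n => d.ρ⁻¹ * d.L n := funext fun n => l_inv n
  rw [e]
  exact (Pol.const _).mul (Pol.self h.L1)

theorem Ok.pol_l (h : d.Ok) : Pol d.L d.l := by
  refine (Pol.const (L := d.L) d.ρ).of_le fun n => ?_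
  rw [abs_of_pos (h.l_pos n), abs_of_pos h.ρ0]
  exact h.l_le n

theorem Ok.pol_two (h : d.Ok) : Pol d.L (fun n => (2 : ℝ) ^ n) := by
  refine (Pol.self h.L1).of_le fun n => ?_
  rw [abs_of_pos (by positivity), abs_of_pos (L_pos n)]
  exact h.two_pow n

theorem Ok.pol_exp (h : d.Ok) : Pol d.L (fun n => Real.exp n) := by
  refine (Pol.self h.L1).of_le fun n => ?_
  rw [abs_of_pos (Real.exp_pos _), abs_of_pos (L_pos n)]
  unfold L
  have e : Real.exp (n : ℝ) = Real.exp 1 ^ n := by rw [← Real.exp_nat_mul]; simp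
  rw [e]
  have h1 := Real.exp_one_lt_d9
  have h2 := h.N50
  have h3 := Real.exp_pos 1
  gcongr
  linarith

end Dat

/-! ### the building blocks -/

/-- a pair of profiles -/
structure Pair (d : Dat) (f g : ℝ → ℝ) : Prop where
  f : SI (-d.N) d.N f
  g : SI (-(3 * d.N)) (3 * d.N) g

variable {d : Dat} {f g : ℝ → ℝ}

/-- the building block with `j` averages -/
noncomputable def Pf (d : Dat) (f g : ℝ → ℝ) (j n : ℕ) : V → ℝ :=
  T2 (Gh (d.h n) j (n + 1 - j) (sc f (d.l n))) (sc g (d.l n))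

/-- the derivatives of the building blocks -/
noncomputable def Qf (d : Dat) (f g : ℝ → ℝ) (i j n : ℕ) : V → ℝ :=
  T2 (iteratedDeriv i ((Th (d.h n))^[n + 1] (sc f (d.l n)))) (iteratedDeriv j (sc g (d.l n)))

theorem Qf_zero (n : ℕ) : Qf d f g 0 0 n = Pf d f g 0 n := by
  unfold Qf Pf
  rw [iteratedDeriv_zero, iteratedDeriv_zero]
  rfl

theorem Pair.scf (h : Pair d f g) (hd : d.Ok) (n : ℕ) :
    SI (1 / 2 - d.N * d.l n) (1 / 2 + d.N * d.l n) (sc f (d.l n)) :=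
  (h.f.sc (hd.l_pos n)).mono (by linarith) le_rfl

theorem Pair.scg (h : Pair d f g) (hd : d.Ok) (n : ℕ) :
    SI (1 / 2 - 3 * d.N * d.l n) (1 / 2 + 3 * d.N * d.l n) (sc g (d.l n)) :=
  (h.g.sc (hd.l_pos n)).mono (by linarith) le_rfl

theorem Pair.ghf (h : Pair d f g) (hd : d.Ok) {j n : ℕ} (hj : j ≤ n + 1) :
    SI (1 / 2 - d.w n) (1 / 2 + d.w n) (Gh (d.h n) j (n + 1 - j) (sc f (d.l n))) := by
  have h1 := (h.scf hd n).Gh (hd.h_nonneg n) j (n + 1 - j)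
  have e : j + (n + 1 - j) = n + 1 := by omega
  rw [e] at h1
  have h2 := Dat.N_pos (d := d)
  have h3 := hd.l_pos n
  refine h1.mono (le_of_eq ?_) ?_
  · unfold Dat.w Dat.h; push_cast; ring
  · unfold Dat.w
    have : (0 : ℝ) ≤ n := Nat.cast_nonneg n
    have h4 : 0 ≤ d.N * d.l n := by positivity
    nlinarith [mul_nonneg this h4]

theorem Pair.tif (h : Pair d f g) (hd : d.Ok) (i n : ℕ) :
    SI (1 / 2 - d.w n) (1 / 2 + d.w n)
      (iteratedDeriv i ((Th (d.h n))^[n + 1] (sc f (d.l n)))) :=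
  (h.ghf hd (j := 0) (by omega)).iter i

theorem Pair.s1g (h : Pair d f g) (hd : d.Ok) (j n : ℕ) :
    S1 (iteratedDeriv j (sc g (d.l n))) :=
  ((h.scg hd n).iter j).s1 (by linarith [hd.Nl_le n, hd.w_le8 n])
    (by linarith [hd.Nl_le n, hd.w_le8 n])

theorem Pair.s1f (h : Pair d f g) (hd : d.Ok) (i n : ℕ) :
    S1 (iteratedDeriv i ((Th (d.h n))^[n + 1] (sc f (d.l n)))) :=
  (h.tif hd i n).s1 (by linarith [hd.w_le8 n]) (by linarith [hd.w_le8 n])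

theorem Pair.s1gh (h : Pair d f g) (hd : d.Ok) {j n : ℕ} (hj : j ≤ n + 1) :
    S1 (Gh (d.h n) j (n + 1 - j) (sc f (d.l n))) :=
  (h.ghf hd hj).s1 (by linarith [hd.w_le8 n]) (by linarith [hd.w_le8 n])

theorem Pair.s1g0 (h : Pair d f g) (hd : d.Ok) (n : ℕ) : S1 (sc g (d.l n)) := by
  have := h.s1g hd 0 n
  rwa [iteratedDeriv_zero] at this

theorem Pair.sp (h : Pair d f g) (hd : d.Ok) (i j n : ℕ) : SP (Qf d f g i j n) :=
  T2_sp (h.s1f hd i n) (h.s1g hd j n)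

theorem Pair.spP (h : Pair d f g) (hd : d.Ok) {j n : ℕ} (hj : j ≤ n + 1) : SP (Pf d f g j n) :=
  T2_sp (h.s1gh hd hj) (h.s1g0 hd n)

theorem Pair.pd0 (h : Pair d f g) (hd : d.Ok) (i j n : ℕ) :
    pd 0 (Qf d f g i j n) = Qf d f g (i + 1) j n := by
  unfold Qf
  rw [T2_pd0 (h.s1f hd i n) (h.s1g hd j n), ← iteratedDeriv_succ]

theorem Pair.pd1 (h : Pair d f g) (hd : d.Ok) (i j n : ℕ) :
    pd 1 (Qf d f g i j n) = Qf d f g i (j + 1) n := by
  unfold Qf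
  rw [T2_pd1 (h.s1f hd i n) (h.s1g hd j n), ← iteratedDeriv_succ]

theorem Pair.pd2 (h : Pair d f g) (hd : d.Ok) (i j n : ℕ) :
    pd 2 (Qf d f g i j n) = fun _ => 0 := T2_pd2 (h.s1f hd i n) (h.s1g hd j n)

theorem Pair.pdP (h : Pair d f g) (hd : d.Ok) {j n : ℕ} (hj : j + 1 ≤ n + 1) (x : V) :
    H459R3.NS.pd 0 (Pf d f g (j + 1) n) x = -Pf d f g j n x := by
  unfold Pf
  rw [T2_pd0 (h.s1gh hd hj) (h.s1g0 hd n), Gh_deriv (h.scf hd n) (hd.h_nonneg n)]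
  have e : n + 1 - (j + 1) + 1 = n + 1 - j := by omega
  rw [e]
  unfold T2 per1
  ring

/-- the constants -/
theorem Pair.consts (h : Pair d f g) (k : ℕ) : ∃ C : ℝ, 1 ≤ C ∧ ∀ i ≤ k,
    (∀ z, |iteratedDeriv i f z| ≤ C) ∧ ∀ z, |iteratedDeriv i g z| ≤ C := by
  induction k with
  | zero =>
    obtain ⟨C, hC0, hC⟩ := (h.f.iter 0).bdd
    obtain ⟨D, hD0, hD⟩ := (h.g.iter 0).bdd
    refine ⟨1 + C + D, by linarith, fun i hi => ?_⟩
    obtain rfl : i = 0 := by omega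
    exact ⟨fun z => (hC z).trans (by linarith), fun z => (hD z).trans (by linarith)⟩
  | succ k ih =>
    obtain ⟨B, hB1, hB⟩ := ih
    obtain ⟨C, hC0, hC⟩ := (h.f.iter (k + 1)).bdd
    obtain ⟨D, hD0, hD⟩ := (h.g.iter (k + 1)).bdd
    refine ⟨B + C + D, by linarith, fun i hi => ?_⟩
    rcases Nat.lt_or_ge i (k + 1) with h1 | h1
    · exact ⟨fun z => ((hB i (by omega)).1 z).trans (by linarith),
        fun z => ((hB i (by omega)).2 z).trans (by linarith)⟩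
    · obtain rfl : i = k + 1 := by omega
      exact ⟨fun z => (hC z).trans (by linarith), fun z => (hD z).trans (by linarith)⟩

theorem sc_iter_le {g : ℝ → ℝ} (hg : ContDiff ℝ ∞ g) {l C : ℝ} (hl : 0 < l) {k : ℕ}
    (hC : ∀ z, |iteratedDeriv k g z| ≤ C) (z : ℝ) :
    |iteratedDeriv k (sc g l) z| ≤ (l⁻¹) ^ k * C := by
  rw [iter_sc hg, abs_mul, abs_of_pos (by positivity)]
  gcongr
  exact hC _

theorem Pair.fder_le (h : Pair d f g) (hd : d.Ok) {i : ℕ} {C : ℝ}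
    (hC : ∀ z, |iteratedDeriv i f z| ≤ C) (n : ℕ) (z : ℝ) :
    |iteratedDeriv i ((Th (d.h n))^[n + 1] (sc f (d.l n))) z|
      ≤ 2 ^ (n + 1) * (((d.l n)⁻¹) ^ i * C) := by
  rw [iter_Tit (h.scf hd n) (hd.h_nonneg n)]
  exact Tit_le (sc_iter_le h.f.smooth (hd.l_pos n) hC) (n + 1) z

theorem Pair.Q_le (h : Pair d f g) (hd : d.Ok) {i j : ℕ} {C D : ℝ}
    (hC : ∀ z, |iteratedDeriv i f z| ≤ C) (hD : ∀ z, |iteratedDeriv j g z| ≤ D) (hC0 : 0 ≤ C)
    (n : ℕ) (x : V) : |Qf d f g i j n x| ≤ 2 ^ (n + 1) * ((d.l n)⁻¹) ^ (i + j) * (C * D) := by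
  have hl := hd.l_pos n
  refine (T2_le (by positivity) (h.fder_le hd hC n)
    (sc_iter_le h.g.smooth (hd.l_pos n) hD) x).trans (le_of_eq ?_)
  rw [pow_add]
  ring

theorem Pair.P_le (h : Pair d f g) (hd : d.Ok) {C D : ℝ} (hC : ∀ z, |f z| ≤ C)
    (hD : ∀ z, |g z| ≤ D) (hC0 : 0 ≤ C) (j n : ℕ) (x : V) :
    |Pf d f g j n x| ≤ d.h n ^ j * 2 ^ (n + 1 - j) * (C * D) := by
  have hh := hd.h_nonneg n
  refine (T2_le (by positivity) (Gh_le hh (fun z => hC _) j (n + 1 - j))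
    (fun z => hD _) x).trans (le_of_eq ?_)
  ring

theorem iter_iter (f : ℝ → ℝ) (i k : ℕ) : iteratedDeriv k (iteratedDeriv i f)
    = iteratedDeriv (k + i) f := by
  rw [iteratedDeriv_eq_iterate, iteratedDeriv_eq_iterate, iteratedDeriv_eq_iterate,
    Function.iterate_add_apply]

theorem Pair.pbQ (h : Pair d f g) (hd : d.Ok) (i j : ℕ) : PB d.L (fun n => Qf d f g i j n) := by
  refine PB_T2 hd.L1 (h.s1f hd i) (h.s1g hd j) (PB.of_iter (fun n => (h.tif hd i n).smooth)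
    fun k => ?_) (PB.of_iter (fun n => ((h.scg hd n).iter j).smooth) fun k => ?_)
  · obtain ⟨C, hC1, hC⟩ := h.consts (k + i)
    have hC' := (hC (k + i) le_rfl).1
    obtain ⟨K, m, hK, hm⟩ := (((hd.pol_two.mul (Pol.const 2)).mul
      (hd.pol_l_inv.pow (k + i))).mul (Pol.const C))
    refine ⟨K, m, fun n z => ?_⟩
    rw [iter_iter]
    refine (h.fder_le hd hC' n z).trans (le_trans (le_of_eq ?_) ((le_abs_self _).trans (hm n)))
    rw [pow_succ]
    ring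
  · obtain ⟨C, hC1, hC⟩ := h.consts (k + j)
    have hC' := (hC (k + j) le_rfl).2
    obtain ⟨K, m, hK, hm⟩ := ((hd.pol_l_inv.pow (k + j)).mul (Pol.const C))
    refine ⟨K, m, fun n z => ?_⟩
    rw [iter_iter]
    exact (sc_iter_le h.g.smooth (hd.l_pos n) hC' z).trans ((le_abs_self _).trans (hm n))

/-- the supports -/
def Kn (d : Dat) (n : ℕ) : Set V :=
  {x | |Int.fract (x 0) - 1 / 2| ≤ d.w n ∧ |Int.fract (x 1) - 1 / 2| ≤ 3 * d.N * d.l n}

theorem T2_zero {F G : ℝ → ℝ} {w w' : ℝ} (hF : SI (1 / 2 - w) (1 / 2 + w) F)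
    (hG : SI (1 / 2 - w') (1 / 2 + w') G) {x : V}
    (hx : ¬ (|Int.fract (x 0) - 1 / 2| ≤ w ∧ |Int.fract (x 1) - 1 / 2| ≤ w')) : T2 F G x = 0 := by
  unfold T2 per1
  by_cases h : |Int.fract (x 0) - 1 / 2| ≤ w
  · have h2 : ¬ |Int.fract (x 1) - 1 / 2| ≤ w' := fun h2 => hx ⟨h, h2⟩
    rw [hG.supp _ fun h3 => h2 (abs_le.2 ⟨by linarith [h3.1], by linarith [h3.2]⟩), mul_zero]
  · rw [hF.supp _ fun h3 => h (abs_le.2 ⟨by linarith [h3.1], by linarith [h3.2]⟩), zero_mul]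

theorem Pair.Q_zero (h : Pair d f g) (hd : d.Ok) {i j n : ℕ} {x : V} (hx : x ∉ Kn d n) :
    Qf d f g i j n x = 0 := T2_zero (h.tif hd i n) ((h.scg hd n).iter j) hx

theorem Pair.P_zero (h : Pair d f g) (hd : d.Ok) {j n : ℕ} (hj : j ≤ n + 1) {x : V}
    (hx : x ∉ Kn d n) : Pf d f g j n x = 0 := T2_zero (h.ghf hd hj) (h.scg hd n) hx

/-- the part of the support in the cube -/
noncomputable def Sn (d : Dat) (n : ℕ) : Set V :=
  Icc ![1 / 2 - d.w n, 1 / 2 - 3 * d.N * d.l n, 0] ![1 / 2 + d.w n, 1 / 2 + 3 * d.N * d.l n, 1]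

theorem Sn_vol (hd : d.Ok) (n : ℕ) :
    volume (Sn d n) ≤ ENNReal.ofReal (48 * (n + 1) * d.N ^ 2 * d.l n ^ 2) := by
  have h1 := hd.w_nonneg n
  have h2 := Dat.N_pos (d := d)
  have h3 := hd.l_pos n
  have hn : (0 : ℝ) ≤ n := Nat.cast_nonneg n
  unfold Sn
  rw [Real.volume_Icc_pi, Fin.prod_univ_three]
  simp only [Matrix.cons_val_zero, Matrix.cons_val_one, Matrix.cons_val]
  rw [← ENNReal.ofReal_mul (by linarith), ← ENNReal.ofReal_mul (by
    refine mul_nonneg (by linarith) ?_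
    have : 0 ≤ d.N * d.l n := by positivity
    linarith)]
  refine ENNReal.ofReal_le_ofReal ?_
  have e : (1 / 2 + d.w n - (1 / 2 - d.w n)) * (1 / 2 + 3 * d.N * d.l n - (1 / 2 - 3 * d.N * d.l n))
      * (1 - 0) = (36 * n + 48) * d.N ^ 2 * d.l n ^ 2 := by
    unfold Dat.w; ring
  rw [e]
  have : (36 * n + 48 : ℝ) ≤ 48 * (n + 1) := by linarith
  gcongr

theorem Kn_Sn (hd : d.Ok) {n : ℕ} {x : V} (hx : x ∈ cube) (hS : x ∉ Sn d n) : x ∉ Kn d n := by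
  intro hK
  apply hS
  have h0 := hd.w_le8 n
  have h1 := hd.Nl_le n
  have hx0 : ∀ i, x i ∈ Icc (0 : ℝ) 1 := fun i => ⟨hx.1 i, hx.2 i⟩
  have key : ∀ i, ∀ w ≤ (1 / 8 : ℝ), |Int.fract (x i) - 1 / 2| ≤ w →
      1 / 2 - w ≤ x i ∧ x i ≤ 1 / 2 + w := by
    intro i w hw h
    rcases (hx0 i).2.eq_or_lt with h2 | h2
    · rw [h2, Int.fract_one, zero_sub, abs_neg, abs_of_pos (by norm_num)] at h
      linarith
    · rw [Int.fract_eq_self.2 ⟨(hx0 i).1, h2⟩, abs_le] at h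
      constructor <;> linarith [h.1, h.2]
  obtain ⟨a1, a2⟩ := key 0 _ h0 hK.1
  obtain ⟨b1, b2⟩ := key 1 _ (h1.trans h0) hK.2
  constructor
  · intro i
    fin_cases i
    · exact a1
    · exact b1
    · exact (hx0 2).1
  · intro i
    fin_cases i
    · exact a2
    · exact b2
    · exact (hx0 2).2

end Pool.Agent.V1183.LM
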