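import Pool.Agent.V1183.LM.Ser

/-!
One-dimensional functions: differences, averages, scaling.
-/

open Set Filter Topology MeasureTheory
open scoped ContDiff ENNReal

set_option autoImplicit false

namespace Pool.Agent.V1183.LM

open H459R3.NS Pool.Agent.V1178.NS

/-! ### smooth functions with support in an interval -/

/-- smooth functions on the line with support in `[α, β]` -/
structure SI (α β : ℝ) (f : ℝ → ℝ) : Prop where
  smooth : ContDiff ℝ ∞ f
  supp : ∀ z, z ∉ Icc α β → f z = 0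

theorem SI.cont {α β : ℝ} {f : ℝ → ℝ} (h : SI α β f) : Continuous f := h.smooth.continuous

theorem SI.diff {α β : ℝ} {f : ℝ → ℝ} (h : SI α β f) : Differentiable ℝ f :=
  h.smooth.differentiable (by simp)

theorem SI.mono {α β α' β' : ℝ} {f : ℝ → ℝ} (h : SI α β f) (h1 : α' ≤ α) (h2 : β ≤ β') :
    SI α' β' f :=
  ⟨h.smooth, fun z hz => h.supp z fun hz' => hz ⟨h1.trans hz'.1, hz'.2.trans h2⟩⟩

theorem SI.deriv {α β : ℝ} {f : ℝ → ℝ} (h : SI α β f) : SI α β (deriv f) :=
  ⟨h.smooth.deriv', fun z hz => by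
    have h1 : f =ᶠ[𝓝 z] fun _ => 0 := by
      filter_upwards [isClosed_Icc.isOpen_compl.mem_nhds hz] with w hw
      exact h.supp w hw
    rw [h1.deriv_eq, deriv_const]⟩

theorem SI.iter {α β : ℝ} {f : ℝ → ℝ} (h : SI α β f) (k : ℕ) : SI α β (iteratedDeriv k f) := by
  induction k with
  | zero => rwa [iteratedDeriv_zero]
  | succ k ih => rw [iteratedDeriv_succ]; exact ih.deriv

theorem SI.bdd {α β : ℝ} {f : ℝ → ℝ} (h : SI α β f) : ∃ C, 0 ≤ C ∧ ∀ z, |f z| ≤ C := by
  obtain ⟨C, hC⟩ := (isCompact_Icc (a := α) (b := β)).exists_bound_of_continuousOn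
    h.cont.continuousOn
  refine ⟨|C|, abs_nonneg C, fun z => ?_⟩
  by_cases hz : z ∈ Icc α β
  · exact (hC z hz).trans (le_abs_self C)
  · rw [h.supp z hz, abs_zero]; exact abs_nonneg C

theorem SI.s1 {α β : ℝ} {f : ℝ → ℝ} (h : SI α β f) (h1 : 1 / 4 ≤ α) (h2 : β ≤ 3 / 4) : S1 f :=
  ⟨h.smooth, (h.mono h1 h2).supp⟩

/-! ### differences and averages -/

/-- difference with step `h` -/
def Th (h : ℝ) (f : ℝ → ℝ) (z : ℝ) : ℝ := f z - f (z + h)

/-- integral over `[z, z + h]` -/
noncomputable def Mh (h : ℝ) (f : ℝ → ℝ) (z : ℝ) : ℝ := ∫ s in (0 : ℝ)..h, f (z + s)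

theorem SI.Th {α β h : ℝ} {f : ℝ → ℝ} (hf : SI α β f) (hh : 0 ≤ h) : SI (α - h) β (Th h f) where
  smooth := hf.smooth.sub (hf.smooth.comp (contDiff_id.add contDiff_const))
  supp := by
    intro z hz
    show f z - f (z + h) = 0
    rw [hf.supp z, hf.supp (z + h), sub_zero]
    · exact fun h1 => hz ⟨by linarith [h1.1], by linarith [h1.2]⟩
    · exact fun h1 => hz ⟨by linarith [h1.1], h1.2⟩

theorem Mh_hasDerivAt {h : ℝ} {f : ℝ → ℝ} (hf : Continuous f) (z : ℝ) :
    HasDerivAt (Mh h f) (-Th h f z) z := by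
  have e : Mh h f = fun z => (∫ s in (0 : ℝ)..(z + h), f s) - ∫ s in (0 : ℝ)..z, f s := by
    funext z
    unfold Mh
    rw [intervalIntegral.integral_comp_add_left (fun s => f s) z, add_zero,
      intervalIntegral.integral_interval_sub_left (hf.intervalIntegrable _ _)
        (hf.intervalIntegrable _ _)]
  rw [e]
  have h1 : HasDerivAt (fun z => ∫ s in (0 : ℝ)..z, f s) (f z) z :=
    intervalIntegral.integral_hasDerivAt_right (hf.intervalIntegrable _ _)
      (hf.stronglyMeasurableAtFilter _ _) hf.continuousAt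
  have h2 : HasDerivAt (fun z => ∫ s in (0 : ℝ)..z, f s) (f (z + h)) (z + h) :=
    intervalIntegral.integral_hasDerivAt_right (hf.intervalIntegrable _ _)
      (hf.stronglyMeasurableAtFilter _ _) hf.continuousAt
  have h3 : HasDerivAt (fun z => ∫ s in (0 : ℝ)..(z + h), f s) (f (z + h)) z :=
    h2.comp_add_const z h
  have h4 := h3.sub h1
  have e2 : -Pool.Agent.V1183.LM.Th h f z = f (z + h) - f z := by
    unfold Pool.Agent.V1183.LM.Th; ring
  rw [e2]
  exact h4

theorem SI.Mh {α β h : ℝ} {f : ℝ → ℝ} (hf : SI α β f) (hh : 0 ≤ h) : SI (α - h) β (Mh h f) where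
  smooth := by
    rw [contDiff_infty_iff_deriv]
    refine ⟨fun z => (Mh_hasDerivAt hf.cont z).differentiableAt, ?_⟩
    have e : _root_.deriv (Pool.Agent.V1183.LM.Mh h f) = fun z => -Pool.Agent.V1183.LM.Th h f z :=
      funext fun z => (Mh_hasDerivAt hf.cont z).deriv
    rw [e]
    exact (hf.Th hh).smooth.neg
  supp := by
    intro z hz
    unfold Pool.Agent.V1183.LM.Mh
    have : ∀ s ∈ uIcc 0 h, f (z + s) = 0 := by
      intro s hs
      rw [uIcc_of_le hh] at hs
      refine hf.supp _ fun h1 => hz ⟨by linarith [h1.1, hs.2], by linarith [h1.2, hs.1]⟩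
    rw [intervalIntegral.integral_congr (g := fun _ => 0) this]
    simp

theorem Th_Mh {h : ℝ} {f : ℝ → ℝ} (hf : Continuous f) : Th h (Mh h f) = Mh h (Th h f) := by
  funext z
  unfold Th Mh
  rw [intervalIntegral.integral_sub]
  · congr 1
    apply intervalIntegral.integral_congr
    intro s _
    show f (z + h + s) = f (z + s + h)
    congr 1
    ring
  · exact (hf.comp (continuous_const.add continuous_id)).intervalIntegrable _ _
  · exact (hf.comp ((continuous_const.add continuous_id).add continuous_const)).intervalIntegrable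
      _ _

/-- `j` averages and `m` differences -/
noncomputable def Gh (h : ℝ) (j m : ℕ) (f : ℝ → ℝ) : ℝ → ℝ := (Mh h)^[j] ((Th h)^[m] f)

theorem SI.Tit {α β h : ℝ} {f : ℝ → ℝ} (hf : SI α β f) (hh : 0 ≤ h) (m : ℕ) :
    SI (α - m * h) β ((Pool.Agent.V1183.LM.Th h)^[m] f) := by
  induction m with
  | zero => simpa using hf
  | succ m ih =>
    rw [Function.iterate_succ_apply']
    refine (ih.Th hh).mono (le_of_eq ?_) le_rfl
    push_cast
    ring

theorem SI.Gh {α β h : ℝ} {f : ℝ → ℝ} (hf : SI α β f) (hh : 0 ≤ h) (j m : ℕ) :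
    SI (α - (j + m : ℕ) * h) β (Gh h j m f) := by
  unfold Pool.Agent.V1183.LM.Gh
  induction j with
  | zero => simpa using hf.Tit hh m
  | succ j ih =>
    rw [Function.iterate_succ_apply']
    refine (ih.Mh hh).mono (le_of_eq ?_) le_rfl
    push_cast
    ring

theorem Th_Gh {α β h : ℝ} {f : ℝ → ℝ} (hf : SI α β f) (hh : 0 ≤ h) (j m : ℕ) :
    Th h (Gh h j m f) = Gh h j (m + 1) f := by
  induction j with
  | zero =>
    show Th h ((Th h)^[m] f) = (Th h)^[m + 1] f
    rw [Function.iterate_succ_apply']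
  | succ j ih =>
    have e : ∀ m, Gh h (j + 1) m f = Mh h (Gh h j m f) := fun m => by
      unfold Gh; rw [Function.iterate_succ_apply']
    rw [e, Th_Mh (hf.Gh hh j m).cont, ih, e]

theorem Gh_deriv {α β h : ℝ} {f : ℝ → ℝ} (hf : SI α β f) (hh : 0 ≤ h) (j m : ℕ) :
    deriv (Gh h (j + 1) m f) = fun z => -Gh h j (m + 1) f z := by
  have e : Gh h (j + 1) m f = Mh h (Gh h j m f) := by
    unfold Gh; rw [Function.iterate_succ_apply']
  rw [e]
  funext z
  rw [(Mh_hasDerivAt (hf.Gh hh j m).cont z).deriv, Th_Gh hf hh]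

theorem Th_le {h : ℝ} {f : ℝ → ℝ} {C : ℝ} (hf : ∀ z, |f z| ≤ C) (z : ℝ) : |Th h f z| ≤ 2 * C := by
  unfold Th
  calc |f z - f (z + h)| ≤ |f z| + |f (z + h)| := abs_sub _ _
    _ ≤ C + C := add_le_add (hf _) (hf _)
    _ = 2 * C := by ring

theorem Mh_le {h : ℝ} (hh : 0 ≤ h) {f : ℝ → ℝ} {C : ℝ} (hf : ∀ z, |f z| ≤ C) (z : ℝ) :
    |Mh h f z| ≤ h * C := by
  unfold Mh
  have := intervalIntegral.norm_integral_le_of_norm_le_const (a := 0) (b := h)
    (f := fun s => f (z + s)) (C := C) (fun s _ => hf _)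
  rw [Real.norm_eq_abs, sub_zero, abs_of_nonneg hh] at this
  linarith

theorem Tit_le {h : ℝ} {f : ℝ → ℝ} {C : ℝ} (hf : ∀ z, |f z| ≤ C) (m : ℕ) (z : ℝ) :
    |(Th h)^[m] f z| ≤ 2 ^ m * C := by
  induction m generalizing z with
  | zero => simpa using hf z
  | succ m ih =>
    rw [Function.iterate_succ_apply']
    refine (Th_le ih z).trans (le_of_eq ?_)
    ring

theorem Gh_le {h : ℝ} (hh : 0 ≤ h) {f : ℝ → ℝ} {C : ℝ} (hf : ∀ z, |f z| ≤ C) (j m : ℕ) (z : ℝ) :
    |Gh h j m f z| ≤ h ^ j * 2 ^ m * C := by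
  unfold Gh
  induction j generalizing z with
  | zero => simpa using Tit_le hf m z
  | succ j ih =>
    rw [Function.iterate_succ_apply']
    refine (Mh_le hh ih z).trans (le_of_eq ?_)
    ring

/-- to the right the differences do nothing -/
theorem Tit_eq {h : ℝ} (hh : 0 ≤ h) {f : ℝ → ℝ} (m : ℕ) {z : ℝ} (hz : ∀ w, z + h ≤ w → f w = 0) :
    (Th h)^[m] f z = f z := by
  induction m generalizing z with
  | zero => rfl
  | succ m ih =>
    rw [Function.iterate_succ_apply']
    unfold Th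
    have h1 := ih hz
    have h2 := ih (z := z + h) fun w hw => hz w (by linarith)
    unfold Th at h1 h2
    rw [h1, h2, hz (z + h) le_rfl, sub_zero]

theorem Th_deriv {h : ℝ} {f : ℝ → ℝ} (hf : Differentiable ℝ f) : deriv (Th h f) = Th h (deriv f) := by
  funext z
  have h1 : HasDerivAt (fun z => f (z + h)) (deriv f (z + h)) z :=
    (hf (z + h)).hasDerivAt.comp_add_const z h
  exact ((hf z).hasDerivAt.sub h1).deriv

theorem iter_Th {α β h : ℝ} {f : ℝ → ℝ} (hf : SI α β f) (k : ℕ) :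
    iteratedDeriv k (Th h f) = Th h (iteratedDeriv k f) := by
  induction k with
  | zero => rw [iteratedDeriv_zero, iteratedDeriv_zero]
  | succ k ih =>
    rw [iteratedDeriv_succ, ih, Th_deriv (hf.iter k).diff, iteratedDeriv_succ]

theorem iter_Tit {α β h : ℝ} {f : ℝ → ℝ} (hf : SI α β f) (hh : 0 ≤ h) (k m : ℕ) :
    iteratedDeriv k ((Th h)^[m] f) = (Th h)^[m] (iteratedDeriv k f) := by
  induction m with
  | zero => rfl
  | succ m ih =>
    rw [Function.iterate_succ_apply', iter_Th (hf.Tit hh m), ih, Function.iterate_succ_apply']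

/-! ### scaling -/

/-- scaling about the point `1/2` -/
noncomputable def sc (g : ℝ → ℝ) (l z : ℝ) : ℝ := g ((z - 1 / 2) / l)

theorem sc_smooth {g : ℝ → ℝ} (hg : ContDiff ℝ ∞ g) (l : ℝ) : ContDiff ℝ ∞ (sc g l) :=
  hg.comp ((contDiff_id.sub contDiff_const).div_const l)

theorem SI.sc {α β : ℝ} {g : ℝ → ℝ} (hg : SI α β g) {l : ℝ} (hl : 0 < l) :
    SI (1 / 2 + α * l) (1 / 2 + β * l) (sc g l) where
  smooth := sc_smooth hg.smooth l
  supp := by
    intro z hz
    refine hg.supp _ fun h1 => hz ⟨?_, ?_⟩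
    · have := (le_div_iff₀ hl).1 h1.1
      linarith
    · have := (div_le_iff₀ hl).1 h1.2
      linarith

theorem sc_hasDerivAt {g : ℝ → ℝ} (hg : Differentiable ℝ g) (l z : ℝ) :
    HasDerivAt (sc g l) (l⁻¹ * sc (deriv g) l z) z := by
  have h1 : HasDerivAt (fun z : ℝ => (z - 1 / 2) / l) (1 / l) z :=
    ((hasDerivAt_id z).sub_const _).div_const l
  have h2 := (hg ((z - 1 / 2) / l)).hasDerivAt.comp z h1
  have e : l⁻¹ * sc (deriv g) l z = deriv g ((z - 1 / 2) / l) * (1 / l) := by
    unfold sc; rw [one_div l]; ring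
  rw [e]
  exact h2

theorem sc_deriv {g : ℝ → ℝ} (hg : Differentiable ℝ g) (l : ℝ) :
    deriv (sc g l) = fun z => l⁻¹ * sc (deriv g) l z := funext fun z => (sc_hasDerivAt hg l z).deriv

theorem iter_sc {g : ℝ → ℝ} (hg : ContDiff ℝ ∞ g) (l : ℝ) (k : ℕ) :
    iteratedDeriv k (sc g l) = fun z => (l⁻¹) ^ k * sc (iteratedDeriv k g) l z := by
  induction k generalizing g with
  | zero => funext z; simp
  | succ k ih =>
    rw [iteratedDeriv_succ', sc_deriv (hg.differentiable (by simp))]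
    funext z
    have e : iteratedDeriv k (fun z => l⁻¹ * sc (deriv g) l z) z
        = l⁻¹ * iteratedDeriv k (sc (deriv g) l) z := by
      have := iteratedDeriv_const_mul_field (n := k) (x := z) l⁻¹ (sc (deriv g) l)
      exact this
    rw [e, ih hg.deriv', ← iteratedDeriv_succ']
    rw [pow_succ]
    ring

/-! ### the smooth step -/

/-- the smooth step -/
noncomputable def st (x : ℝ) : ℝ := Real.smoothTransition x

theorem st_smooth : ContDiff ℝ ∞ st := Real.smoothTransition.contDiff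

theorem st_diff : Differentiable ℝ st := st_smooth.differentiable (by simp)

theorem st_zero {x : ℝ} (h : x ≤ 0) : st x = 0 := Real.smoothTransition.zero_of_nonpos h

theorem st_one {x : ℝ} (h : 1 ≤ x) : st x = 1 := Real.smoothTransition.one_of_one_le h

theorem st_nonneg (x : ℝ) : 0 ≤ st x := Real.smoothTransition.nonneg x

theorem st_le_one (x : ℝ) : st x ≤ 1 := Real.smoothTransition.le_one x

theorem st_mono : Monotone st := Real.smoothTransition.monotone

theorem st_deriv_nonneg (x : ℝ) : 0 ≤ deriv st x := st_mono.deriv_nonneg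

theorem exists_M1 : ∃ M : ℝ, 0 < M ∧ ∀ x, deriv st x ≤ M := by
  have h1 : SI 0 1 (deriv st) := by
    refine ⟨st_smooth.deriv', fun z hz => ?_⟩
    rcases lt_or_ge z 0 with h | h
    · have h2 : st =ᶠ[𝓝 z] fun _ => 0 := by
        filter_upwards [gt_mem_nhds h] with w hw
        exact st_zero hw.le
      rw [h2.deriv_eq, deriv_const]
    · have h3 : 1 < z := by
        by_contra h4
        exact hz ⟨h, not_lt.1 h4⟩
      have h2 : st =ᶠ[𝓝 z] fun _ => 1 := by
        filter_upwards [lt_mem_nhds h3] with w hw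
        exact st_one hw.le
      rw [h2.deriv_eq, deriv_const]
  obtain ⟨C, hC0, hC⟩ := h1.bdd
  exact ⟨C + 1, by linarith, fun x => by linarith [le_abs_self (deriv st x), hC x]⟩

/-- a bound for the derivative of the smooth step -/
noncomputable def M1 : ℝ := exists_M1.choose

theorem M1_pos : 0 < M1 := exists_M1.choose_spec.1

theorem M1_le (x : ℝ) : deriv st x ≤ M1 := exists_M1.choose_spec.2 x

end Pool.Agent.V1183.LM
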