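import Pool.Agent.V1183.LM.Uniq3

/-!
Conservation of energy and helicity for the modified equations.
-/

open Set Filter Topology MeasureTheory
open scoped ContDiff ENNReal

set_option autoImplicit false

namespace Pool.Agent.V1183.LM

open H459R3.NS Pool.Agent.V1178.NS

variable {β δ r T : ℝ} {K : (V → V) → V → V} {u : ℝ → V → V} {p : ℝ → V → ℝ}

/-- the time derivative -/
noncomputable def rh (K : (V → V) → V → V) (v : V → V) (q : V → ℝ) (x : V) : V :=
  fun i => rhs K v q i x

theorem rh_sv (hK : Smo β δ r K) {u : V → V} (hu : SV u) {p : V → ℝ} (hp : SP p) :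
    SV (rh K u p) := by
  intro i
  have h1 : SP (fun x => -1 * (∑ j, u x j * pd j (fun y => u y i) x)) :=
    sp_cmul (SP.sum fun j _ => (hu j).mul ((hu i).pd j)) (-1)
  refine sp_congr (sp_sub (sp_sub h1 (hp.pd i)) (cross_sv (curl_sv hu) (K_sv hK hu) i))
    fun x => ?_
  show rhs K u p i x = _
  unfold rhs
  ring

theorem dot_fix (h : LSol T K u p) {z : V → V} (hz : SV z) {t : ℝ} (ht : t ∈ Ioo 0 T) :
    HasDerivAt (fun s => dot (u s) z) (dot (rh K (u t) (p t)) z) t := by
  have h1 : ∀ i, HasDerivAt (fun s => ∫ x in cube, u s x i * z x i)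
      (∫ x in cube, rh K (u t) (p t) x i * z x i) t := by
    intro i
    have hF : ContDiffOn ℝ 1 (fun y : ℝ × V => u y.1 y.2 i * z y.2 i) (Ioo 0 T ×ˢ univ) :=
      (mono_Ioo (f := fun s y => u s y i) (h.smooth_c i) (by norm_cast)).mul
        (((hz i).smooth.of_le (by norm_cast)).comp contDiff_snd).contDiffOn
    refine (hasDerivAt_int (F := fun s x => u s x i * z x i) hF ht).congr_deriv ?_
    congr 1
    funext x
    exact ((slice_dt h ht i x).mul_const (z x i)).deriv
  exact HasDerivAt.fun_sum fun i (_ : i ∈ Finset.univ) => h1 i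

theorem En_fix (h : LSol T K u p) {c : V → V} (hc : SV c) {t : ℝ} (ht : t ∈ Ioo 0 T) :
    HasDerivAt (fun s => En (fun x => u s x - c x))
      (∑ i, ∫ x in cube, 2 * ((u t x i - c x i) * rh K (u t) (p t) x i)) t := by
  have h1 : ∀ i, HasDerivAt (fun s => ∫ x in cube, (u s x i - c x i) * (u s x i - c x i))
      (∫ x in cube, 2 * ((u t x i - c x i) * rh K (u t) (p t) x i)) t := by
    intro i
    have hD : ContDiffOn ℝ 1 (fun z : ℝ × V => u z.1 z.2 i - c z.2 i) (Ioo 0 T ×ˢ univ) :=
      (mono_Ioo (f := fun s y => u s y i) (h.smooth_c i) (by norm_cast)).sub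
        (((hc i).smooth.of_le (by norm_cast)).comp contDiff_snd).contDiffOn
    refine (hasDerivAt_int (F := fun s x => (u s x i - c x i) * (u s x i - c x i))
      (hD.mul hD) ht).congr_deriv ?_
    congr 1
    funext x
    have h2 := (slice_dt h ht i x).sub_const (c x i)
    have h3 : HasDerivAt (fun s => (u s x i - c x i) * (u s x i - c x i))
        (rhs K (u t) (p t) i x * (u t x i - c x i)
          + (u t x i - c x i) * rhs K (u t) (p t) i x) t := h2.mul h2
    rw [h3.deriv]
    show _ = 2 * ((u t x i - c x i) * rhs K (u t) (p t) i x)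
    ring
  exact HasDerivAt.fun_sum fun i (_ : i ∈ Finset.univ) => h1 i

theorem K_quad (hK : Smo β δ r K) {w : V → V} (hw : SV w) (hδ : 0 ≤ δ) :
    |dot (K w) w| ≤ δ * En w := by
  have h2 := hK.bound 2 2 (by rw [ENNReal.inv_two_add_inv_two]) w w (toSPV hw) (toSPV hw)
  have h3 := int_sq_le hw
  rw [← Np_two_sq hw.cont] at h3
  calc _ ≤ δ * (Np 2 w * Np 2 w) := h2
    _ = δ * Np 2 w ^ 2 := by ring
    _ ≤ _ := by gcongr

/-- expansion of the quadratic form -/
theorem K_expand (hK : Smo β δ r K) {u c : V → V} (hu : SV u) (hc : SV c) :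
    dot (K u) u = 2 * dot u (K c) - dot (K c) c
      + dot (K (fun x => u x - c x)) (fun x => u x - c x) := by
  have hw : SV (fun x => u x - c x) := fun i => sp_sub (hu i) (hc i)
  have hKc := K_sv hK hc
  have hKu := K_sv hK hu
  have e1 : (fun x => u x - c x) = (-1 : ℝ) • c + u := by funext x; simp [sub_eq_neg_add]
  have e2 : (fun x => K u x - K c x) = (-1 : ℝ) • K c + K u := by
    funext x; simp [sub_eq_neg_add]
  rw [K_sub hK hu hc, e2, dot_add_left hKc hKu hw, e1, dot_add_right hc hu hKc,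
    dot_add_right hc hu hKu, hK.symm u c (toSPV hu) (toSPV hc), dot_comm (K c) u]
  ring

theorem K_deriv (hK : Smo β δ r K) (hδ : 0 ≤ δ) (h : LSol T K u p) {t : ℝ} (ht : t ∈ Ioo 0 T) :
    HasDerivAt (fun s => dot (K (u s)) (u s)) (2 * dot (rh K (u t) (p t)) (K (u t))) t := by
  have hI : t ∈ Ico 0 T := ⟨ht.1.le, ht.2⟩
  have hc := h.sv hI
  have hKc := K_sv hK hc
  have h1 := (dot_fix h hKc ht).const_mul 2
  have h2 := En_fix h hc ht
  have e0 : (∑ i, ∫ x in cube, 2 * ((u t x i - u t x i) * rh K (u t) (p t) x i)) = 0 := by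
    simp
  rw [e0] at h2
  have hR : HasDerivAt (fun s => dot (K (fun x => u s x - u t x)) (fun x => u s x - u t x)) 0 t := by
    have hE0 : En (fun x => u t x - u t x) = 0 := by
      unfold En; simp
    have hR0 : dot (K (fun x => u t x - u t x)) (fun x => u t x - u t x) = 0 := by
      unfold dot; simp
    rw [hasDerivAt_iff_isLittleO] at h2 ⊢
    simp only [hE0, hR0, sub_zero, smul_zero] at h2 ⊢
    refine Asymptotics.IsBigO.trans_isLittleO ?_ h2
    refine Asymptotics.IsBigO.of_bound δ ?_
    filter_upwards [Ioo_mem_nhds ht.1 ht.2] with s hs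
    have hs2 : SV (fun x => u s x - u t x) := fun i =>
      sp_sub (h.sv ⟨hs.1.le, hs.2⟩ i) (hc i)
    rw [Real.norm_eq_abs, Real.norm_eq_abs, abs_of_nonneg (En_nonneg _)]
    exact K_quad hK hs2 hδ
  have h3 := (h1.sub_const (dot (K (u t)) (u t))).add hR
  rw [add_zero] at h3
  refine h3.congr_of_eventuallyEq ?_
  filter_upwards [Ioo_mem_nhds ht.1 ht.2] with s hs
  exact K_expand hK (h.sv ⟨hs.1.le, hs.2⟩) hc

/-- the time derivative in Lamb's form -/
theorem lamb (hK : Smo β δ r K) {u : V → V} (hu : SV u) {p : V → ℝ} (hp : SP p) (x : V) (i : Fin 3) :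
    rhs K u p i x = -crossProduct (curl u x) (u x + K u x) i
      - pd i (fun y => p y + 1 / 2 * ∑ j, u y j * u y j) x := by
  have hq : SP (fun y => ∑ j, u y j * u y j) := SP.sum fun j _ => (hu j).mul (hu j)
  have e1 : pd i (fun y => p y + 1 / 2 * ∑ j, u y j * u y j) x
      = pd i p x + ∑ j, u x j * pd i (fun y => u y j) x := by
    have h1 : pd i (fun y => p y + 1 / 2 * ∑ j, u y j * u y j) x
        = pd i p x + pd i (fun y => 1 / 2 * ∑ j, u y j * u y j) x := by
      unfold pd
      have := ((hp.diff x).hasFDerivAt.add ((sp_cmul hq (1 / 2)).diff x).hasFDerivAt).fderiv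
      have e2 : fderiv ℝ (fun y => p y + 1 / 2 * ∑ j, u y j * u y j) x = _ := this
      rw [e2]
      rfl
    rw [h1, pd_cmul hq, pd_sum (fun j _ => (hu j).mul (hu j)), Finset.mul_sum]
    congr 1
    refine Finset.sum_congr rfl fun j _ => ?_
    rw [pd_mul (hu j) (hu j)]
    ring
  rw [e1]
  unfold rhs
  have e3 : ∀ k, (u x + K u x) k = u x k + K u x k := fun k => rfl
  unfold curl
  fin_cases i
  · show -(∑ j, u x j * pd j (fun y => u y 0) x) - pd 0 p x - crossProduct _ (K u x) 0
      = -crossProduct _ (u x + K u x) 0 - (pd 0 p x + ∑ j, u x j * pd 0 (fun y => u y j) x)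
    rw [cross0, cross0, Fin.sum_univ_three, Fin.sum_univ_three]
    simp only [e3, Matrix.cons_val_zero, Matrix.cons_val_one, Matrix.cons_val]
    ring
  · show -(∑ j, u x j * pd j (fun y => u y 1) x) - pd 1 p x - crossProduct _ (K u x) 1
      = -crossProduct _ (u x + K u x) 1 - (pd 1 p x + ∑ j, u x j * pd 1 (fun y => u y j) x)
    rw [cross1, cross1, Fin.sum_univ_three, Fin.sum_univ_three]
    simp only [e3, Matrix.cons_val_zero, Matrix.cons_val_one, Matrix.cons_val]
    ring
  · show -(∑ j, u x j * pd j (fun y => u y 2) x) - pd 2 p x - crossProduct _ (K u x) 2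
      = -crossProduct _ (u x + K u x) 2 - (pd 2 p x + ∑ j, u x j * pd 2 (fun y => u y j) x)
    rw [cross2, cross2, Fin.sum_univ_three, Fin.sum_univ_three]
    simp only [e3, Matrix.cons_val_zero, Matrix.cons_val_one, Matrix.cons_val]
    ring

/-- the time derivative is orthogonal to divergence-free fields `z` with `curl u × (u + K u)`
orthogonal to `z` -/
theorem rh_dot (hK : Smo β δ r K) {u : V → V} (hu : SV u) {p : V → ℝ} (hp : SP p) {z : V → V}
    (hz : SV z) (dz : ∀ x, ∑ i, pd i (fun y => z y i) x = 0)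
    (ho : ∀ x, ∑ i, crossProduct (curl u x) (u x + K u x) i * z x i = 0) :
    dot (rh K u p) z = 0 := by
  have hq : SP (fun y => p y + 1 / 2 * ∑ j, u y j * u y j) :=
    hp.add (sp_cmul (SP.sum fun j _ => (hu j).mul (hu j)) _)
  have huK : SV (fun x => u x + K u x) := fun i => (hu i).add (K_sv hK hu i)
  have hX := cross_sv (curl_sv hu) huK
  have h1 : dot (rh K u p) z = ∫ x in cube, (-(∑ i, crossProduct (curl u x) (u x + K u x) i * z x i)
      - ∑ i, z x i * pd i (fun y => p y + 1 / 2 * ∑ j, u y j * u y j) x) := by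
    unfold dot
    rw [← integral_finsetSum _ fun i _ => ((rh_sv hK hu hp i).mul (hz i)).int]
    congr 1
    funext x
    rw [← Finset.sum_neg_distrib, ← Finset.sum_sub_distrib]
    refine Finset.sum_congr rfl fun i _ => ?_
    show rhs K u p i x * z x i = _
    rw [lamb hK hu hp]
    ring
  rw [h1]
  simp_rw [ho, neg_zero, zero_sub]
  rw [integral_neg, integral_finsetSum _ fun i _ => ((hz i).mul (hq.pd i)).int]
  rw [int_press (v := fun i y => z y i) (fun i => hz i) dz hq, neg_zero]

/-- conservation of energy -/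
theorem energy_deriv (hK : Smo β δ r K) (hδ : 0 ≤ δ) (h : LSol T K u p) {t : ℝ}
    (ht : t ∈ Ioo 0 T) : HasDerivAt (fun s => dot (u s) (u s) + dot (K (u s)) (u s)) 0 t := by
  have hI : t ∈ Ico 0 T := ⟨ht.1.le, ht.2⟩
  have hu := h.sv hI
  have hKu := K_sv hK hu
  have hrh := rh_sv hK hu (h.sp_p hI)
  have h1 : HasDerivAt (fun s => dot (u s) (u s)) (2 * dot (rh K (u t) (p t)) (u t)) t := by
    have h2 := En_fix h (c := fun _ => 0) (fun i => sp_const 0) ht
    have e1 : ∀ s, En (fun x => u s x - (fun _ => (0 : V)) x) = dot (u s) (u s) := by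
      intro s
      unfold En dot
      simp
    simp_rw [e1] at h2
    refine h2.congr_deriv ?_
    unfold dot
    rw [Finset.mul_sum]
    refine Finset.sum_congr rfl fun i _ => ?_
    rw [← integral_const_mul]
    congr 1
    funext x
    show 2 * ((u t x i - 0) * _) = _
    ring
  have h2 := h1.add (K_deriv hK hδ h ht)
  refine h2.congr_deriv ?_
  have hz : SV (fun x => u t x + K (u t) x) := fun i => (hu i).add (hKu i)
  have h3 := rh_dot hK hu (h.sp_p hI) hz (fun x => ?_) (fun x => ?_)
  · have e : (fun x => u t x + K (u t) x) = (1 : ℝ) • u t + K (u t) := by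
      rw [one_smul]; rfl
    rw [e, dot_add_right hu hKu hrh, one_mul] at h3
    linarith
  · have e : ∀ i, pd i (fun y => (u t y + K (u t) y) i) x
        = pd i (fun y => u t y i) x + pd i (fun y => K (u t) y i) x := by
      intro i
      unfold pd
      have := (((hu i).diff x).hasFDerivAt.add ((hKu i).diff x).hasFDerivAt).fderiv
      have e2 : fderiv ℝ (fun y => (u t y + K (u t) y) i) x = _ := this
      rw [e2]
      rfl
    simp_rw [e]
    rw [Finset.sum_add_distrib, h.divfree t hI, hK.divfree _ (toSPV hu), add_zero]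
  · rw [Fin.sum_univ_three, cross0, cross1, cross2]
    ring

end Pool.Agent.V1183.LM
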