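import Pool.Agent.V1178.NS.Stmt

/-!
The Euler equations with a modified transport velocity: definitions.
-/

open MeasureTheory Set
open scoped ContDiff ENNReal

set_option autoImplicit false

namespace Pool.Agent.V1183.LM

open H459R3.NS Pool.Agent.V1178.NS

/-- The `r`-neighbourhood (in the maximum norm of the first two coordinates) of the lines
`{1/2} × {1/2} × ℝ + ℤ³`. -/
def Tube (r : ℝ) : Set V := {x | |Int.fract (x 0) - 1 / 2| < r ∧ |Int.fract (x 1) - 1 / 2| < r}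

/-- The operator `K`, acting on smooth periodic vector fields: it is linear, symmetric, has
divergence-free values, is local to the tube, is bounded in all `L^p` with norm `≤ δ` (`bound`), and
is of order `-β`: it satisfies `‖∂ⱼ K v‖_p ≤ δ ‖v‖_p ^ β * ‖∇ v‖_p ^ (1 - β)`, written in dual form
(`order`). -/
structure Smo (β δ r : ℝ) (K : (V → V) → V → V) : Prop where
  smooth : ∀ v, SPV v → SPV (K v)
  divfree : ∀ v, SPV v → ∀ x, ∑ i, pd i (fun y => K v y i) x = 0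
  linear : ∀ (c : ℝ) (u v : V → V), SPV u → SPV v → K (c • u + v) = c • K u + K v
  symm : ∀ v w, SPV v → SPV w → dot (K v) w = dot v (K w)
  bound : ∀ p q : ℝ≥0∞, p⁻¹ + q⁻¹ = 1 → ∀ v w, SPV v → SPV w →
    |dot (K v) w| ≤ δ * (Np p v * Np q w)
  order : ∀ p q : ℝ≥0∞, p⁻¹ + q⁻¹ = 1 → ∀ v w, SPV v → SPV w → ∀ j,
    |dot (fun x i => pd j (fun y => K v y i) x) w|
      ≤ δ * (Np p v ^ β * Np p (fderiv ℝ v) ^ (1 - β) * Np q w)
  loc : ∀ v w, SPV v → SPV w → (∀ x ∈ Tube r, v x = w x) → K v = K w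
  supp : ∀ v, SPV v → ∀ x ∉ Tube r, K v x = 0

/-- The curl of `v`. -/
noncomputable def curl (v : V → V) (x : V) : V :=
  ![pd 1 (fun y => v y 2) x - pd 2 (fun y => v y 1) x,
    pd 2 (fun y => v y 0) x - pd 0 (fun y => v y 2) x,
    pd 0 (fun y => v y 1) x - pd 1 (fun y => v y 0) x]

/-- `(u, p)` is a smooth `1`-periodic solution on the time interval `[0, T)` of
`∂ₜ u + (u · ∇) u + ∇ p + (curl u) × (K u) = 0`, `div u = 0`. -/
structure LSol (T : ℝ) (K : (V → V) → V → V) (u : ℝ → V → V) (p : ℝ → V → ℝ) : Prop where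
  smooth_u : ContDiffOn ℝ ∞ (fun z : ℝ × V => u z.1 z.2) (Ico 0 T ×ˢ univ)
  smooth_p : ContDiffOn ℝ ∞ (fun z : ℝ × V => p z.1 z.2) (Ico 0 T ×ˢ univ)
  per_u : ∀ t ∈ Ico 0 T, Per (u t)
  per_p : ∀ t ∈ Ico 0 T, Per (p t)
  divfree : ∀ t ∈ Ico 0 T, ∀ x, ∑ i, pd i (fun y => u t y i) x = 0
  momentum : ∀ t ∈ Ioo 0 T, ∀ x i,
    deriv (fun s => u s x i) t + ∑ j, u t x j * pd j (fun y => u t y i) x + pd i (p t) x
      + crossProduct (curl (u t) x) (K (u t) x) i = 0

end Pool.Agent.V1183.LM
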