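import Pool.Agent.V1183.LM.Atoms
import Pool.Agent.V1183.LM.Stm

/-!
The fields `E n`, `H n`.
-/

open Set Filter Topology MeasureTheory
open scoped ContDiff ENNReal

set_option autoImplicit false

namespace Pool.Agent.V1183.LM

open H459R3.NS Pool.Agent.V1178.NS

namespace Dat

variable (d : Dat)

/-- the field for the measurement -/
noncomputable def E (n : ℕ) (x : V) : V :=
  ![0, 0, (d.l n)⁻¹ ^ 2 * Qf d ph1 ph2 0 0 n x]

/-- the strain field -/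
noncomputable def H (n : ℕ) (x : V) : V :=
  ![-(d.l n ^ 2) * Qf d (fA d.a) (fB d.N) 0 1 n x, d.l n ^ 2 * Qf d (fA d.a) (fB d.N) 1 0 n x, 0]

variable {d}

theorem Ok.pairE (hd : d.Ok) : Pair d ph1 ph2 where
  f := ph1_SI.mono (by linarith [N_pos (d := d)]) (by linarith [hd.N50])
  g := ph2_SI.mono (by linarith [hd.N50, kap_le]) (by linarith [hd.N50, kap_le])

theorem Ok.pairH (hd : d.Ok) : Pair d (fA d.a) (fB d.N) where
  f := fA_SI hd.a0
  g := fB_SI N_pos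

/-- the common constant -/
theorem Ok.exC (hd : d.Ok) : ∃ C : ℝ, 1 ≤ C ∧ ∀ i ≤ 2,
    ((∀ z, |iteratedDeriv i ph1 z| ≤ C) ∧ ∀ z, |iteratedDeriv i ph2 z| ≤ C) ∧
    ((∀ z, |iteratedDeriv i (fA d.a) z| ≤ C) ∧ ∀ z, |iteratedDeriv i (fB d.N) z| ≤ C) := by
  obtain ⟨C, hC1, hC⟩ := hd.pairE.consts 2
  obtain ⟨D, hD1, hD⟩ := hd.pairH.consts 2
  refine ⟨C + D, by linarith, fun i hi => ⟨⟨fun z => ?_, fun z => ?_⟩, fun z => ?_, fun z => ?_⟩⟩
  · exact ((hC i hi).1 z).trans (by linarith)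
  · exact ((hC i hi).2 z).trans (by linarith)
  · exact ((hD i hi).1 z).trans (by linarith)
  · exact ((hD i hi).2 z).trans (by linarith)

/-- the common constant -/
noncomputable def Ok.C (hd : d.Ok) : ℝ := hd.exC.choose

theorem Ok.C1 (hd : d.Ok) : 1 ≤ hd.C := hd.exC.choose_spec.1

theorem Ok.Cs (hd : d.Ok) : ∀ i ≤ 2,
    ((∀ z, |iteratedDeriv i ph1 z| ≤ hd.C) ∧ ∀ z, |iteratedDeriv i ph2 z| ≤ hd.C) ∧
    ((∀ z, |iteratedDeriv i (fA d.a) z| ≤ hd.C) ∧ ∀ z, |iteratedDeriv i (fB d.N) z| ≤ hd.C) :=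
  hd.exC.choose_spec.2

/-- the size of the building blocks -/
noncomputable def Ok.X (hd : d.Ok) (n : ℕ) : ℝ := 2 ^ (n + 1) * (hd.C * hd.C)

theorem Ok.X_pos (hd : d.Ok) (n : ℕ) : 0 < hd.X n := by
  have := hd.C1
  unfold Ok.X; positivity

theorem Ok.QE_le (hd : d.Ok) {i j : ℕ} (hi : i ≤ 2) (hj : j ≤ 2) (n : ℕ) (x : V) :
    |Qf d ph1 ph2 i j n x| ≤ ((d.l n)⁻¹) ^ (i + j) * hd.X n := by
  refine (hd.pairE.Q_le hd (hd.Cs i hi).1.1 (hd.Cs j hj).1.2 (by linarith [hd.C1]) n x).trans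
    (le_of_eq ?_)
  unfold Ok.X; ring

theorem Ok.QH_le (hd : d.Ok) {i j : ℕ} (hi : i ≤ 2) (hj : j ≤ 2) (n : ℕ) (x : V) :
    |Qf d (fA d.a) (fB d.N) i j n x| ≤ ((d.l n)⁻¹) ^ (i + j) * hd.X n := by
  refine (hd.pairH.Q_le hd (hd.Cs i hi).2.1 (hd.Cs j hj).2.2 (by linarith [hd.C1]) n x).trans
    (le_of_eq ?_)
  unfold Ok.X; ring

theorem Ok.E_SV (hd : d.Ok) (n : ℕ) : SV (d.E n) := by
  intro i
  fin_cases i
  · exact sp_const 0
  · exact sp_const 0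
  · exact sp_cmul (hd.pairE.sp hd 0 0 n) _

theorem Ok.H_SV (hd : d.Ok) (n : ℕ) : SV (d.H n) := by
  intro i
  fin_cases i
  · exact sp_cmul (hd.pairH.sp hd 0 1 n) _
  · exact sp_cmul (hd.pairH.sp hd 1 0 n) _
  · exact sp_const 0

theorem Ok.E_FB (hd : d.Ok) : FB d.L d.E where
  sv := hd.E_SV
  pb := by
    intro i
    fin_cases i
    · exact (Pol.const 0).PB
    · exact (Pol.const 0).PB
    · exact ((hd.pol_l_inv.pow 2).PB).mul hd.L1 (hd.pairE.pbQ hd 0 0)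

theorem Ok.H_FB (hd : d.Ok) : FB d.L d.H where
  sv := hd.H_SV
  pb := by
    intro i
    have hp : Pol d.L (fun n => -(d.l n ^ 2)) := by
      refine (hd.pol_l.pow 2).of_le fun n => ?_
      rw [abs_neg]
    fin_cases i
    · exact (hp.PB).mul hd.L1 (hd.pairH.pbQ hd 0 1)
    · exact ((hd.pol_l.pow 2).PB).mul hd.L1 (hd.pairH.pbQ hd 1 0)
    · exact (Pol.const 0).PB

theorem Ok.E_zero (hd : d.Ok) {n : ℕ} {x : V} (hx : x ∉ Kn d n) : d.E n x = 0 := by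
  unfold Dat.E
  rw [hd.pairE.Q_zero hd hx]
  ext i
  fin_cases i <;> simp

theorem Ok.H_zero (hd : d.Ok) {n : ℕ} {x : V} (hx : x ∉ Kn d n) : d.H n x = 0 := by
  unfold Dat.H
  rw [hd.pairH.Q_zero hd hx, hd.pairH.Q_zero hd hx]
  ext i
  fin_cases i <;> simp

theorem Ok.E_le (hd : d.Ok) (n : ℕ) (i : Fin 3) (x : V) :
    |d.E n x i| ≤ (d.l n)⁻¹ ^ 2 * hd.X n := by
  have hl := hd.l_pos n
  have hX := hd.X_pos n
  have h0 : 0 ≤ (d.l n)⁻¹ ^ 2 * hd.X n := by positivity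
  fin_cases i
  · show |(0 : ℝ)| ≤ _
    rwa [abs_zero]
  · show |(0 : ℝ)| ≤ _
    rwa [abs_zero]
  · show |(d.l n)⁻¹ ^ 2 * Qf d ph1 ph2 0 0 n x| ≤ _
    rw [abs_mul, abs_of_pos (by positivity : 0 < (d.l n)⁻¹ ^ 2)]
    have := hd.QE_le (i := 0) (j := 0) (by norm_num) (by norm_num) n x
    rw [add_zero, pow_zero, one_mul] at this
    gcongr

theorem Ok.H_le (hd : d.Ok) (n : ℕ) (i : Fin 3) (x : V) :
    |d.H n x i| ≤ d.l n * hd.X n := by
  have hl := hd.l_pos n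
  have hX := hd.X_pos n
  have h0 : 0 ≤ d.l n * hd.X n := by positivity
  fin_cases i
  · show |-(d.l n ^ 2) * Qf d (fA d.a) (fB d.N) 0 1 n x| ≤ _
    rw [abs_mul, abs_neg, abs_of_pos (by positivity : 0 < d.l n ^ 2)]
    have : |Qf d (fA d.a) (fB d.N) 0 1 n x| ≤ (d.l n)⁻¹ ^ 1 * hd.X n :=
      hd.QH_le (i := 0) (j := 1) (by norm_num) (by norm_num) n x
    calc d.l n ^ 2 * |Qf d (fA d.a) (fB d.N) 0 1 n x|
        ≤ d.l n ^ 2 * ((d.l n)⁻¹ ^ 1 * hd.X n) := by gcongr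
      _ = d.l n * hd.X n := by field_simp
  · show |d.l n ^ 2 * Qf d (fA d.a) (fB d.N) 1 0 n x| ≤ _
    rw [abs_mul, abs_of_pos (by positivity : 0 < d.l n ^ 2)]
    have : |Qf d (fA d.a) (fB d.N) 1 0 n x| ≤ (d.l n)⁻¹ ^ 1 * hd.X n :=
      hd.QH_le (i := 1) (j := 0) (by norm_num) (by norm_num) n x
    calc d.l n ^ 2 * |Qf d (fA d.a) (fB d.N) 1 0 n x|
        ≤ d.l n ^ 2 * ((d.l n)⁻¹ ^ 1 * hd.X n) := by gcongr
      _ = d.l n * hd.X n := by field_simp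
  · show |(0 : ℝ)| ≤ _
    rwa [abs_zero]

theorem pd_const0 (j : Fin 3) (x : V) : pd j (fun _ : V => (0 : ℝ)) x = 0 := by
  unfold pd
  simp

theorem Ok.dE_le (hd : d.Ok) (n : ℕ) (j i : Fin 3) (x : V) :
    |pd j (fun y => d.E n y i) x| ≤ (d.l n)⁻¹ ^ 3 * hd.X n := by
  have hl := hd.l_pos n
  have hX := hd.X_pos n
  have h0 : 0 ≤ (d.l n)⁻¹ ^ 3 * hd.X n := by positivity
  have z : |pd j (fun _ : V => (0 : ℝ)) x| ≤ (d.l n)⁻¹ ^ 3 * hd.X n := by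
    rwa [pd_const0, abs_zero]
  fin_cases i
  · exact z
  · exact z
  · show |pd j (fun y => (d.l n)⁻¹ ^ 2 * Qf d ph1 ph2 0 0 n y) x| ≤ _
    rw [pd_cmul (hd.pairE.sp hd 0 0 n), abs_mul, abs_of_pos (by positivity : 0 < (d.l n)⁻¹ ^ 2)]
    have key : |pd j (Qf d ph1 ph2 0 0 n) x| ≤ (d.l n)⁻¹ ^ 1 * hd.X n := by
      fin_cases j
      · have := hd.QE_le (i := 1) (j := 0) (by norm_num) (by norm_num) n x
        show |pd 0 (Qf d ph1 ph2 0 0 n) x| ≤ _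
        rw [hd.pairE.pd0 hd]
        exact this
      · have := hd.QE_le (i := 0) (j := 1) (by norm_num) (by norm_num) n x
        show |pd 1 (Qf d ph1 ph2 0 0 n) x| ≤ _
        rw [hd.pairE.pd1 hd]
        exact this
      · show |pd 2 (Qf d ph1 ph2 0 0 n) x| ≤ _
        rw [hd.pairE.pd2 hd, abs_zero]
        positivity
    calc (d.l n)⁻¹ ^ 2 * |pd j (Qf d ph1 ph2 0 0 n) x|
        ≤ (d.l n)⁻¹ ^ 2 * ((d.l n)⁻¹ ^ 1 * hd.X n) := by gcongr
      _ = _ := by ring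

theorem Ok.dQH (hd : d.Ok) {i j : ℕ} (hi : i ≤ 1) (hj : j ≤ 1) (n : ℕ) (k : Fin 3) (x : V) :
    |pd k (Qf d (fA d.a) (fB d.N) i j n) x| ≤ (d.l n)⁻¹ ^ (i + j + 1) * hd.X n := by
  have hl := hd.l_pos n
  have hX := hd.X_pos n
  fin_cases k
  · show |pd 0 (Qf d (fA d.a) (fB d.N) i j n) x| ≤ _
    rw [hd.pairH.pd0 hd, show i + j + 1 = i + 1 + j by ring]
    exact hd.QH_le (by omega) (by omega) n x
  · show |pd 1 (Qf d (fA d.a) (fB d.N) i j n) x| ≤ _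
    rw [hd.pairH.pd1 hd]
    exact hd.QH_le (by omega) (by omega) n x
  · show |pd 2 (Qf d (fA d.a) (fB d.N) i j n) x| ≤ _
    rw [hd.pairH.pd2 hd, abs_zero]
    positivity

theorem Ok.dH_le (hd : d.Ok) (n : ℕ) (j i : Fin 3) (x : V) :
    |pd j (fun y => d.H n y i) x| ≤ hd.X n := by
  have hl := hd.l_pos n
  have hX := hd.X_pos n
  fin_cases i
  · show |pd j (fun y => -(d.l n ^ 2) * Qf d (fA d.a) (fB d.N) 0 1 n y) x| ≤ _
    rw [pd_cmul (hd.pairH.sp hd 0 1 n), abs_mul, abs_neg, abs_of_pos (by positivity : 0 < d.l n ^ 2)]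
    have : |pd j (Qf d (fA d.a) (fB d.N) 0 1 n) x| ≤ (d.l n)⁻¹ ^ 2 * hd.X n :=
      hd.dQH (i := 0) (j := 1) (by norm_num) (by norm_num) n j x
    calc d.l n ^ 2 * |pd j (Qf d (fA d.a) (fB d.N) 0 1 n) x|
        ≤ d.l n ^ 2 * ((d.l n)⁻¹ ^ 2 * hd.X n) := by gcongr
      _ = hd.X n := by field_simp
  · show |pd j (fun y => d.l n ^ 2 * Qf d (fA d.a) (fB d.N) 1 0 n y) x| ≤ _
    rw [pd_cmul (hd.pairH.sp hd 1 0 n), abs_mul, abs_of_pos (by positivity : 0 < d.l n ^ 2)]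
    have : |pd j (Qf d (fA d.a) (fB d.N) 1 0 n) x| ≤ (d.l n)⁻¹ ^ 2 * hd.X n :=
      hd.dQH (i := 1) (j := 0) (by norm_num) (by norm_num) n j x
    calc d.l n ^ 2 * |pd j (Qf d (fA d.a) (fB d.N) 1 0 n) x|
        ≤ d.l n ^ 2 * ((d.l n)⁻¹ ^ 2 * hd.X n) := by gcongr
      _ = hd.X n := by field_simp
  · show |pd j (fun _ : V => (0 : ℝ)) x| ≤ _
    rw [pd_const0, abs_zero]
    exact hX.le

theorem Ok.E_div (hd : d.Ok) (n : ℕ) (x : V) : ∑ i, pd i (fun y => d.E n y i) x = 0 := by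
  rw [Fin.sum_univ_three]
  have e0 : pd 0 (fun y => d.E n y 0) x = 0 := pd_const0 0 x
  have e1 : pd 1 (fun y => d.E n y 1) x = 0 := pd_const0 1 x
  have e2 : pd 2 (fun y => d.E n y 2) x = 0 := by
    show pd 2 (fun y => (d.l n)⁻¹ ^ 2 * Qf d ph1 ph2 0 0 n y) x = 0
    rw [pd_cmul (hd.pairE.sp hd 0 0 n), hd.pairE.pd2 hd, mul_zero]
  rw [e0, e1, e2]
  norm_num

theorem Ok.H_div (hd : d.Ok) (n : ℕ) (x : V) : ∑ i, pd i (fun y => d.H n y i) x = 0 := by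
  rw [Fin.sum_univ_three]
  have e0 : pd 0 (fun y => d.H n y 0) x = -(d.l n ^ 2) * Qf d (fA d.a) (fB d.N) 1 1 n x := by
    show pd 0 (fun y => -(d.l n ^ 2) * Qf d (fA d.a) (fB d.N) 0 1 n y) x = _
    rw [pd_cmul (hd.pairH.sp hd 0 1 n), hd.pairH.pd0 hd]
  have e1 : pd 1 (fun y => d.H n y 1) x = (d.l n ^ 2) * Qf d (fA d.a) (fB d.N) 1 1 n x := by
    show pd 1 (fun y => (d.l n ^ 2) * Qf d (fA d.a) (fB d.N) 1 0 n y) x = _
    rw [pd_cmul (hd.pairH.sp hd 1 0 n), hd.pairH.pd1 hd]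
  have e2 : pd 2 (fun y => d.H n y 2) x = 0 := pd_const0 2 x
  rw [e0, e1, e2]
  ring

/-! ### the functionals -/

theorem dotE {v : V → V} (n : ℕ) :
    dot v (d.E n) = ((d.l n)⁻¹) ^ 2 * ∫ x in cube, v x 2 * Pf d ph1 ph2 0 n x := by
  unfold dot
  rw [Fin.sum_univ_three]
  have e0 : ∫ x in cube, v x 0 * d.E n x 0 = 0 := by
    have : ∀ x, v x 0 * d.E n x 0 = 0 := fun x => by
      show v x 0 * 0 = 0
      rw [mul_zero]
    simp_rw [this]; simp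
  have e1 : ∫ x in cube, v x 1 * d.E n x 1 = 0 := by
    have : ∀ x, v x 1 * d.E n x 1 = 0 := fun x => by
      show v x 1 * 0 = 0
      rw [mul_zero]
    simp_rw [this]; simp
  rw [e0, e1, zero_add, zero_add, ← integral_const_mul]
  congr 1
  funext x
  show v x 2 * ((d.l n)⁻¹ ^ 2 * Qf d ph1 ph2 0 0 n x) = _
  rw [Qf_zero]
  ring

theorem Ok.dotH (hd : d.Ok) {v : V → V} (hv : SV v) (n : ℕ) :
    dot v (d.H n) = (d.l n) ^ 2 * ∫ x in cube,
      (pd 1 (fun y => v y 0) x - pd 0 (fun y => v y 1) x) * Pf d (fA d.a) (fB d.N) 0 n x := by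
  unfold dot
  rw [Fin.sum_univ_three]
  have hp := hd.pairH
  set q := Qf d (fA d.a) (fB d.N) 0 0 n with hq
  have hqs : SP q := hp.sp hd 0 0 n
  have e0 : ∫ x in cube, v x 0 * d.H n x 0
      = d.l n ^ 2 * ∫ x in cube, pd 1 (fun y => v y 0) x * q x := by
    rw [ibp (hv 0) hqs 1, ← integral_neg, ← integral_const_mul]
    congr 1
    funext x
    show v x 0 * (-(d.l n ^ 2) * Qf d (fA d.a) (fB d.N) 0 1 n x) = _
    rw [hq, hp.pd1 hd]
    ring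
  have e1 : ∫ x in cube, v x 1 * d.H n x 1
      = -(d.l n ^ 2 * ∫ x in cube, pd 0 (fun y => v y 1) x * q x) := by
    rw [ibp (hv 1) hqs 0, mul_neg, neg_neg, ← integral_const_mul]
    congr 1
    funext x
    show v x 1 * (d.l n ^ 2 * Qf d (fA d.a) (fB d.N) 1 0 n x) = _
    rw [hq, hp.pd0 hd]
    ring
  have e2 : ∫ x in cube, v x 2 * d.H n x 2 = 0 := by
    have : ∀ x, v x 2 * d.H n x 2 = 0 := fun x => by
      show v x 2 * 0 = 0
      rw [mul_zero]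
    simp_rw [this]; simp
  rw [e0, e1, e2, add_zero, ← sub_eq_add_neg, ← mul_sub, ← integral_sub
    (((hv 0).pd 1).mul hqs).int (((hv 1).pd 0).mul hqs).int]
  congr 2
  funext x
  rw [← Qf_zero]
  ring

/-- moving derivatives -/
theorem move {f g : ℝ → ℝ} (hp : Pair d f g) (hd : d.Ok) (n : ℕ) :
    ∀ j ≤ n + 1, ∀ {v : V → ℝ}, SP v →
      SP ((pd 0)^[j] v) ∧
      ∫ x in cube, v x * Pf d f g 0 n x = ∫ x in cube, (pd 0)^[j] v x * Pf d f g j n x := by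
  intro j
  induction j with
  | zero => intro _ v hv; exact ⟨hv, rfl⟩
  | succ j ih =>
    intro hj v hv
    obtain ⟨h1, h2⟩ := ih (by omega) hv
    rw [Function.iterate_succ_apply']
    refine ⟨h1.pd 0, ?_⟩
    rw [h2, ibp h1 (hp.spP hd hj) 0, ← integral_neg]
    congr 1
    funext x
    rw [hp.pdP hd hj]
    ring

theorem decay_aux {f g : ℝ → ℝ} (hp : Pair d f g) (hd : d.Ok) {v : V → ℝ} (hv : SP v) (j : ℕ) :
    ∃ K, 0 ≤ K ∧ ∀ n, j ≤ n + 1 → |∫ x in cube, v x * Pf d f g 0 n x| ≤ K * (2 ^ n * d.l n ^ j) := by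
  obtain ⟨C, hC1, hC⟩ := hp.consts 0
  have hC0 := hC 0 le_rfl
  rw [iteratedDeriv_zero, iteratedDeriv_zero] at hC0
  have hsp : SP ((pd 0)^[j] v) := by
    clear hC0 hC
    induction j with
    | zero => exact hv
    | succ j ih => rw [Function.iterate_succ_apply']; exact ih.pd 0
  obtain ⟨M, hM0, hM⟩ := sup_SP hsp
  have hN := N_pos (d := d)
  refine ⟨M * ((3 * d.N) ^ j * 2 * (C * C)), by positivity, fun n hn => ?_⟩
  rw [(move hp hd n j hn hv).2]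
  refine int_le_cube fun x hx => ?_
  rw [abs_mul]
  have h1 := hp.P_le hd hC0.1 hC0.2 (by linarith) j n x
  have hl := hd.l_pos n
  have h2 : d.h n ^ j * 2 ^ (n + 1 - j) * (C * C)
      ≤ ((3 * d.N) ^ j * 2 * (C * C)) * (2 ^ n * d.l n ^ j) := by
    have h3 : (2 : ℝ) ^ (n + 1 - j) ≤ 2 ^ (n + 1) := by gcongr <;> [norm_num; omega]
    unfold Dat.h
    calc (3 * d.N * d.l n) ^ j * 2 ^ (n + 1 - j) * (C * C)
        ≤ (3 * d.N * d.l n) ^ j * 2 ^ (n + 1) * (C * C) := by gcongr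
      _ = _ := by rw [mul_pow, pow_succ]; ring
  calc |(pd 0)^[j] v x| * |Pf d f g j n x|
      ≤ M * (((3 * d.N) ^ j * 2 * (C * C)) * (2 ^ n * d.l n ^ j)) :=
        mul_le_mul (hM x hx) (h1.trans h2) (abs_nonneg _) hM0
    _ = _ := by ring

/-- rapid decay -/
theorem rap_aux {f g : ℝ → ℝ} (hp : Pair d f g) (hd : d.Ok) {v : V → ℝ} (hv : SP v) :
    Rap d.L (fun n => ∫ x in cube, v x * Pf d f g 0 n x) := by
  intro m
  obtain ⟨K, hK0, hK⟩ := decay_aux hp hd hv (m + 1)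
  have hρ := hd.ρ0
  set a : ℕ → ℝ := fun n => ∫ x in cube, v x * Pf d f g 0 n x with ha
  have hL : ∀ n, 0 ≤ d.L n ^ m := fun n => pow_nonneg (L_pos n).le m
  refine ⟨∑ n ∈ Finset.range m, d.L n ^ m * |a n| + K * d.ρ ^ (m + 1), fun n => ?_⟩
  have hs : 0 ≤ ∑ n ∈ Finset.range m, d.L n ^ m * |a n| :=
    Finset.sum_nonneg fun n _ => mul_nonneg (hL n) (abs_nonneg _)
  rcases Nat.lt_or_ge n m with h | h
  · have h1 : d.L n ^ m * |a n| ≤ ∑ n ∈ Finset.range m, d.L n ^ m * |a n| :=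
      Finset.single_le_sum (f := fun n => d.L n ^ m * |a n|)
        (fun n _ => mul_nonneg (hL n) (abs_nonneg _)) (Finset.mem_range.2 h)
    have : 0 ≤ K * d.ρ ^ (m + 1) := by positivity
    linarith
  · have h1 := hK n (by omega)
    have h2 := hd.two_pow n
    have h3 : d.L n ^ m * |a n| ≤ K * d.ρ ^ (m + 1) := by
      have hLn := L_pos (d := d) n
      have e : d.l n = d.ρ / d.L n := rfl
      calc d.L n ^ m * |a n| ≤ d.L n ^ m * (K * (2 ^ n * d.l n ^ (m + 1))) := by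
            have := hL n
            gcongr
        _ ≤ d.L n ^ m * (K * (d.L n * d.l n ^ (m + 1))) := by
            have := hL n
            have := hd.l_pos n
            gcongr
        _ = K * d.ρ ^ (m + 1) := by
            rw [e, div_pow, pow_succ (d.L n) m]
            field_simp
    linarith

theorem Ok.rapE (hd : d.Ok) {v : V → V} (hv : SV v) : Rap d.L (fun n => dot v (d.E n)) := by
  have h1 := (rap_aux hd.pairE hd (hv 2)).mul_pol hd.L1 (hd.pol_l_inv.pow 2)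
  have e : (fun n => dot v (d.E n)) = fun n => (∫ x in cube, v x 2 * Pf d ph1 ph2 0 n x) *
      ((d.l n)⁻¹) ^ 2 := by
    funext n; rw [dotE, mul_comm]
  rw [e]
  exact h1

theorem Ok.rapH (hd : d.Ok) {v : V → V} (hv : SV v) : Rap d.L (fun n => dot v (d.H n)) := by
  have h1 := (rap_aux hd.pairH hd (sp_sub ((hv 0).pd 1) ((hv 1).pd 0))).mul_pol hd.L1
    (hd.pol_l.pow 2)
  have e : (fun n => dot v (d.H n)) = fun n => (∫ x in cube,
      (pd 1 (fun y => v y 0) x - pd 0 (fun y => v y 1) x) * Pf d (fA d.a) (fB d.N) 0 n x) *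
      (d.l n) ^ 2 := by
    funext n; rw [hd.dotH hv, mul_comm]
  rw [e]
  exact h1

end Dat

end Pool.Agent.V1183.LM
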