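import Pool.Agent.V1183.LM.EH
import Pool.Agent.V11198.GFlow

/-!
The transport velocity and its trajectories.
-/

open Set Filter Topology MeasureTheory
open scoped ContDiff ENNReal

set_option autoImplicit false

namespace Pool.Agent.V1183.LM

open H459R3.NS Pool.Agent.V1178.NS

/-! ### the weights -/

section weights

variable (d : Dat)

/-- the activation of the `n`-th scale -/
noncomputable def wt (n : ℕ) (τ : ℝ) : ℝ := if n = 0 then 1 else beta (8 * Real.exp τ / d.N ^ n)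

/-- the weights -/
noncomputable def qn (n : ℕ) (τ : ℝ) : ℝ := Real.exp n * wt d n τ

variable {d}

theorem wt_smooth (n : ℕ) : ContDiff ℝ ∞ (wt d n) := by
  unfold wt
  by_cases h : n = 0
  · simp only [h, if_true]; exact contDiff_const
  · simp only [h, if_false]
    exact beta_smooth.comp ((contDiff_const.mul Real.contDiff_exp).div_const _)

theorem qn_smooth (n : ℕ) : ContDiff ℝ ∞ (qn d n) := contDiff_const.mul (wt_smooth n)

theorem wt_nonneg (n : ℕ) (τ : ℝ) : 0 ≤ wt d n τ := by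
  unfold wt
  split_ifs
  · norm_num
  · exact beta_nonneg _

theorem wt_le_one (n : ℕ) (τ : ℝ) : wt d n τ ≤ 1 := by
  unfold wt
  split_ifs
  · exact le_rfl
  · exact beta_le _

theorem wt_zero0 (τ : ℝ) : wt d 0 τ = 1 := by unfold wt; simp

theorem wt_eq_zero {n : ℕ} {τ : ℝ} (hn : n ≠ 0) (h : 4 * Real.exp τ ≤ d.N ^ n) :
    wt d n τ = 0 := by
  unfold wt
  rw [if_neg hn]
  apply beta_zero
  rw [div_le_iff₀ (pow_pos Dat.N_pos n)]
  linarith

theorem wt_eq_one {n : ℕ} {τ : ℝ} (h : d.N ^ n ≤ Real.exp τ) : wt d n τ = 1 := by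
  unfold wt
  split_ifs
  · rfl
  · apply beta_one
    rw [le_div_iff₀ (pow_pos Dat.N_pos n)]
    linarith

theorem wt_anti (hd : d.Ok) (n : ℕ) (τ : ℝ) : wt d (n + 1) τ ≤ wt d n τ := by
  rcases Nat.eq_zero_or_pos n with rfl | hn
  · rw [wt_zero0]; exact wt_le_one _ _
  · unfold wt
    rw [if_neg (by omega), if_neg (by omega)]
    apply beta_mono
    have h1 := Dat.N_pos (d := d)
    have h2 := hd.N50
    have h3 : d.N ^ n ≤ d.N ^ (n + 1) := pow_le_pow_right₀ (by linarith) (by omega)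
    have := Real.exp_pos τ
    gcongr

theorem qn_nonneg (n : ℕ) (τ : ℝ) : 0 ≤ qn d n τ := mul_nonneg (Real.exp_pos _).le (wt_nonneg n τ)

theorem qn_fin (hd : d.Ok) (R : ℝ) : ∃ n₀ : ℕ, 1 ≤ n₀ ∧ ∀ τ ≤ R, ∀ n, n ∉ Finset.range n₀ →
    qn d n τ = 0 := by
  obtain ⟨m, hm⟩ := pow_unbounded_of_one_lt (4 * Real.exp R) (by linarith [hd.N50] : 1 < d.N)
  refine ⟨m + 1, by omega, fun τ hτ n hn => ?_⟩
  have hn' : m + 1 ≤ n := by simpa using hn
  unfold qn
  rw [wt_eq_zero (by omega), mul_zero]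
  have h1 : d.N ^ m ≤ d.N ^ n := pow_le_pow_right₀ (by linarith [hd.N50]) (by omega)
  have h2 : Real.exp τ ≤ Real.exp R := Real.exp_le_exp.2 hτ
  linarith

/-- weighted sums are smooth -/
theorem wsum_smooth {E F : Type*} [NormedAddCommGroup E] [NormedSpace ℝ E]
    [NormedAddCommGroup F] [NormedSpace ℝ F] (hd : d.Ok) {Ψ : ℕ → E → F}
    (hΨ : ∀ n, ContDiff ℝ ∞ (Ψ n)) :
    ContDiff ℝ ∞ (fun z : ℝ × E => ∑' n, qn d n z.1 • Ψ n z.2) := by
  rw [contDiff_iff_contDiffAt]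
  intro z₀
  obtain ⟨n₀, -, hn₀⟩ := qn_fin hd (z₀.1 + 1)
  have h1 : (fun z : ℝ × E => ∑' n, qn d n z.1 • Ψ n z.2)
      =ᶠ[𝓝 z₀] fun z => ∑ n ∈ Finset.range n₀, qn d n z.1 • Ψ n z.2 := by
    have h2 : ∀ᶠ z : ℝ × E in 𝓝 z₀, z.1 < z₀.1 + 1 :=
      continuous_fst.continuousAt.eventually (gt_mem_nhds (by linarith))
    filter_upwards [h2] with z hz
    exact tsum_eq_sum fun n hn => by rw [hn₀ z.1 hz.le n hn, zero_smul]
  refine ContDiffAt.congr_of_eventuallyEq ?_ h1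
  exact (ContDiff.sum fun n _ => ((qn_smooth n).comp contDiff_fst).smul
    ((hΨ n).comp contDiff_snd)).contDiffAt

theorem wsum_summable (hd : d.Ok) (τ : ℝ) (f : ℕ → ℝ) : Summable fun n => qn d n τ * f n := by
  obtain ⟨n₀, -, hn₀⟩ := qn_fin hd τ
  exact (hasSum_sum_of_ne_finset_zero (s := Finset.range n₀)
    fun n hn => by rw [hn₀ τ le_rfl n hn, zero_mul]).summable

/-- the total weight -/
noncomputable def SS (d : Dat) (τ : ℝ) : ℝ := ∑' n, qn d n τ

theorem qn_summable (hd : d.Ok) (τ : ℝ) : Summable fun n => qn d n τ := by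
  have := wsum_summable hd τ fun _ => 1
  simpa using this

theorem SS_smooth (hd : d.Ok) : ContDiff ℝ ∞ (SS d) := by
  have h := wsum_smooth (E := ℝ) (F := ℝ) hd (Ψ := fun _ _ => 1) fun n => contDiff_const
  have e : SS d = fun τ => ∑' n, qn d n ((τ, (0 : ℝ)) : ℝ × ℝ).1 • (1 : ℝ) := by
    funext τ
    unfold SS
    simp
  rw [e]
  exact h.comp (contDiff_id.prodMk contDiff_const)

theorem SS_one (hd : d.Ok) (τ : ℝ) : 1 ≤ SS d τ := by
  have h := (qn_summable hd τ).le_tsum 0 fun n _ => qn_nonneg n τ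
  have e : qn d 0 τ = 1 := by unfold qn; rw [wt_zero0]; simp
  rwa [e] at h

theorem SS_pos (hd : d.Ok) (τ : ℝ) : 0 < SS d τ := by linarith [SS_one hd τ]

theorem SS_ge (hd : d.Ok) {τ : ℝ} (hτ : 0 ≤ τ) : Real.exp (d.a * τ - 1) ≤ SS d τ := by
  have h := (qn_summable hd τ).le_tsum ⌊d.a * τ⌋₊ fun n _ => qn_nonneg n τ
  refine le_trans ?_ h
  unfold qn
  have ha := hd.a0
  rw [wt_eq_one, mul_one, Real.exp_le_exp]
  · linarith [Nat.lt_floor_add_one (d.a * τ)]
  · unfold Dat.N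
    rw [← Real.exp_nat_mul, Real.exp_le_exp]
    have h1 : (⌊d.a * τ⌋₊ : ℝ) ≤ d.a * τ := Nat.floor_le (by positivity)
    rw [mul_one_div, div_le_iff₀ ha]
    linarith

/-- the weighted average of a bounded sequence -/
theorem wavg_le (hd : d.Ok) (τ : ℝ) {f : ℕ → ℝ} {C : ℝ} (hf : ∀ n, |f n| ≤ C) :
    |(SS d τ)⁻¹ * ∑' n, qn d n τ * f n| ≤ C := by
  have hS := SS_pos hd τ
  obtain ⟨n₀, -, hn₀⟩ := qn_fin hd τ
  have e1 : ∑' n, qn d n τ * f n = ∑ n ∈ Finset.range n₀, qn d n τ * f n :=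
    tsum_eq_sum fun n hn => by rw [hn₀ τ le_rfl n hn, zero_mul]
  have e2 : SS d τ = ∑ n ∈ Finset.range n₀, qn d n τ :=
    tsum_eq_sum fun n hn => hn₀ τ le_rfl n hn
  rw [abs_mul, abs_of_pos (inv_pos.2 hS), e1]
  rw [inv_mul_le_iff₀ hS, e2, Finset.sum_mul]
  refine (Finset.abs_sum_le_sum_abs _ _).trans (Finset.sum_le_sum fun n _ => ?_)
  rw [abs_mul, abs_of_nonneg (qn_nonneg n τ)]
  exact mul_le_mul_of_nonneg_left (hf n) (qn_nonneg n τ)

end weights

/-! ### the velocity -/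

variable {d : Dat}

/-- the velocity -/
noncomputable def Wf (d : Dat) (z : ℝ × V) : V := fun i =>
  (SS d z.1)⁻¹ * ∑' n, qn d n z.1 * d.H n z.2 i

theorem Wf_smooth (hd : d.Ok) : ContDiff ℝ ∞ (Wf d) := by
  rw [contDiff_pi]
  intro i
  have h1 : ContDiff ℝ ∞ (fun z : ℝ × V => (SS d z.1)⁻¹) :=
    ((SS_smooth hd).comp contDiff_fst).inv fun z => (SS_pos hd z.1).ne'
  exact h1.mul (wsum_smooth hd fun n => (hd.H_SV n i).smooth)

theorem lX_le (hd : d.Ok) (n : ℕ) : d.l n * hd.X n ≤ 2 * (hd.C * hd.C) := by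
  have h1 := hd.two_pow n
  have h2 := Dat.L_pos (d := d) n
  have hC := hd.C1
  have e : d.l n = d.ρ / d.L n := rfl
  have h3 := hd.ρ0
  have h4 := hd.ρ1
  have h5 := hd.N50
  have hρ : d.ρ ≤ 1 := by nlinarith
  unfold Dat.Ok.X
  rw [e, pow_succ]
  have h6 : d.ρ / d.L n * (2 ^ n * 2 * (hd.C * hd.C))
      = (d.ρ * (2 ^ n / d.L n)) * (2 * (hd.C * hd.C)) := by ring
  rw [h6]
  have h7 : (2 : ℝ) ^ n / d.L n ≤ 1 := by rw [div_le_one h2]; exact h1
  have h8 : 0 ≤ (2 : ℝ) ^ n / d.L n := by positivity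
  have h9 : d.ρ * (2 ^ n / d.L n) ≤ 1 := by nlinarith
  have : 0 ≤ 2 * (hd.C * hd.C) := by positivity
  nlinarith

theorem Wf_le (hd : d.Ok) (z : ℝ × V) (i : Fin 3) : |Wf d z i| ≤ 2 * (hd.C * hd.C) :=
  wavg_le hd z.1 fun n => (hd.H_le n i z.2).trans (lX_le hd n)

/-! ### flows of bounded fields -/

theorem bflow {G : ℝ × V → V} (hG : ContDiff ℝ ∞ G) {C : ℝ} (hC : ∀ z i, |G z i| ≤ C) :
    ∃ φ : ℝ → ℝ × V → ℝ × V, (∀ p, φ 0 p = p) ∧
      (∀ p τ, HasDerivAt (fun s => φ s p) ((1 : ℝ), G (φ τ p)) τ) ∧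
      ContDiff ℝ ∞ (fun z : ℝ × (ℝ × V) => φ z.1 z.2) ∧
      (∀ s t p, φ t (φ s p) = φ (s + t) p) := by
  have hC0 : 0 ≤ C := (abs_nonneg _).trans (hC 0 0)
  refine Pool.Agent.V11198.global_flow (E := ℝ × V) (V := fun z => ((1 : ℝ), G z))
    (contDiff_const.prodMk hG) ?_
  intro R T
  refine ⟨R + (1 + C) * T, fun χ hχ γ hγ hR τ hτ => ?_⟩
  have hb : ∀ s, ‖χ (γ s) • ((1 : ℝ), G (γ s))‖ ≤ 1 + C := by
    intro s
    rw [norm_smul, Real.norm_eq_abs, abs_of_nonneg (hχ _).1]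
    have h1 : ‖((1 : ℝ), G (γ s))‖ ≤ 1 + C := by
      rw [Prod.norm_def]
      refine max_le ?_ ?_
      · simp [hC0]
      · exact ((pi_norm_le_iff_of_nonneg hC0).2 fun i => hC _ i).trans (by linarith)
    calc χ (γ s) * ‖((1 : ℝ), G (γ s))‖ ≤ 1 * (1 + C) :=
          mul_le_mul (hχ _).2 h1 (norm_nonneg _) zero_le_one
      _ = _ := one_mul _
  have h1 := (convex_univ (𝕜 := ℝ) (E := ℝ)).norm_image_sub_le_of_norm_hasDerivWithin_le
    (f := γ) (f' := fun s => χ (γ s) • ((1 : ℝ), G (γ s))) (C := 1 + C)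
    (fun s _ => (hγ s).hasDerivWithinAt) (fun s _ => hb s) (mem_univ 0) (mem_univ τ)
  rw [sub_zero, Real.norm_eq_abs] at h1
  have h2 : ‖γ τ‖ ≤ ‖γ 0‖ + ‖γ τ - γ 0‖ := by
    have := norm_add_le (γ 0) (γ τ - γ 0)
    rwa [add_sub_cancel] at this
  have h3 : (1 + C) * |τ| ≤ (1 + C) * T := by gcongr
  linarith

/-- trajectories of a time-dependent field -/
def Trj (G : ℝ × V → V) (γ : ℝ → V) : Prop := ∀ s, HasDerivAt γ (G (s, γ s)) s

theorem Trj.lift {G : ℝ × V → V} {γ : ℝ → V} (h : Trj G γ) (s : ℝ) :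
    HasDerivAt (fun s => (s, γ s)) ((1 : ℝ), G (s, γ s)) s := (hasDerivAt_id s).prodMk (h s)

theorem Trj.unique {G : ℝ × V → V} (hG : ContDiff ℝ ∞ G) {γ γ' : ℝ → V} (h : Trj G γ)
    (h' : Trj G γ') {s₀ : ℝ} (h0 : γ s₀ = γ' s₀) : γ = γ' := by
  have := Pool.Agent.V11198.ode_unique (E := ℝ × V) (V := fun z => ((1 : ℝ), G z))
    (contDiff_const.prodMk hG) (a := fun s => (s, γ s)) (b := fun s => (s, γ' s))
    (fun s => h.lift s) (fun s => h'.lift s) s₀ (by simp [h0])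
  funext s
  exact congrArg Prod.snd (congrFun this s)

/-- uniqueness on an interval -/
theorem Trj.unique_Icc {G : ℝ × V → V} (hG : ContDiff ℝ ∞ G) {γ γ' : ℝ → V} {a b : ℝ}
    (h : ∀ s ∈ Icc a b, HasDerivAt γ (G (s, γ s)) s)
    (h' : ∀ s ∈ Icc a b, HasDerivAt γ' (G (s, γ' s)) s) {s₀ : ℝ} (hs₀ : s₀ ∈ Icc a b)
    (h0 : γ s₀ = γ' s₀) : ∀ s ∈ Icc a b, γ s = γ' s := by
  -- a Lipschitz constant on a large ball
  have c1 : ContinuousOn γ (Icc a b) := fun s hs => (h s hs).continuousAt.continuousWithinAt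
  have c2 : ContinuousOn γ' (Icc a b) := fun s hs => (h' s hs).continuousAt.continuousWithinAt
  obtain ⟨R1, hR1⟩ := isCompact_Icc.exists_bound_of_continuousOn c1
  obtain ⟨R2, hR2⟩ := isCompact_Icc.exists_bound_of_continuousOn c2
  set R := max R1 R2 with hR
  have hcomp : IsCompact (Icc a b ×ˢ Metric.closedBall (0 : V) R) :=
    isCompact_Icc.prod (isCompact_closedBall 0 R)
  obtain ⟨M, hM⟩ := hcomp.exists_bound_of_continuousOn
    ((hG.continuous_fderiv (by simp)).continuousOn)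
  set K : NNReal := Real.toNNReal |M| with hK
  have hlip : ∀ s ∈ Icc a b, LipschitzOnWith K (fun y : V => G (s, y)) (Metric.closedBall 0 R) := by
    intro s hs
    refine (convex_closedBall (0 : V) R).lipschitzOnWith_of_nnnorm_hasFDerivWithin_le
      (f' := fun y => (fderiv ℝ G (s, y)).comp (ContinuousLinearMap.inr ℝ ℝ V)) (fun y hy => ?_)
      (fun y hy => ?_)
    · have h1 : HasFDerivAt (fun y : V => (s, y)) (ContinuousLinearMap.inr ℝ ℝ V) y :=
        hasFDerivAt_prodMk_right s y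
      exact (((hG.differentiable (by simp)) (s, y)).hasFDerivAt.comp y h1).hasFDerivWithinAt
    · rw [← NNReal.coe_le_coe, coe_nnnorm, hK, Real.coe_toNNReal _ (abs_nonneg M)]
      refine (ContinuousLinearMap.opNorm_comp_le _ _).trans ?_
      have h2 := hM (s, y) ⟨hs, hy⟩
      have h3 : ‖ContinuousLinearMap.inr ℝ ℝ V‖ ≤ 1 := ContinuousLinearMap.norm_inr_le_one ℝ ℝ V
      calc ‖fderiv ℝ G (s, y)‖ * ‖ContinuousLinearMap.inr ℝ ℝ V‖ ≤ M * 1 :=
            mul_le_mul h2 h3 (norm_nonneg _) ((norm_nonneg _).trans h2)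
        _ ≤ |M| := by rw [mul_one]; exact le_abs_self M
  have b1 : ∀ s ∈ Icc a b, γ s ∈ Metric.closedBall (0 : V) R := fun s hs => by
    rw [mem_closedBall_zero_iff]; exact (hR1 s hs).trans (le_max_left _ _)
  have b2 : ∀ s ∈ Icc a b, γ' s ∈ Metric.closedBall (0 : V) R := fun s hs => by
    rw [mem_closedBall_zero_iff]; exact (hR2 s hs).trans (le_max_right _ _)
  -- to the right of `s₀`
  have right : EqOn γ γ' (Icc s₀ b) := by
    refine ODE_solution_unique_of_mem_Icc_right (v := fun s y => G (s, y))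
      (s := fun _ => Metric.closedBall 0 R) (K := K) (fun s hs => hlip s ⟨hs₀.1.trans hs.1, hs.2.le⟩)
      (c1.mono (Icc_subset_Icc_left hs₀.1)) (fun s hs => ?_) (fun s hs => ?_)
      (c2.mono (Icc_subset_Icc_left hs₀.1)) (fun s hs => ?_) (fun s hs => ?_) h0
    · exact (h s ⟨hs₀.1.trans hs.1, hs.2.le⟩).hasDerivWithinAt
    · exact b1 s ⟨hs₀.1.trans hs.1, hs.2.le⟩
    · exact (h' s ⟨hs₀.1.trans hs.1, hs.2.le⟩).hasDerivWithinAt
    · exact b2 s ⟨hs₀.1.trans hs.1, hs.2.le⟩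
  have left : EqOn γ γ' (Icc a s₀) := by
    refine ODE_solution_unique_of_mem_Icc_left (v := fun s y => G (s, y))
      (s := fun _ => Metric.closedBall 0 R) (K := K) (fun s hs => hlip s ⟨hs.1.le, hs.2.trans hs₀.2⟩)
      (c1.mono (Icc_subset_Icc_right hs₀.2)) (fun s hs => ?_) (fun s hs => ?_)
      (c2.mono (Icc_subset_Icc_right hs₀.2)) (fun s hs => ?_) (fun s hs => ?_) h0
    · exact (h s ⟨hs.1.le, hs.2.trans hs₀.2⟩).hasDerivWithinAt
    · exact b1 s ⟨hs.1.le, hs.2.trans hs₀.2⟩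
    · exact (h' s ⟨hs.1.le, hs.2.trans hs₀.2⟩).hasDerivWithinAt
    · exact b2 s ⟨hs.1.le, hs.2.trans hs₀.2⟩
  intro s hs
  rcases le_total s s₀ with h1 | h1
  · exact left ⟨hs.1, h1⟩
  · exact right ⟨h1, hs.2⟩

/-- existence of trajectories -/
theorem Trj.exists {G : ℝ × V → V} (hG : ContDiff ℝ ∞ G) {C : ℝ} (hC : ∀ z i, |G z i| ≤ C)
    (s₀ : ℝ) (x : V) : ∃ γ, Trj G γ ∧ γ s₀ = x := by
  obtain ⟨φ, h0, h1, -, -⟩ := bflow hG hC
  have h2 : ∀ s, (φ s (s₀, x)).1 = s₀ + s := by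
    intro s
    have e : ∀ s, HasDerivAt (fun s => (φ s (s₀, x)).1 - s) 0 s := by
      intro s
      have h3 : HasDerivAt (fun s => (φ s (s₀, x)).1) 1 s :=
        (ContinuousLinearMap.fst ℝ ℝ V).hasFDerivAt.comp_hasDerivAt s (h1 (s₀, x) s)
      have h4 := h3.sub (hasDerivAt_id s)
      rw [sub_self] at h4
      exact h4
    have hc := is_const_of_deriv_eq_zero (f := fun s => (φ s (s₀, x)).1 - s)
      (fun s => (e s).differentiableAt) (fun s => (e s).deriv) s 0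
    simp only [h0, sub_zero] at hc
    linarith
  refine ⟨fun s => (φ (s - s₀) (s₀, x)).2, fun s => ?_, ?_⟩
  · have h3 : HasDerivAt (fun s => (φ s (s₀, x)).2) (G (φ (s - s₀) (s₀, x))) (s - s₀) :=
      (ContinuousLinearMap.snd ℝ ℝ V).hasFDerivAt.comp_hasDerivAt (s - s₀) (h1 (s₀, x) (s - s₀))
    have h4 : HasDerivAt (fun s => (φ (s - s₀) (s₀, x)).2) (G (φ (s - s₀) (s₀, x))) s :=
      HasDerivAt.comp_sub_const s s₀ h3
    have e : φ (s - s₀) (s₀, x) = (s, (φ (s - s₀) (s₀, x)).2) := by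
      apply Prod.ext
      · rw [h2]; ring
      · rfl
    rw [← e]
    exact h4
  · simp only [sub_self, h0]

/-- invariant planes -/
theorem Trj.plane {G : ℝ × V → V} (hG : ContDiff ℝ ∞ G) {C : ℝ} (hC : ∀ z i, |G z i| ≤ C)
    {j : Fin 3} {c : ℝ} (hc : ∀ s (x : V), x j = c → G (s, x) j = 0) {γ : ℝ → V}
    (h : Trj G γ) {s₀ : ℝ} (h0 : γ s₀ j = c) : ∀ s, γ s j = c := by
  set P : V → V := fun x => Function.update x j c with hP
  have hPs : ContDiff ℝ ∞ P := by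
    rw [contDiff_pi]
    intro i
    by_cases hi : i = j
    · subst hi
      have : (fun x : V => P x i) = fun _ => c := by funext x; simp [hP]
      rw [this]; exact contDiff_const
    · have : (fun x : V => P x i) = fun x => x i := by
        funext x; simp [hP, Function.update_of_ne hi]
      rw [this]; exact contDiff_apply ℝ ℝ i
  set G' : ℝ × V → V := fun z => G (z.1, P z.2) with hG'
  have hG's : ContDiff ℝ ∞ G' := hG.comp (contDiff_fst.prodMk (hPs.comp contDiff_snd))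
  obtain ⟨γ', h1, h2⟩ := Trj.exists hG's (fun z i => hC _ i) s₀ (γ s₀)
  have hPj : ∀ x, P x j = c := fun x => by simp [hP]
  have h3 : ∀ s, HasDerivAt (fun s => γ' s j) 0 s := by
    intro s
    have := hasDerivAt_pi.1 (h1 s) j
    rwa [show G' (s, γ' s) j = 0 from hc s _ (hPj _)] at this
  have h4 : ∀ s, γ' s j = c := by
    intro s
    have := is_const_of_deriv_eq_zero (f := fun s => γ' s j)
      (fun s => (h3 s).differentiableAt) (fun s => (h3 s).deriv) s s₀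
    rw [this]
    show γ' s₀ j = c
    rw [h2, h0]
  have h5 : Trj G γ' := by
    intro s
    have := h1 s
    have e : P (γ' s) = γ' s := by
      simp only [hP]
      rw [← h4 s, Function.update_eq_self]
    have e2 : G' (s, γ' s) = G (s, γ' s) := by
      simp only [hG']; rw [e]
    rwa [e2] at this
  have h6 : γ = γ' := Trj.unique hG h h5 h2.symm
  intro s
  rw [h6]
  exact h4 s

end Pool.Agent.V1183.LM
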