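import Pool.Agent.V1183.LM.Base
import Pool.Agent.W585.Param

/-!
The one-dimensional building blocks.
-/

open Set Filter Topology MeasureTheory
open scoped ContDiff ENNReal

set_option autoImplicit false

namespace Pool.Agent.V1183.LM

open H459R3.NS Pool.Agent.V1178.NS

/-! ### the profile `A` -/

/-- the identity with a slowly varying cut-off -/
noncomputable def fA (a X : ℝ) : ℝ := X * st (2 - a * Real.log (1 + X ^ 2))

theorem one_add_sq_pos (X : ℝ) : 0 < 1 + X ^ 2 := by positivity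

theorem fA_smooth (a : ℝ) : ContDiff ℝ ∞ (fA a) := by
  have h1 : ContDiff ℝ ∞ (fun X : ℝ => Real.log (1 + X ^ 2)) :=
    ContDiff.log (by fun_prop) fun X => (one_add_sq_pos X).ne'
  exact contDiff_id.mul (st_smooth.comp (contDiff_const.sub (contDiff_const.mul h1)))

theorem fA_hasDerivAt (a X : ℝ) : HasDerivAt (fA a) (st (2 - a * Real.log (1 + X ^ 2)) -
    X * (deriv st (2 - a * Real.log (1 + X ^ 2)) * (a * (2 * X / (1 + X ^ 2))))) X := by
  have h0 : HasDerivAt (fun X : ℝ => 1 + X ^ 2) (2 * X) X := by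
    have := ((hasDerivAt_id X).pow 2).const_add 1
    simpa using this
  have h1 : HasDerivAt (fun X : ℝ => Real.log (1 + X ^ 2)) (2 * X / (1 + X ^ 2)) X :=
    h0.log (one_add_sq_pos X).ne'
  have h2 : HasDerivAt (fun X : ℝ => 2 - a * Real.log (1 + X ^ 2))
      (-(a * (2 * X / (1 + X ^ 2)))) X := (h1.const_mul a).const_sub 2
  have h3 := (st_diff (2 - a * Real.log (1 + X ^ 2))).hasDerivAt.comp X h2
  have h4 : HasDerivAt (fun X : ℝ => X * st (2 - a * Real.log (1 + X ^ 2)))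
      (1 * st (2 - a * Real.log (1 + X ^ 2)) + X * (deriv st (2 - a * Real.log (1 + X ^ 2)) *
        -(a * (2 * X / (1 + X ^ 2))))) X := (hasDerivAt_id X).mul h3
  refine h4.congr_deriv ?_
  ring

theorem fA_odd (a X : ℝ) : fA a (-X) = -fA a X := by
  unfold fA; rw [neg_sq]; ring

theorem fA_zero' (a : ℝ) : fA a 0 = 0 := by unfold fA; ring

section
variable {a X : ℝ}

theorem fA_eq (ha0 : 0 < a) (ha : a ≤ 1 / 2) (hX : |X| < 2) : fA a X = X := by
  unfold fA
  rw [st_one, mul_one]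
  have h1 : X ^ 2 < 4 := by
    rw [← sq_abs]; nlinarith [abs_nonneg X]
  have h2 : Real.log (1 + X ^ 2) ≤ 2 := by
    rw [Real.log_le_iff_le_exp (one_add_sq_pos X)]
    have : (5 : ℝ) ≤ Real.exp 2 := by
      have h3 := Real.exp_one_gt_d9
      have h4 : Real.exp 2 = Real.exp 1 * Real.exp 1 := by rw [← Real.exp_add]; norm_num
      rw [h4]
      nlinarith
    linarith
  nlinarith [Real.log_nonneg (x := 1 + X ^ 2) (by nlinarith [sq_nonneg X])]

theorem fA_deriv_eq (ha0 : 0 < a) (ha : a ≤ 1 / 2) (hX : |X| < 2) : deriv (fA a) X = 1 := by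
  have h1 : fA a =ᶠ[𝓝 X] fun w => w := by
    filter_upwards [continuous_abs.continuousAt.eventually (gt_mem_nhds hX)] with w hw
    exact fA_eq ha0 ha hw
  rw [h1.deriv_eq, deriv_id'']

theorem fA_arg_neg (ha0 : 0 < a) (hX : Real.exp (1 / a) ≤ |X|) :
    2 - a * Real.log (1 + X ^ 2) < 0 := by
  have h1 : Real.exp (2 / a) < 1 + X ^ 2 := by
    have h3 : Real.exp (2 / a) = Real.exp (1 / a) * Real.exp (1 / a) := by
      rw [← Real.exp_add]; congr 1; ring
    rw [h3, ← sq_abs]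
    nlinarith [Real.exp_pos (1 / a)]
  have h2 : 2 / a < Real.log (1 + X ^ 2) := (Real.lt_log_iff_exp_lt (one_add_sq_pos X)).2 h1
  rw [div_lt_iff₀ ha0] at h2
  linarith

theorem fA_zero (ha0 : 0 < a) (hX : Real.exp (1 / a) ≤ |X|) : fA a X = 0 := by
  unfold fA
  rw [st_zero (fA_arg_neg ha0 hX).le, mul_zero]

theorem st_deriv_zero {x : ℝ} (hx : x < 0) : deriv st x = 0 := by
  have h2 : st =ᶠ[𝓝 x] fun _ => 0 := by
    filter_upwards [gt_mem_nhds hx] with w hw
    exact st_zero hw.le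
  rw [h2.deriv_eq, deriv_const]

theorem fA_deriv_zero (ha0 : 0 < a) (hX : Real.exp (1 / a) ≤ |X|) : deriv (fA a) X = 0 := by
  rw [(fA_hasDerivAt a X).deriv, st_zero (fA_arg_neg ha0 hX).le,
    st_deriv_zero (fA_arg_neg ha0 hX)]
  ring

theorem fA_SI (ha0 : 0 < a) : SI (-Real.exp (1 / a)) (Real.exp (1 / a)) (fA a) :=
  ⟨fA_smooth a, fun z hz => fA_zero ha0 (by
    by_contra h
    rw [not_le, abs_lt] at h
    exact hz ⟨h.1.le, h.2.le⟩)⟩

theorem fA_nonneg (hX : 0 ≤ X) : 0 ≤ fA a X := mul_nonneg hX (st_nonneg _)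

/-- the derivative of `X A(X)` is almost nonnegative -/
theorem fA_key (ha0 : 0 < a) (hX : 0 < X) : -(2 * a * M1) ≤ deriv (fA a) X + fA a X / X := by
  rw [(fA_hasDerivAt a X).deriv]
  unfold fA
  set θ := 2 - a * Real.log (1 + X ^ 2)
  have h1 := st_nonneg θ
  have h2 := st_deriv_nonneg θ
  have h3 := M1_le θ
  have e1 : X * st θ / X = st θ := by field_simp
  rw [e1]
  have e2 : X * (deriv st θ * (a * (2 * X / (1 + X ^ 2))))
      = 2 * a * (deriv st θ) * (X ^ 2 / (1 + X ^ 2)) := by ring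
  rw [e2]
  have h4 : X ^ 2 / (1 + X ^ 2) ≤ 1 := by
    rw [div_le_one (one_add_sq_pos X)]; linarith
  have h5 : 0 ≤ X ^ 2 / (1 + X ^ 2) := by positivity
  have h6 : 2 * a * (deriv st θ) * (X ^ 2 / (1 + X ^ 2)) ≤ 2 * a * M1 * 1 := by
    gcongr
    exact (mul_nonneg (by positivity) M1_pos.le)
  linarith

theorem fA_key2 (ha0 : 0 < a) (ha : a ≤ 1 / 2) (hX : 0 < X) (hX1 : X ≤ 1) :
    deriv (fA a) X + fA a X / X = 2 := by
  have h : |X| < 2 := by rw [abs_of_pos hX]; linarith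
  rw [fA_deriv_eq ha0 ha h, fA_eq ha0 ha h, div_self hX.ne']
  norm_num

theorem fA_key0 (ha0 : 0 < a) (hX : Real.exp (1 / a) ≤ X) :
    deriv (fA a) X + fA a X / X = 0 := by
  have h : Real.exp (1 / a) ≤ |X| := hX.trans (le_abs_self X)
  rw [fA_deriv_zero ha0 h, fA_zero ha0 h]
  simp

end

/-! ### the profile `B` -/

/-- the identity with a cut-off -/
noncomputable def fB (N Y : ℝ) : ℝ := Y * st (2 - (Y / (2 * N)) ^ 2)

theorem fB_smooth (N : ℝ) : ContDiff ℝ ∞ (fB N) :=
  contDiff_id.mul (st_smooth.comp (contDiff_const.sub ((contDiff_id.div_const _).pow 2)))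

theorem fB_zero' (N : ℝ) : fB N 0 = 0 := by unfold fB; ring

section
variable {N Y : ℝ}

theorem fB_eq (hN : 0 < N) (hY : |Y| < 2 * N) : fB N Y = Y := by
  unfold fB
  rw [st_one, mul_one]
  have h1 : |Y / (2 * N)| < 1 := by
    rw [abs_div, abs_of_pos (by positivity : 0 < 2 * N), div_lt_one (by positivity)]
    exact hY
  have h2 : (Y / (2 * N)) ^ 2 < 1 := by
    rw [← sq_abs]; nlinarith [abs_nonneg (Y / (2 * N))]
  linarith

theorem fB_deriv_eq (hN : 0 < N) (hY : |Y| < 2 * N) : deriv (fB N) Y = 1 := by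
  have h1 : fB N =ᶠ[𝓝 Y] fun w => w := by
    filter_upwards [continuous_abs.continuousAt.eventually (gt_mem_nhds hY)] with w hw
    exact fB_eq hN hw
  rw [h1.deriv_eq, deriv_id'']

theorem fB_zero (hN : 0 < N) (hY : 3 * N ≤ |Y|) : fB N Y = 0 := by
  unfold fB
  rw [st_zero, mul_zero]
  have h1 : 3 / 2 ≤ |Y / (2 * N)| := by
    rw [abs_div, abs_of_pos (by positivity : 0 < 2 * N), le_div_iff₀ (by positivity)]
    linarith
  have h2 : 2 ≤ (Y / (2 * N)) ^ 2 := by
    rw [← sq_abs]; nlinarith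
  linarith

theorem fB_SI (hN : 0 < N) : SI (-(3 * N)) (3 * N) (fB N) :=
  ⟨fB_smooth N, fun z hz => fB_zero hN (by
    by_contra h
    rw [not_le, abs_lt] at h
    exact hz ⟨h.1.le, h.2.le⟩)⟩

end

/-! ### bumps -/

/-- the bump for the measurement -/
noncomputable def bu1 : ContDiffBump (3 / 8 : ℝ) := ⟨1 / 16, 1 / 8, by norm_num, by norm_num⟩

/-- normalised bump with support `[1/4, 1/2]` -/
noncomputable def ph1 (x : ℝ) : ℝ := bu1.normed volume x

theorem ph1_smooth : ContDiff ℝ ∞ ph1 := bu1.contDiff_normed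

theorem ph1_nonneg (x : ℝ) : 0 ≤ ph1 x := bu1.nonneg_normed x

theorem ph1_int : ∫ x, ph1 x = 1 := bu1.integral_normed

theorem ph1_supp {x : ℝ} (hx : x ∉ Icc (1 / 4 : ℝ) (1 / 2)) : ph1 x = 0 := by
  by_contra h
  have h1 : x ∈ Function.support (bu1.normed volume) := h
  rw [bu1.support_normed_eq, Metric.mem_ball, Real.dist_eq, abs_lt] at h1
  have e : bu1.rOut = 1 / 8 := rfl
  rw [e] at h1
  exact hx ⟨by linarith [h1.1], by linarith [h1.2]⟩

theorem ph1_SI : SI (1 / 4) (1 / 2) ph1 := ⟨ph1_smooth, fun _ h => ph1_supp h⟩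

/-- the width of the measurement -/
noncomputable def kap : ℝ := Real.exp (-(2 * Real.exp 1 * M1))

theorem kap_pos : 0 < kap := Real.exp_pos _

theorem kap_le : kap ≤ 1 := by
  unfold kap
  rw [Real.exp_le_one_iff]
  have := M1_pos
  have := Real.exp_pos 1
  nlinarith [mul_pos this M1_pos]

/-- the bump for the second variable -/
noncomputable def bu2 : ContDiffBump (0 : ℝ) := ⟨kap / 8, kap / 4, by
  have := kap_pos; positivity, by have := kap_pos; linarith⟩

/-- normalised bump with support `[-kap/4, kap/4]` -/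
noncomputable def ph2 (x : ℝ) : ℝ := bu2.normed volume x

theorem ph2_smooth : ContDiff ℝ ∞ ph2 := bu2.contDiff_normed

theorem ph2_nonneg (x : ℝ) : 0 ≤ ph2 x := bu2.nonneg_normed x

theorem ph2_int : ∫ x, ph2 x = 1 := bu2.integral_normed

theorem ph2_supp {x : ℝ} (hx : x ∉ Icc (-(kap / 4)) (kap / 4)) : ph2 x = 0 := by
  by_contra h
  have h1 : x ∈ Function.support (bu2.normed volume) := h
  rw [bu2.support_normed_eq, Metric.mem_ball, Real.dist_eq, abs_lt] at h1
  have e : bu2.rOut = kap / 4 := rfl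
  rw [e] at h1
  exact hx ⟨by linarith [h1.1], by linarith [h1.2]⟩

theorem ph2_SI : SI (-(kap / 4)) (kap / 4) ph2 := ⟨ph2_smooth, fun _ h => ph2_supp h⟩

/-! ### the front -/

/-- the front -/
noncomputable def fF (x : ℝ) : ℝ := st (x - 1)

theorem fF_smooth : ContDiff ℝ ∞ fF := st_smooth.comp (contDiff_id.sub contDiff_const)

theorem fF_zero {x : ℝ} (h : x ≤ 1) : fF x = 0 := st_zero (by linarith)

theorem fF_one {x : ℝ} (h : 2 ≤ x) : fF x = 1 := st_one (by linarith)

theorem fF_nonneg (x : ℝ) : 0 ≤ fF x := st_nonneg _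

theorem fF_le (x : ℝ) : fF x ≤ 1 := st_le_one _

theorem fF_mono : Monotone fF := fun x y h => st_mono (by linarith)

/-- the measured value of the front `F (s x)` -/
noncomputable def beta (s : ℝ) : ℝ := ∫ Z in (0 : ℝ)..1, fF (s * Z) * ph1 Z

theorem beta_smooth : ContDiff ℝ ∞ beta := by
  refine Pool.Agent.W585.contDiff_param (E := ℝ) (G := ℝ) (F := fun s Z => fF (s * Z) * ph1 Z) ?_ 0 1
  exact (fF_smooth.comp (contDiff_fst.mul contDiff_snd)).mul (ph1_smooth.comp contDiff_snd)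

theorem beta_int (s : ℝ) (Z₀ Z₁ : ℝ) : IntervalIntegrable (fun Z => fF (s * Z) * ph1 Z) volume Z₀ Z₁ :=
  ((fF_smooth.continuous.comp (continuous_const.mul continuous_id)).mul
    ph1_smooth.continuous).intervalIntegrable _ _

theorem beta_mono : Monotone beta := by
  intro s s' h
  refine intervalIntegral.integral_mono_on (by norm_num) (beta_int s 0 1) (beta_int s' 0 1)
    fun Z hZ => ?_
  exact mul_le_mul_of_nonneg_right (fF_mono (mul_le_mul_of_nonneg_right h hZ.1)) (ph1_nonneg Z)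

theorem beta_nonneg (s : ℝ) : 0 ≤ beta s :=
  intervalIntegral.integral_nonneg (by norm_num) fun Z _ => mul_nonneg (fF_nonneg _) (ph1_nonneg Z)

theorem beta_zero {s : ℝ} (h : s ≤ 2) : beta s = 0 := by
  unfold beta
  rw [intervalIntegral.integral_congr (g := fun _ => 0)]
  · simp
  · intro Z hZ
    rw [uIcc_of_le (by norm_num)] at hZ
    by_cases h1 : Z ∈ Icc (1 / 4 : ℝ) (1 / 2)
    · show fF (s * Z) * ph1 Z = 0
      rw [fF_zero (by nlinarith [h1.1, h1.2]), zero_mul]
    · show fF (s * Z) * ph1 Z = 0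
      rw [ph1_supp h1, mul_zero]

theorem ph1_int01 : ∫ Z in (0 : ℝ)..1, ph1 Z = 1 := by
  rw [intervalIntegral.integral_of_le (by norm_num), setIntegral_eq_integral_of_forall_compl_eq_zero]
  · exact ph1_int
  · intro x hx
    refine ph1_supp fun h => hx ⟨by linarith [h.1], by linarith [h.2]⟩

theorem beta_le (s : ℝ) : beta s ≤ 1 := by
  rw [← ph1_int01]
  refine intervalIntegral.integral_mono_on (by norm_num) (beta_int s 0 1)
    (ph1_smooth.continuous.intervalIntegrable _ _) fun Z _ => ?_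
  exact mul_le_of_le_one_left (ph1_nonneg Z) (fF_le _)

theorem beta_one {s : ℝ} (h : 8 ≤ s) : beta s = 1 := by
  rw [← ph1_int01]
  unfold beta
  apply intervalIntegral.integral_congr
  intro Z _
  show fF (s * Z) * ph1 Z = ph1 Z
  by_cases h1 : Z ∈ Icc (1 / 4 : ℝ) (1 / 2)
  · rw [fF_one (by nlinarith [h1.1, h1.2]), one_mul]
  · rw [ph1_supp h1, mul_zero]

end Pool.Agent.V1183.LM
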