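import Pool.Agent.V1183.LM.EH

/-!
The operator `K`.
-/

open Set Filter Topology MeasureTheory
open scoped ContDiff ENNReal

set_option autoImplicit false

namespace Pool.Agent.V1183.LM

open H459R3.NS Pool.Agent.V1178.NS

variable {d : Dat}

/-! ### bounds for the functionals -/

theorem conj_exp {p q : ℝ≥0∞} (h : p⁻¹ + q⁻¹ = 1) :
    1 ≤ p ∧ 1 ≤ q ∧ (1 - 1 / p.toReal) + (1 - 1 / q.toReal) = 1 := by
  have h1 : p⁻¹ ≤ 1 := h ▸ le_self_add
  have h2 : q⁻¹ ≤ 1 := h ▸ le_add_self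
  refine ⟨ENNReal.inv_le_one.1 h1, ENNReal.inv_le_one.1 h2, ?_⟩
  have h3 : (p⁻¹ + q⁻¹).toReal = 1 := by rw [h, ENNReal.toReal_one]
  rw [ENNReal.toReal_add (ne_top_of_le_ne_top ENNReal.one_ne_top h1)
    (ne_top_of_le_ne_top ENNReal.one_ne_top h2), ENNReal.toReal_inv, ENNReal.toReal_inv] at h3
  rw [one_div, one_div]
  linarith

/-- the volumes -/
noncomputable def mn (d : Dat) (n : ℕ) : ℝ := 48 * (n + 1) * d.N ^ 2 * d.l n ^ 2

theorem mn_pos (hd : d.Ok) (n : ℕ) : 0 < mn d n := by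
  have h2 := Dat.N_pos (d := d)
  have h3 := hd.l_pos n
  unfold mn; positivity

theorem vb (hd : d.Ok) {v : V → V} (hv : SV v) {Φ : V → V} {n : ℕ} {B : ℝ} {p : ℝ≥0∞}
    (hp : 1 ≤ p) (h0 : ∀ x, x ∉ Kn d n → Φ x = 0) (hB : ∀ i x, |Φ x i| ≤ B) (hB0 : 0 ≤ B) :
    |dot v Φ| ≤ 3 * B * mn d n ^ (1 - 1 / p.toReal) * Np p v :=
  vec_bound hv hp (mn_pos hd n).le (Sn_vol hd n) (fun x hx hS => h0 x (Kn_Sn hd hx hS)) hB hB0

theorem Pair.dQ_zero {f g : ℝ → ℝ} (h : Pair d f g) (hd : d.Ok) {i j n : ℕ} (k : Fin 3) {x : V}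
    (hx : x ∉ Kn d n) : pd k (Qf d f g i j n) x = 0 := by
  fin_cases k
  · show pd 0 (Qf d f g i j n) x = 0
    rw [h.pd0 hd, h.Q_zero hd hx]
  · show pd 1 (Qf d f g i j n) x = 0
    rw [h.pd1 hd, h.Q_zero hd hx]
  · show pd 2 (Qf d f g i j n) x = 0
    rw [h.pd2 hd]

theorem dE_zero (hd : d.Ok) {n : ℕ} (j : Fin 3) {x : V} (hx : x ∉ Kn d n) :
    (fun i => pd j (fun y => d.E n y i) x) = (0 : V) := by
  funext i
  fin_cases i
  · exact Dat.pd_const0 j x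
  · exact Dat.pd_const0 j x
  · show pd j (fun y => (d.l n)⁻¹ ^ 2 * Qf d ph1 ph2 0 0 n y) x = 0
    rw [pd_cmul (hd.pairE.sp hd 0 0 n), hd.pairE.dQ_zero hd j hx, mul_zero]

theorem dH_zero (hd : d.Ok) {n : ℕ} (j : Fin 3) {x : V} (hx : x ∉ Kn d n) :
    (fun i => pd j (fun y => d.H n y i) x) = (0 : V) := by
  funext i
  fin_cases i
  · show pd j (fun y => -(d.l n ^ 2) * Qf d (fA d.a) (fB d.N) 0 1 n y) x = 0
    rw [pd_cmul (hd.pairH.sp hd 0 1 n), hd.pairH.dQ_zero hd j hx, mul_zero]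
  · show pd j (fun y => d.l n ^ 2 * Qf d (fA d.a) (fB d.N) 1 0 n y) x = 0
    rw [pd_cmul (hd.pairH.sp hd 1 0 n), hd.pairH.dQ_zero hd j hx, mul_zero]
  · exact Dat.pd_const0 j x

section bounds

variable {v : V → V} {p : ℝ≥0∞}

theorem bE0 (hd : d.Ok) (hv : SV v) (hp : 1 ≤ p) (n : ℕ) : |dot v (d.E n)|
    ≤ (3 * ((d.l n)⁻¹ ^ 2 * hd.X n) * mn d n ^ (1 - 1 / p.toReal)) * Np p v := by
  have := hd.X_pos n
  have := hd.l_pos n
  exact vb hd hv hp (fun x hx => hd.E_zero hx) (hd.E_le n) (by positivity)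

theorem bH0 (hd : d.Ok) (hv : SV v) (hp : 1 ≤ p) (n : ℕ) : |dot v (d.H n)|
    ≤ (3 * (d.l n * hd.X n) * mn d n ^ (1 - 1 / p.toReal)) * Np p v := by
  have := hd.X_pos n
  have := hd.l_pos n
  exact vb hd hv hp (fun x hx => hd.H_zero hx) (hd.H_le n) (by positivity)

theorem bdE (hd : d.Ok) (hv : SV v) (hp : 1 ≤ p) (n : ℕ) (j : Fin 3) :
    |dot v (fun x i => pd j (fun y => d.E n y i) x)|
    ≤ (3 * ((d.l n)⁻¹ ^ 3 * hd.X n) * mn d n ^ (1 - 1 / p.toReal)) * Np p v := by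
  have := hd.X_pos n
  have := hd.l_pos n
  exact vb hd hv hp (fun x hx => dE_zero hd j hx) (fun i x => hd.dE_le n j i x) (by positivity)

theorem bdH (hd : d.Ok) (hv : SV v) (hp : 1 ≤ p) (n : ℕ) (j : Fin 3) :
    |dot v (fun x i => pd j (fun y => d.H n y i) x)|
    ≤ (3 * hd.X n * mn d n ^ (1 - 1 / p.toReal)) * Np p v := by
  have := hd.X_pos n
  exact vb hd hv hp (fun x hx => dH_zero hd j hx) (fun i x => hd.dH_le n j i x) this.le

theorem fb1 (hd : d.Ok) (hv : SV v) (hp : 1 ≤ p) {n : ℕ} {φ : V → ℝ} {B : ℝ}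
    (h0 : ∀ x, x ∉ Kn d n → φ x = 0) (hB : ∀ x, |φ x| ≤ B) (hB0 : 0 ≤ B) (i j : Fin 3) :
    |∫ x in cube, pd j (fun y => v y i) x * φ x|
      ≤ B * mn d n ^ (1 - 1 / p.toReal) * Np p (fderiv ℝ v) := by
  have hc : Continuous (fderiv ℝ v) := hv.smooth.continuous_fderiv (by simp)
  have hm := mn_pos hd n
  refine (fun_bound (g := pd j (fun y => v y i)) (φ := φ) hp ((hv i).pd j).cont hm.le
    (Sn_vol hd n) (fun x hx hS => h0 x (Kn_Sn hd hx hS)) hB hB0).trans ?_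
  have : Np p (pd j (fun y => v y i)) ≤ Np p (fderiv ℝ v) := Np_mono hc p fun x => hv.pd_le i j x
  gcongr

theorem bE1 (hd : d.Ok) (hv : SV v) (hp : 1 ≤ p) (n : ℕ) : |dot v (d.E n)|
    ≤ (3 * ((d.l n)⁻¹ ^ 2 * hd.X n) * mn d n ^ (1 - 1 / p.toReal) * d.h n)
      * Np p (fderiv ℝ v) := by
  have hX := hd.X_pos n
  have hl := hd.l_pos n
  have hh := hd.h_nonneg n
  have hm := mn_pos hd n
  have hN := Np_nonneg p (fderiv ℝ v)
  have hC := hd.C1
  rw [Dat.dotE, abs_mul, abs_of_pos (by positivity : 0 < (d.l n)⁻¹ ^ 2)]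
  have h1 := (Dat.move hd.pairE hd n 1 (by omega) (hv 2)).2
  have e : (pd 0)^[1] (fun y => v y 2) = pd 0 (fun y => v y 2) := rfl
  rw [e] at h1
  rw [h1]
  have hC0 := hd.Cs 0 (by norm_num)
  rw [iteratedDeriv_zero, iteratedDeriv_zero] at hC0
  have h2 : ∀ x, |Pf d ph1 ph2 1 n x| ≤ d.h n * hd.X n := by
    intro x
    refine (hd.pairE.P_le hd hC0.1.1 hC0.1.2 (by linarith) 1 n x).trans ?_
    unfold Dat.Ok.X
    rw [pow_one, Nat.add_sub_cancel]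
    have h3 : (2 : ℝ) ^ n ≤ 2 ^ (n + 1) := by gcongr <;> norm_num
    calc d.h n * 2 ^ n * (hd.C * hd.C) ≤ d.h n * 2 ^ (n + 1) * (hd.C * hd.C) := by gcongr
      _ = _ := by ring
  have h3 := fb1 (p := p) hd hv hp (n := n) (fun x hx => hd.pairE.P_zero hd (by omega) hx) h2
    (by positivity) 2 0
  calc (d.l n)⁻¹ ^ 2 * |∫ x in cube, pd 0 (fun y => v y 2) x * Pf d ph1 ph2 1 n x|
      ≤ (d.l n)⁻¹ ^ 2 * (d.h n * hd.X n * mn d n ^ (1 - 1 / p.toReal) * Np p (fderiv ℝ v)) := by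
        gcongr
    _ = 1 * ((d.l n)⁻¹ ^ 2 * hd.X n * mn d n ^ (1 - 1 / p.toReal) * d.h n
      * Np p (fderiv ℝ v)) := by ring
    _ ≤ 3 * ((d.l n)⁻¹ ^ 2 * hd.X n * mn d n ^ (1 - 1 / p.toReal) * d.h n
      * Np p (fderiv ℝ v)) := by gcongr; norm_num
    _ = _ := by ring

theorem l_le_h (hd : d.Ok) (n : ℕ) : d.l n ≤ d.h n := by
  unfold Dat.h
  have := hd.N50
  have := hd.l_pos n
  nlinarith

theorem bH1 (hd : d.Ok) (hv : SV v) (hp : 1 ≤ p) (n : ℕ) : |dot v (d.H n)|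
    ≤ (3 * (d.l n * hd.X n) * mn d n ^ (1 - 1 / p.toReal) * d.h n) * Np p (fderiv ℝ v) := by
  have hX := hd.X_pos n
  have hl := hd.l_pos n
  have hh := hd.h_nonneg n
  have hm := mn_pos hd n
  have hN := Np_nonneg p (fderiv ℝ v)
  have hC := hd.C1
  have hC0 := hd.Cs 0 (by norm_num)
  rw [iteratedDeriv_zero, iteratedDeriv_zero] at hC0
  have h2 : ∀ x, |Pf d (fA d.a) (fB d.N) 0 n x| ≤ hd.X n := by
    intro x
    refine (hd.pairH.P_le hd hC0.2.1 hC0.2.2 (by linarith) 0 n x).trans (le_of_eq ?_)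
    unfold Dat.Ok.X
    rw [pow_zero, one_mul]
    rfl
  have hz : ∀ x, x ∉ Kn d n → Pf d (fA d.a) (fB d.N) 0 n x = 0 := fun x hx =>
    hd.pairH.P_zero hd (by omega) hx
  have k1 := fb1 (p := p) hd hv hp (n := n) hz h2 hX.le 0 1
  have k2 := fb1 (p := p) hd hv hp (n := n) hz h2 hX.le 1 0
  rw [hd.dotH hv, abs_mul, abs_of_pos (by positivity : 0 < d.l n ^ 2)]
  have e : ∫ x in cube, (pd 1 (fun y => v y 0) x - pd 0 (fun y => v y 1) x)
      * Pf d (fA d.a) (fB d.N) 0 n x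
      = (∫ x in cube, pd 1 (fun y => v y 0) x * Pf d (fA d.a) (fB d.N) 0 n x)
        - ∫ x in cube, pd 0 (fun y => v y 1) x * Pf d (fA d.a) (fB d.N) 0 n x := by
    have hs : SP (Pf d (fA d.a) (fB d.N) 0 n) := hd.pairH.spP hd (by omega)
    rw [← integral_sub (((hv 0).pd 1).mul hs).int (((hv 1).pd 0).mul hs).int]
    congr 1
    funext x
    ring
  rw [e]
  have hlh := l_le_h hd n
  calc d.l n ^ 2 * |_|
      ≤ d.l n ^ 2 * (hd.X n * mn d n ^ (1 - 1 / p.toReal) * Np p (fderiv ℝ v)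
        + hd.X n * mn d n ^ (1 - 1 / p.toReal) * Np p (fderiv ℝ v)) := by
        gcongr
        exact (abs_sub _ _).trans (add_le_add k1 k2)
    _ = 2 * (d.l n * hd.X n * mn d n ^ (1 - 1 / p.toReal) * d.l n * Np p (fderiv ℝ v)) := by ring
    _ ≤ 3 * (d.l n * hd.X n * mn d n ^ (1 - 1 / p.toReal) * d.h n * Np p (fderiv ℝ v)) := by
        gcongr; norm_num
    _ = _ := by ring

theorem interp' {a M h x y β : ℝ} (ha : 0 ≤ a) (h1 : a ≤ M * x) (h2 : a ≤ M * h * y)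
    (hM : 0 ≤ M) (hh : 0 ≤ h) (hx : 0 ≤ x) (hy : 0 ≤ y) (hβ0 : 0 ≤ β) (hβ1 : β < 1) :
    a ≤ M * h ^ (1 - β) * (x ^ β * y ^ (1 - β)) := by
  have key := interp (s := 1 - β) ha h1 h2 hM (by positivity) hx hy (by linarith) (by linarith)
  rw [show 1 - (1 - β) = β by ring] at key
  rcases hM.eq_or_lt with h0 | h0
  · have : a ≤ 0 := by rw [← h0] at h1; linarith
    have : 0 ≤ M * h ^ (1 - β) * (x ^ β * y ^ (1 - β)) := by positivity
    linarith
  · have e : M ^ β * (M * h) ^ (1 - β) = M * h ^ (1 - β) := by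
      rw [Real.mul_rpow hM hh, ← mul_assoc, ← Real.rpow_add h0]
      rw [show β + (1 - β) = 1 by ring, Real.rpow_one]
    rwa [e] at key

theorem bEβ (hd : d.Ok) (hv : SV v) (hp : 1 ≤ p) (n : ℕ) {β : ℝ} (hβ0 : 0 ≤ β) (hβ1 : β < 1) :
    |dot v (d.E n)| ≤ (3 * ((d.l n)⁻¹ ^ 2 * hd.X n) * mn d n ^ (1 - 1 / p.toReal))
      * d.h n ^ (1 - β) * (Np p v ^ β * Np p (fderiv ℝ v) ^ (1 - β)) := by
  have hX := hd.X_pos n
  have hl := hd.l_pos n
  have hm := mn_pos hd n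
  exact interp' (abs_nonneg _) (bE0 hd hv hp n) (bE1 hd hv hp n) (by positivity)
    (hd.h_nonneg n) (Np_nonneg _ _) (Np_nonneg _ _) hβ0 hβ1

theorem bHβ (hd : d.Ok) (hv : SV v) (hp : 1 ≤ p) (n : ℕ) {β : ℝ} (hβ0 : 0 ≤ β) (hβ1 : β < 1) :
    |dot v (d.H n)| ≤ (3 * (d.l n * hd.X n) * mn d n ^ (1 - 1 / p.toReal))
      * d.h n ^ (1 - β) * (Np p v ^ β * Np p (fderiv ℝ v) ^ (1 - β)) := by
  have hX := hd.X_pos n
  have hl := hd.l_pos n
  have hm := mn_pos hd n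
  exact interp' (abs_nonneg _) (bH0 hd hv hp n) (bH1 hd hv hp n) (by positivity)
    (hd.h_nonneg n) (Np_nonneg _ _) (Np_nonneg _ _) hβ0 hβ1

end bounds

/-! ### the geometric bound -/

theorem exp3 : (16 : ℝ) ≤ Real.exp 3 := by
  have h3 := Real.exp_one_gt_d9
  have h4 : Real.exp 3 = (Real.exp 1) ^ 3 := by
    rw [← Real.exp_nat_mul]; norm_num
  rw [h4]
  have h5 : (2.7 : ℝ) ^ 3 ≤ Real.exp 1 ^ 3 := by gcongr; linarith
  norm_num at h5 ⊢
  linarith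

theorem h_le (hd : d.Ok) (n : ℕ) : d.h n ≤ (d.L n)⁻¹ := by
  have h1 := hd.ρ1
  have h2 := Dat.L_pos (d := d) n
  have h3 := hd.ρ0
  have h4 := Dat.N_pos (d := d)
  unfold Dat.h Dat.l
  rw [← one_div, ← mul_div_assoc]
  show 3 * d.N * d.ρ / d.L n ≤ 1 / d.L n
  gcongr
  have : 0 ≤ d.N * d.ρ := by positivity
  nlinarith

theorem gn_le (hd : d.Ok) {β : ℝ} (hβ0 : 0 ≤ β) (hβ1 : β < 1) (ha : d.a ≤ (1 - β) / 4) (n : ℕ) :
    Real.exp n * 4 ^ n * (n + 1) * d.h n ^ (1 - β) ≤ (1 / 2) ^ n := by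
  have h1 : d.h n ^ (1 - β) ≤ Real.exp (-4) ^ n := by
    have h2 : d.h n ^ (1 - β) ≤ ((d.L n)⁻¹) ^ (1 - β) :=
      Real.rpow_le_rpow (hd.h_nonneg n) (h_le hd n) (by linarith)
    refine h2.trans ?_
    have e : d.L n = Real.exp (n * (1 / d.a)) := by
      unfold Dat.L Dat.N; rw [← Real.exp_nat_mul]
    rw [e, ← Real.exp_neg, ← Real.exp_mul, ← Real.exp_nat_mul, Real.exp_le_exp]
    have h3 : 4 ≤ (1 - β) / d.a := by
      rw [le_div_iff₀ hd.a0]; linarith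
    have hn : (0 : ℝ) ≤ n := Nat.cast_nonneg n
    have e2 : -(↑n * (1 / d.a)) * (1 - β) = -(n * ((1 - β) / d.a)) := by ring
    rw [e2]
    have := mul_le_mul_of_nonneg_left h3 hn
    linarith
  have h4 : ((n : ℝ) + 1) ≤ 2 ^ n := Dat.n_le n
  have h0 := Real.rpow_nonneg (hd.h_nonneg n) (1 - β)
  calc Real.exp n * 4 ^ n * (n + 1) * d.h n ^ (1 - β)
      ≤ Real.exp n * 4 ^ n * 2 ^ n * Real.exp (-4) ^ n := by gcongr
    _ = (8 * Real.exp (-3)) ^ n := by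
        have e1 : Real.exp (n : ℝ) = Real.exp 1 ^ n := by rw [← Real.exp_nat_mul]; simp
        rw [e1, ← mul_pow, ← mul_pow, ← mul_pow]
        congr 1
        have e3 : Real.exp (-3) = Real.exp 1 * Real.exp (-4) := by rw [← Real.exp_add]; norm_num
        rw [e3]
        ring
    _ ≤ (1 / 2) ^ n := by
        gcongr
        have := exp3
        rw [Real.exp_neg]
        rw [← div_eq_mul_inv, div_le_iff₀ (Real.exp_pos 3)]
        linarith

theorem l_le_hβ (hd : d.Ok) {β : ℝ} (hβ0 : 0 ≤ β) (hβ1 : β < 1) (n : ℕ) :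
    d.l n ≤ d.h n ^ (1 - β) := by
  have h1 := l_le_h hd n
  have h2 : d.h n ≤ 1 := (h_le hd n).trans (inv_le_one_of_one_le₀ (hd.L1 n))
  have h3 : 0 < d.h n := (hd.l_pos n).trans_le h1
  calc d.l n ≤ d.h n := h1
    _ = d.h n ^ (1 : ℝ) := (Real.rpow_one _).symm
    _ ≤ d.h n ^ (1 - β) := Real.rpow_le_rpow_of_exponent_ge h3 h2 (by linarith)

/-- the constant of the bounds -/
noncomputable def KC (hd : d.Ok) : ℝ := 1728 * d.N ^ 2 * hd.C ^ 4

theorem KC_pos (hd : d.Ok) : 0 < KC hd := by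
  have := Dat.N_pos (d := d)
  have := hd.C1
  unfold KC; positivity

theorem mn_split (hd : d.Ok) {p q : ℝ≥0∞} (h : p⁻¹ + q⁻¹ = 1) (n : ℕ) :
    mn d n ^ (1 - 1 / p.toReal) * mn d n ^ (1 - 1 / q.toReal) = mn d n := by
  rw [← Real.rpow_add (mn_pos hd n), (conj_exp h).2.2, Real.rpow_one]

theorem key_id (hd : d.Ok) (n : ℕ) : 9 * (d.l n)⁻¹ ^ 2 * hd.X n ^ 2 * mn d n
    = KC hd * (4 ^ n * (n + 1)) := by
  have hl := hd.l_pos n
  unfold KC mn Dat.Ok.X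
  have e : (4 : ℝ) ^ n = 2 ^ n * 2 ^ n := by rw [← mul_pow]; norm_num
  rw [e]
  field_simp
  ring

/-- bound for one term -/
theorem term_le {d : Dat} (hd : d.Ok) {n : ℕ} {β ε a b A B m1 m2 P Q : ℝ} (hε : 0 ≤ ε)
    (hβ0 : 0 ≤ β) (hβ1 : β < 1) (ha : d.a ≤ (1 - β) / 4)
    (h1 : |a| ≤ (3 * (A * hd.X n) * m1) * P) (h2 : |b| ≤ (3 * (B * hd.X n) * m2) * Q)
    (hm : m1 * m2 = mn d n) (hP : 0 ≤ P) (hQ : 0 ≤ Q)
    (hAB : A * B ≤ (d.l n)⁻¹ ^ 2 * d.h n ^ (1 - β)) (hA : 0 ≤ A) (hB : 0 ≤ B)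
    (hm1 : 0 ≤ m1) (hm2 : 0 ≤ m2) :
    |ε * Real.exp n * a * b| ≤ ε * KC hd * (P * Q) * (1 / 2) ^ n := by
  have hX := hd.X_pos n
  have hl := hd.l_pos n
  have hmn := mn_pos hd n
  rw [abs_mul, abs_mul, abs_mul, abs_of_nonneg hε, abs_of_pos (Real.exp_pos _)]
  have e0 := Real.exp_pos (n : ℝ)
  have hh := Real.rpow_nonneg (hd.h_nonneg n) (1 - β)
  calc ε * Real.exp n * |a| * |b|
      ≤ ε * Real.exp n * ((3 * (A * hd.X n) * m1) * P) * ((3 * (B * hd.X n) * m2) * Q) := by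
        gcongr
    _ = ε * Real.exp n * (P * Q) * (9 * (A * B) * hd.X n ^ 2 * (m1 * m2)) := by ring
    _ = ε * Real.exp n * (P * Q) * (9 * (A * B) * hd.X n ^ 2 * mn d n) := by rw [hm]
    _ ≤ ε * Real.exp n * (P * Q) *
        (9 * ((d.l n)⁻¹ ^ 2 * d.h n ^ (1 - β)) * hd.X n ^ 2 * mn d n) := by gcongr
    _ = ε * Real.exp n * (P * Q) * d.h n ^ (1 - β) *
        (9 * (d.l n)⁻¹ ^ 2 * hd.X n ^ 2 * mn d n) := by ring
    _ = ε * Real.exp n * (P * Q) * d.h n ^ (1 - β) * (KC hd * (4 ^ n * (n + 1))) := by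
        rw [key_id hd n]
    _ = ε * KC hd * (P * Q) * (Real.exp n * 4 ^ n * (n + 1) * d.h n ^ (1 - β)) := by ring
    _ ≤ ε * KC hd * (P * Q) * (1 / 2) ^ n := by
        have := KC_pos hd
        have := gn_le hd hβ0 hβ1 ha n
        gcongr

theorem tsum_le_geo {f : ℕ → ℝ} {M : ℝ} (hf : ∀ n, |f n| ≤ M * (1 / 2) ^ n) :
    |∑' n, f n| ≤ M * 2 := by
  have h := tsum_of_norm_bounded (f := f) (hasSum_geometric_two.mul_left M) hf
  exact h

/-! ### the operator -/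

/-- the operator -/
noncomputable def Kop (d : Dat) (ε : ℝ) (v : V → V) : V → V :=
  syn (fun n : ℕ => ε * Real.exp n * dot v (d.E n)) d.H
    + syn (fun n : ℕ => ε * Real.exp n * dot v (d.H n)) d.E

theorem rcE (hd : d.Ok) (ε : ℝ) {v : V → V} (hv : SV v) :
    Rap d.L (fun n : ℕ => ε * Real.exp n * dot v (d.E n)) := by
  have h1 := (hd.rapE hv).mul_pol hd.L1 ((Pol.const ε).mul hd.pol_exp)
  simpa only [mul_comm] using h1

theorem rcH (hd : d.Ok) (ε : ℝ) {v : V → V} (hv : SV v) :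
    Rap d.L (fun n : ℕ => ε * Real.exp n * dot v (d.H n)) := by
  have h1 := (hd.rapH hv).mul_pol hd.L1 ((Pol.const ε).mul hd.pol_exp)
  simpa only [mul_comm] using h1

theorem Kop_SV (hd : d.Ok) (ε : ℝ) {v : V → V} (hv : SV v) : SV (Kop d ε v) := fun i =>
  (syn_SV hd.seqs (rcE hd ε hv) hd.H_FB i).add (syn_SV hd.seqs (rcH hd ε hv) hd.E_FB i)

theorem syn_div {L c : ℕ → ℝ} {Φ : ℕ → V → V} (h : Seqs L) (hc : Rap L c) (hΦ : FB L Φ)
    (hdiv : ∀ n x, ∑ i, pd i (fun y => Φ n y i) x = 0) (x : V) :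
    ∑ i, pd i (fun y => syn c Φ y i) x = 0 := by
  have h1 : ∀ i, pd i (fun y => syn c Φ y i) x = ∑' n, c n * pd i (fun y => Φ n y i) x :=
    fun i => syn_pd h hc hΦ i i x
  simp_rw [h1]
  rw [← Summable.tsum_finsetSum fun i _ => syn_summable h hc (hΦ.pd h.one i) x i]
  have h2 : ∀ n, ∑ i, c n * pd i (fun y => Φ n y i) x = 0 := fun n => by
    rw [← Finset.mul_sum, hdiv, mul_zero]
  simp_rw [h2]
  exact tsum_zero

theorem Kop_div (hd : d.Ok) (ε : ℝ) {v : V → V} (hv : SV v) (x : V) :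
    ∑ i, pd i (fun y => Kop d ε v y i) x = 0 := by
  have h1 := syn_SV hd.seqs (rcE hd ε hv) hd.H_FB
  have h2 := syn_SV hd.seqs (rcH hd ε hv) hd.E_FB
  have e : ∀ i, pd i (fun y => Kop d ε v y i) x
      = pd i (fun y => syn (fun n : ℕ => ε * Real.exp n * dot v (d.E n)) d.H y i) x
        + pd i (fun y => syn (fun n : ℕ => ε * Real.exp n * dot v (d.H n)) d.E y i) x := by
    intro i
    unfold pd
    have := (((h1 i).diff x).hasFDerivAt.add ((h2 i).diff x).hasFDerivAt).fderiv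
    have e2 : fderiv ℝ (fun y => Kop d ε v y i) x = _ := this
    rw [e2]
    rfl
  simp_rw [e]
  rw [Finset.sum_add_distrib, syn_div hd.seqs (rcE hd ε hv) hd.H_FB hd.H_div,
    syn_div hd.seqs (rcH hd ε hv) hd.E_FB hd.E_div, add_zero]

theorem Kop_lin (hd : d.Ok) (ε c : ℝ) {u v : V → V} (hu : SV u) (hv : SV v) :
    Kop d ε (c • u + v) = c • Kop d ε u + Kop d ε v := by
  have e1 : (fun n : ℕ => ε * Real.exp n * dot (c • u + v) (d.E n))
      = fun n : ℕ => c * (ε * Real.exp n * dot u (d.E n)) + ε * Real.exp n * dot v (d.E n) := by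
    funext n
    rw [dot_add_left hu hv (hd.E_SV n)]
    ring
  have e2 : (fun n : ℕ => ε * Real.exp n * dot (c • u + v) (d.H n))
      = fun n : ℕ => c * (ε * Real.exp n * dot u (d.H n)) + ε * Real.exp n * dot v (d.H n) := by
    funext n
    rw [dot_add_left hu hv (hd.H_SV n)]
    ring
  unfold Kop
  rw [e1, e2, syn_lin hd.seqs (rcE hd ε hu) (rcE hd ε hv) hd.H_FB,
    syn_lin hd.seqs (rcH hd ε hu) (rcH hd ε hv) hd.E_FB, smul_add]
  abel

theorem Kop_dot (hd : d.Ok) (ε : ℝ) {v w : V → V} (hv : SV v) (hw : SV w) :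
    dot (Kop d ε v) w = (∑' n : ℕ, ε * Real.exp n * dot v (d.E n) * dot w (d.H n))
      + ∑' n : ℕ, ε * Real.exp n * dot v (d.H n) * dot w (d.E n) := by
  have h1 := syn_SV hd.seqs (rcE hd ε hv) hd.H_FB
  have h2 := syn_SV hd.seqs (rcH hd ε hv) hd.E_FB
  rw [dot_comm]
  have h3 := dot_add_right h1 h2 hw 1
  rw [one_smul, one_mul] at h3
  rw [← dot_syn hd.seqs (rcE hd ε hv) hd.H_FB hw, ← dot_syn hd.seqs (rcH hd ε hv) hd.E_FB hw]
  exact h3

theorem Kop_symm (hd : d.Ok) (ε : ℝ) {v w : V → V} (hv : SV v) (hw : SV w) :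
    dot (Kop d ε v) w = dot v (Kop d ε w) := by
  rw [dot_comm v, Kop_dot hd ε hv hw, Kop_dot hd ε hw hv, add_comm]
  congr 1
  · congr 1; funext n; ring
  · congr 1; funext n; ring

theorem dKop_dot (hd : d.Ok) (ε : ℝ) {v w : V → V} (hv : SV v) (hw : SV w) (j : Fin 3) :
    dot (fun x i => pd j (fun y => Kop d ε v y i) x) w
      = (∑' n : ℕ, ε * Real.exp n * dot v (d.E n)
          * dot w (fun x i => pd j (fun y => d.H n y i) x))
      + ∑' n : ℕ, ε * Real.exp n * dot v (d.H n)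
          * dot w (fun x i => pd j (fun y => d.E n y i) x) := by
  have h1 := syn_SV hd.seqs (rcE hd ε hv) hd.H_FB
  have h2 := syn_SV hd.seqs (rcH hd ε hv) hd.E_FB
  have hH := hd.H_FB.pd hd.L1 j
  have hE := hd.E_FB.pd hd.L1 j
  have g1 := syn_SV hd.seqs (rcE hd ε hv) hH
  have g2 := syn_SV hd.seqs (rcH hd ε hv) hE
  have e : (fun (x : V) (i : Fin 3) => pd j (fun y => Kop d ε v y i) x)
      = (1 : ℝ) • syn (fun n : ℕ => ε * Real.exp n * dot v (d.E n))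
          (fun n x i => pd j (fun y => d.H n y i) x)
        + syn (fun n : ℕ => ε * Real.exp n * dot v (d.H n))
          (fun n x i => pd j (fun y => d.E n y i) x) := by
    funext x i
    have e1 : pd j (fun y => Kop d ε v y i) x
        = pd j (fun y => syn (fun n : ℕ => ε * Real.exp n * dot v (d.E n)) d.H y i) x
          + pd j (fun y => syn (fun n : ℕ => ε * Real.exp n * dot v (d.H n)) d.E y i) x := by
      unfold pd
      have := (((h1 i).diff x).hasFDerivAt.add ((h2 i).diff x).hasFDerivAt).fderiv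
      have e2 : fderiv ℝ (fun y => Kop d ε v y i) x = _ := this
      rw [e2]
      rfl
    rw [e1, syn_pd hd.seqs (rcE hd ε hv) hd.H_FB, syn_pd hd.seqs (rcH hd ε hv) hd.E_FB]
    rw [one_smul]
    rfl
  rw [e, dot_comm, dot_add_right g1 g2 hw 1, one_mul,
    dot_syn hd.seqs (rcE hd ε hv) hH hw, dot_syn hd.seqs (rcH hd ε hv) hE hw]

theorem Kop_bound (hd : d.Ok) {ε β : ℝ} (hε : 0 ≤ ε) (hβ0 : 0 ≤ β) (hβ1 : β < 1)
    (ha : d.a ≤ (1 - β) / 4) {p q : ℝ≥0∞} (hpq : p⁻¹ + q⁻¹ = 1) {v w : V → V} (hv : SV v)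
    (hw : SV w) : |dot (Kop d ε v) w| ≤ 4 * ε * KC hd * (Np p v * Np q w) := by
  obtain ⟨hp, hq, -⟩ := conj_exp hpq
  have hlβ := fun n => l_le_hβ hd hβ0 hβ1 n
  rw [Kop_dot hd ε hv hw]
  have t1 := tsum_le_geo (f := fun n : ℕ => ε * Real.exp n * dot v (d.E n) * dot w (d.H n)) fun n => by
    have hl := hd.l_pos n
    refine term_le hd hε hβ0 hβ1 ha (bE0 hd hv hp n) (bH0 hd hw hq n) (mn_split hd hpq n)
      (Np_nonneg _ _) (Np_nonneg _ _) ?_ (by positivity) hl.le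
      (Real.rpow_nonneg (mn_pos hd n).le _) (Real.rpow_nonneg (mn_pos hd n).le _)
    have := hlβ n
    gcongr
  have t2 := tsum_le_geo (f := fun n : ℕ => ε * Real.exp n * dot v (d.H n) * dot w (d.E n)) fun n => by
    have hl := hd.l_pos n
    refine term_le hd hε hβ0 hβ1 ha (bH0 hd hv hp n) (bE0 hd hw hq n) (mn_split hd hpq n)
      (Np_nonneg _ _) (Np_nonneg _ _) ?_ hl.le (by positivity)
      (Real.rpow_nonneg (mn_pos hd n).le _) (Real.rpow_nonneg (mn_pos hd n).le _)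
    have := hlβ n
    rw [mul_comm]
    gcongr
  calc _ ≤ |∑' n : ℕ, ε * Real.exp n * dot v (d.E n) * dot w (d.H n)|
        + |∑' n : ℕ, ε * Real.exp n * dot v (d.H n) * dot w (d.E n)| := abs_add_le _ _
    _ ≤ _ := add_le_add t1 t2
    _ = _ := by ring

theorem Kop_order (hd : d.Ok) {ε β : ℝ} (hε : 0 ≤ ε) (hβ0 : 0 ≤ β) (hβ1 : β < 1)
    (ha : d.a ≤ (1 - β) / 4) {p q : ℝ≥0∞} (hpq : p⁻¹ + q⁻¹ = 1) {v w : V → V} (hv : SV v)
    (hw : SV w) (j : Fin 3) : |dot (fun x i => pd j (fun y => Kop d ε v y i) x) w|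
      ≤ 4 * ε * KC hd * (Np p v ^ β * Np p (fderiv ℝ v) ^ (1 - β) * Np q w) := by
  obtain ⟨hp, hq, -⟩ := conj_exp hpq
  have hPP : 0 ≤ Np p v ^ β * Np p (fderiv ℝ v) ^ (1 - β) :=
    mul_nonneg (Real.rpow_nonneg (Np_nonneg _ _) _) (Real.rpow_nonneg (Np_nonneg _ _) _)
  have hh := fun n => Real.rpow_nonneg (hd.h_nonneg n) (1 - β)
  rw [dKop_dot hd ε hv hw]
  have t1 := tsum_le_geo (f := fun n : ℕ => ε * Real.exp n * dot v (d.E n)
      * dot w (fun x i => pd j (fun y => d.H n y i) x)) fun n => by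
    have hl := hd.l_pos n
    refine term_le (A := (d.l n)⁻¹ ^ 2 * d.h n ^ (1 - β)) (B := 1) hd hε hβ0 hβ1 ha
      (P := Np p v ^ β * Np p (fderiv ℝ v) ^ (1 - β)) (Q := Np q w)
      (m1 := mn d n ^ (1 - 1 / p.toReal)) (m2 := mn d n ^ (1 - 1 / q.toReal))
      ((bEβ hd hv hp n hβ0 hβ1).trans (le_of_eq (by ring)))
      ((bdH hd hw hq n j).trans (le_of_eq (by ring))) (mn_split hd hpq n)
      hPP (Np_nonneg _ _) (by rw [mul_one])
      (mul_nonneg (by positivity) (hh n)) (by norm_num)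
      (Real.rpow_nonneg (mn_pos hd n).le _) (Real.rpow_nonneg (mn_pos hd n).le _)
  have t2 := tsum_le_geo (f := fun n : ℕ => ε * Real.exp n * dot v (d.H n)
      * dot w (fun x i => pd j (fun y => d.E n y i) x)) fun n => by
    have hl := hd.l_pos n
    refine term_le (A := d.l n * d.h n ^ (1 - β)) (B := (d.l n)⁻¹ ^ 3) hd hε hβ0 hβ1 ha
      (P := Np p v ^ β * Np p (fderiv ℝ v) ^ (1 - β)) (Q := Np q w)
      (m1 := mn d n ^ (1 - 1 / p.toReal)) (m2 := mn d n ^ (1 - 1 / q.toReal))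
      ((bHβ hd hv hp n hβ0 hβ1).trans (le_of_eq (by ring)))
      (bdE hd hw hq n j) (mn_split hd hpq n)
      hPP (Np_nonneg _ _) (le_of_eq (by field_simp))
      (mul_nonneg hl.le (hh n)) (by positivity)
      (Real.rpow_nonneg (mn_pos hd n).le _) (Real.rpow_nonneg (mn_pos hd n).le _)
  calc _ ≤ |∑' n : ℕ, ε * Real.exp n * dot v (d.E n)
          * dot w (fun x i => pd j (fun y => d.H n y i) x)|
        + |∑' n : ℕ, ε * Real.exp n * dot v (d.H n)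
          * dot w (fun x i => pd j (fun y => d.E n y i) x)| := abs_add_le _ _
    _ ≤ _ := add_le_add t1 t2
    _ = _ := by ring

theorem Kn_tube (hd : d.Ok) {r : ℝ} (hr : 4 * d.N * d.ρ < r) (n : ℕ) : Kn d n ⊆ Tube r := by
  intro x hx
  exact ⟨hx.1.trans_lt ((hd.w_le n).trans_lt hr),
    hx.2.trans_lt (((hd.Nl_le n).trans (hd.w_le n)).trans_lt hr)⟩

theorem dot_local {r : ℝ} {v w Φ : V → V} (h : ∀ x ∈ Tube r, v x = w x)
    (hΦ : ∀ x ∉ Tube r, Φ x = 0) : dot v Φ = dot w Φ := by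
  unfold dot
  refine Finset.sum_congr rfl fun i _ => ?_
  congr 1
  funext x
  by_cases hx : x ∈ Tube r
  · rw [h x hx]
  · rw [hΦ x hx]; simp

theorem Kop_loc (hd : d.Ok) (ε : ℝ) {r : ℝ} (hr : 4 * d.N * d.ρ < r) {v w : V → V}
    (h : ∀ x ∈ Tube r, v x = w x) : Kop d ε v = Kop d ε w := by
  have e1 : ∀ n, dot v (d.E n) = dot w (d.E n) := fun n =>
    dot_local h fun x hx => hd.E_zero fun hK => hx (Kn_tube hd hr n hK)
  have e2 : ∀ n, dot v (d.H n) = dot w (d.H n) := fun n =>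
    dot_local h fun x hx => hd.H_zero fun hK => hx (Kn_tube hd hr n hK)
  unfold Kop
  simp_rw [e1, e2]

theorem Kop_supp (hd : d.Ok) (ε : ℝ) {r : ℝ} (hr : 4 * d.N * d.ρ < r) (v : V → V) {x : V}
    (hx : x ∉ Tube r) : Kop d ε v x = 0 := by
  funext i
  have hK : ∀ n, x ∉ Kn d n := fun n h => hx (Kn_tube hd hr n h)
  show syn _ d.H x i + syn _ d.E x i = 0
  rw [syn_out (K := Kn d) (fun n x hx => hd.H_zero hx) hK,
    syn_out (K := Kn d) (fun n x hx => hd.E_zero hx) hK, add_zero]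

theorem SV.spv {v : V → V} (h : SV v) : SPV v := ⟨h.smooth, h.per⟩

/-- the properties of the operator -/
theorem Kop_Smo (hd : d.Ok) {ε β δ r : ℝ} (hε : 0 ≤ ε) (hβ0 : 0 ≤ β) (hβ1 : β < 1)
    (ha : d.a ≤ (1 - β) / 4) (hδ : 4 * ε * KC hd ≤ δ) (hr : 4 * d.N * d.ρ < r) :
    Smo β δ r (Kop d ε) where
  smooth := fun v hv => SV.spv (Kop_SV hd ε hv.sv)
  divfree := fun v hv x => Kop_div hd ε hv.sv x
  linear := fun c u v hu hv => Kop_lin hd ε c hu.sv hv.sv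
  symm := fun v w hv hw => Kop_symm hd ε hv.sv hw.sv
  bound := fun p q hpq v w hv hw => (Kop_bound hd hε hβ0 hβ1 ha hpq hv.sv hw.sv).trans
    (mul_le_mul_of_nonneg_right hδ (mul_nonneg (Np_nonneg _ _) (Np_nonneg _ _)))
  order := fun p q hpq v w hv hw j => (Kop_order hd hε hβ0 hβ1 ha hpq hv.sv hw.sv j).trans
    (mul_le_mul_of_nonneg_right hδ (mul_nonneg (mul_nonneg (Real.rpow_nonneg (Np_nonneg _ _) _)
      (Real.rpow_nonneg (Np_nonneg _ _) _)) (Np_nonneg _ _)))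
  loc := fun v w _ _ h => Kop_loc hd ε hr h
  supp := fun v _ x hx => Kop_supp hd ε hr v hx

end Pool.Agent.V1183.LM
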