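import Mathlib

/-!
A change of the time variable.
-/

open Set Filter Topology MeasureTheory
open scoped ContDiff

set_option autoImplicit false

namespace Pool.Agent.V1183.LM

/-- the inverse of a bounded primitive -/
theorem time_change {f : ℝ → ℝ} (hf : ContDiff ℝ ∞ f) (hpos : ∀ s, 0 < f s) {B : ℝ}
    (hB : ∀ τ, 0 ≤ τ → ∫ s in (0 : ℝ)..τ, f s ≤ B) :
    ∃ (T : ℝ) (θ : ℝ → ℝ), 0 < T ∧ θ 0 = 0 ∧
      (∀ t ∈ Ico 0 T, ContDiffAt ℝ ∞ θ t ∧ HasDerivAt θ (f (θ t))⁻¹ t ∧ 0 ≤ θ t) ∧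
      Tendsto θ (𝓝[<] T) atTop := by
  set tt : ℝ → ℝ := fun τ => ∫ s in (0 : ℝ)..τ, f s with htt
  have hc : Continuous f := hf.continuous
  have hd : ∀ τ, HasDerivAt tt (f τ) τ := fun τ =>
    intervalIntegral.integral_hasDerivAt_right (hc.intervalIntegrable _ _)
      (hc.stronglyMeasurableAtFilter _ _) hc.continuousAt
  have hderiv : deriv tt = f := funext fun τ => (hd τ).deriv
  have hsm : ContDiff ℝ ∞ tt := by
    rw [contDiff_infty_iff_deriv]
    exact ⟨fun τ => (hd τ).differentiableAt, by rw [hderiv]; exact hf⟩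
  have hmono : StrictMono tt := strictMono_of_deriv_pos fun τ => by rw [hderiv]; exact hpos τ
  have h0 : tt 0 = 0 := by simp [htt]
  have hopen : IsOpenMap tt := by
    rw [isOpenMap_iff_nhds_le]
    intro τ
    have h1 : HasStrictDerivAt tt (f τ) τ := by
      have := hsm.contDiffAt.hasStrictDerivAt (x := τ) (by simp)
      rwa [hderiv] at this
    exact (h1.map_nhds_eq (hpos τ).ne').ge
  have hemb : IsOpenEmbedding tt :=
    .of_continuous_injective_isOpenMap hsm.continuous hmono.injective hopen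
  set e := hemb.toOpenPartialHomeomorph tt with he
  have hsource : e.source = univ := rfl
  have htarget : e.target = range tt := by
    rw [← e.image_source_eq_target, hsource, image_univ]
    rfl
  have hes : ∀ τ, e.symm (tt τ) = τ := fun τ => e.left_inv (mem_univ τ)
  have hbdd : BddAbove (range tt) := by
    refine ⟨B, ?_⟩
    rintro _ ⟨τ, rfl⟩
    rcases le_or_gt 0 τ with h | h
    · exact hB τ h
    · exact (hmono h).le.trans (hB 0 le_rfl)
  set T : ℝ := ⨆ τ, tt τ with hT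
  have hlt : ∀ τ, tt τ < T := fun τ =>
    (hmono (lt_add_one τ)).trans_le (le_ciSup hbdd (τ + 1))
  have hrange : ∀ t ∈ Ico 0 T, ∃ τ, 0 ≤ τ ∧ tt τ = t := by
    intro t ht
    obtain ⟨τ₁, hτ₁⟩ := exists_lt_of_lt_ciSup ht.2
    have h1 : 0 ≤ τ₁ := by
      by_contra h
      have := hmono (not_le.1 h)
      rw [h0] at this
      linarith [ht.1]
    obtain ⟨τ, hτ, hτ2⟩ := intermediate_value_Icc h1 hsm.continuous.continuousOn
      (show t ∈ Icc (tt 0) (tt τ₁) from ⟨by rw [h0]; exact ht.1, hτ₁.le⟩)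
    exact ⟨τ, hτ.1, hτ2⟩
  refine ⟨T, e.symm, by rw [← h0]; exact hlt 0, by rw [← h0, hes]; exact h0.symm ▸ rfl, ?_, ?_⟩
  · intro t ht
    obtain ⟨τ, hτ, rfl⟩ := hrange t ht
    have hmem : tt τ ∈ e.target := by rw [htarget]; exact mem_range_self τ
    have hde : HasDerivAt e (f τ) (e.symm (tt τ)) := by rw [hes]; exact hd τ
    refine ⟨?_, ?_, by rw [hes]; exact hτ⟩
    · exact e.contDiffAt_symm_deriv (hpos τ).ne' hmem hde hsm.contDiffAt
    · rw [hes]
      exact e.hasDerivAt_symm hmem (hpos τ).ne' hde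
  · rw [tendsto_atTop]
    intro R
    set R' := max R 0 with hR'
    have h1 : tt R' < T := hlt R'
    have h2 : ∀ᶠ t in 𝓝[<] T, tt R' < t := by
      have := Ioo_mem_nhdsLT h1
      filter_upwards [this] with t ht using ht.1
    filter_upwards [h2, self_mem_nhdsWithin] with t ht1 ht2
    have h3 : 0 ≤ tt R' := by
      rw [← h0]; exact hmono.monotone (le_max_right _ _)
    obtain ⟨τ, hτ, rfl⟩ := hrange t ⟨by linarith, ht2⟩
    rw [hes]
    exact (le_max_left _ _).trans (hmono.lt_iff_lt.1 ht1).le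

end Pool.Agent.V1183.LM
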