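import Pool.Agent.V1183.LM.Meas
import Pool.Agent.V1183.LM.Time

/-!
The solution which blows up.
-/

open Set Filter Topology MeasureTheory
open scoped ContDiff ENNReal

set_option autoImplicit false

namespace Pool.Agent.V1183.LM

open H459R3.NS Pool.Agent.V1178.NS

variable {d : Dat}

/-! ### derivatives of the transported function -/

theorem gg_diff (hd : d.Ok) (z : ℝ × V) : DifferentiableAt ℝ hd.gg z :=
  (gg_smooth hd).differentiable (by simp) z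

theorem gg_pd (hd : d.Ok) (τ : ℝ) (x : V) (j : Fin 3) :
    pd j (fun y => hd.gg (τ, y)) x = fderiv ℝ hd.gg (τ, x) ((0 : ℝ), Pi.single j 1) := by
  unfold pd
  have h1 : HasFDerivAt (fun y : V => (τ, y)) (ContinuousLinearMap.inr ℝ ℝ V) x :=
    hasFDerivAt_prodMk_right τ x
  have h2 := (gg_diff hd (τ, x)).hasFDerivAt.comp x h1
  have h3 : HasFDerivAt (fun y => hd.gg (τ, y))
      ((fderiv ℝ hd.gg (τ, x)).comp (ContinuousLinearMap.inr ℝ ℝ V)) x := h2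
  rw [h3.fderiv]
  rfl

theorem gg_pd2 (hd : d.Ok) (τ : ℝ) (x : V) : pd 2 (fun y => hd.gg (τ, y)) x = 0 := by
  have hinv : ∀ s : ℝ, hd.gg (τ, x + Pi.single 2 s) = hd.gg (τ, x) := by
    intro s
    have h0 : ∀ y : V, (y + (Pi.single 2 s : V)) 0 = y 0 := fun y => by simp
    have h1 : ∀ y : V, (y + (Pi.single 2 s : V)) 1 = y 1 := fun y => by simp
    refine gg_inv hd (fun n y => ?_) (fun y => ?_) τ x
    · unfold Dat.H Qf T2
      rw [h0, h1]
    · unfold f0 T2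
      rw [h0, h1]
  have h1 : HasDerivAt (fun s : ℝ => x + s • (Pi.single 2 (1 : ℝ) : V)) (Pi.single 2 (1 : ℝ) : V) 0 := by
    have := ((hasDerivAt_id (0 : ℝ)).smul_const (Pi.single 2 (1 : ℝ) : V)).const_add x
    simpa using this
  have h2 : HasFDerivAt (fun y => hd.gg (τ, y)) (fderiv ℝ (fun y => hd.gg (τ, y)) x)
      (x + (0 : ℝ) • (Pi.single 2 (1 : ℝ) : V)) := by
    rw [zero_smul, add_zero]
    exact ((gg_sp hd τ).diff x).hasFDerivAt
  have h3 := h2.comp_hasDerivAt (0 : ℝ) h1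
  have h4 : ((fun y => hd.gg (τ, y)) ∘ fun s : ℝ => x + s • (Pi.single 2 (1 : ℝ) : V))
      = fun _ => hd.gg (τ, x) := by
    funext s
    show hd.gg (τ, x + s • (Pi.single 2 (1 : ℝ) : V)) = _
    rw [← Pi.single_smul, smul_eq_mul, mul_one]
    exact hinv s
  rw [h4] at h3
  exact h3.unique (hasDerivAt_const _ _)

theorem transport_eq (hd : d.Ok) (τ : ℝ) (x : V) :
    fderiv ℝ hd.gg (τ, x) ((1 : ℝ), 0) = -(Wf d (τ, x) 0 * pd 0 (fun y => hd.gg (τ, y)) x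
      + Wf d (τ, x) 1 * pd 1 (fun y => hd.gg (τ, y)) x) := by
  have h := gg_transport hd τ x
  have e : (((1 : ℝ), Wf d (τ, x)) : ℝ × V) = ((1 : ℝ), (0 : V))
      + (Wf d (τ, x) 0 • (((0 : ℝ), Pi.single 0 1) : ℝ × V)
        + Wf d (τ, x) 1 • (((0 : ℝ), Pi.single 1 1) : ℝ × V)) := by
    apply Prod.ext
    · simp
    · funext i
      have h2 := Wf_two (d := d) (τ, x)
      fin_cases i
      · simp
      · simp
      · simpa using h2
  rw [e, map_add, map_add, map_smul, map_smul, ← gg_pd, ← gg_pd] at h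
  simp only [smul_eq_mul] at h
  linarith

theorem fin_mem (ρ z : ℝ) : 0 ≤ fin ρ z ∧ fin ρ z ≤ 1 :=
  ⟨mul_nonneg (fF_nonneg _) (st_nonneg _),
    mul_le_one₀ (fF_le _) (st_nonneg _) (st_le_one _)⟩

theorem f0_abs (x : V) : |f0 d x| ≤ 1 := by
  have h1 := fin_mem d.ρ (Int.fract (x 0))
  have h2 : 0 ≤ chi (Int.fract (x 1)) ∧ chi (Int.fract (x 1)) ≤ 1 := ⟨st_nonneg _, st_le_one _⟩
  show |fin d.ρ (Int.fract (x 0)) * chi (Int.fract (x 1))| ≤ 1
  rw [abs_of_nonneg (mul_nonneg h1.1 h2.1)]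
  exact mul_le_one₀ h1.2 h2.1 h2.2

theorem uu_le (hd : d.Ok) (τ : ℝ) (x : V) : ‖hd.uu τ x‖ ≤ 1 := by
  rw [pi_norm_le_iff_of_nonneg zero_le_one]
  intro i
  fin_cases i
  · show ‖(0 : ℝ)‖ ≤ 1
    simp
  · show ‖(0 : ℝ)‖ ≤ 1
    simp
  · exact f0_abs _

/-- steep gradient -/
theorem steep (hd : d.Ok) {τ M : ℝ} (hτ : 0 ≤ τ) (hM : M * d.ρ < 8 * Real.exp τ) :
    ∃ x, M < ‖fderiv ℝ (hd.uu τ) x‖ := by
  by_contra hcon
  push Not at hcon
  have hρ := hd.ρ0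
  have hρ1 : d.ρ ≤ 1 / 32 := by
    have := Nl_small hd 0
    have e : d.l 0 = d.ρ := by unfold Dat.l; simp
    rw [e] at this
    have := hd.N50
    nlinarith
  have he := Real.exp_pos (-τ)
  have he1 : Real.exp (-τ) ≤ 1 := Real.exp_le_one_iff.2 (by linarith)
  have hexp : Real.exp τ * Real.exp (-τ) = 1 := by rw [← Real.exp_add]; simp
  set X₁ : ℝ := d.ρ / 8 * Real.exp (-τ) with hX1
  set X₂ : ℝ := d.ρ / 4 * Real.exp (-τ) with hX2
  have k := kap_pos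
  have h1 : 0 < X₁ := by positivity
  have h2 : 0 < X₂ := by positivity
  have h3 : X₁ ≤ 1 / 16 := by nlinarith
  have h4 : X₂ ≤ 1 / 16 := by nlinarith
  have g1 := gg_axis (z := 0) hd hτ h1 h3 (Y₀ := 0) (by rw [abs_zero]; positivity)
  have g2 := gg_axis (z := 0) hd hτ h2 h4 (Y₀ := 0) (by rw [abs_zero]; positivity)
  rw [fF_zero (le_of_eq (by
    rw [hX1]
    calc 8 * (Real.exp τ * (d.ρ / 8 * Real.exp (-τ))) / d.ρ
        = (Real.exp τ * Real.exp (-τ)) * (d.ρ / d.ρ) := by ring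
      _ = 1 := by rw [hexp, div_self hρ.ne', one_mul]))] at g1
  rw [fF_one (ge_of_eq (by
    rw [hX2]
    calc 8 * (Real.exp τ * (d.ρ / 4 * Real.exp (-τ))) / d.ρ
        = 2 * (Real.exp τ * Real.exp (-τ)) * (d.ρ / d.ρ) := by ring
      _ = 2 := by rw [hexp, div_self hρ.ne']; norm_num))] at g2
  have hmv := (convex_univ (𝕜 := ℝ) (E := V)).norm_image_sub_le_of_norm_fderiv_le
    (f := hd.uu τ) (C := M) (fun x _ => ((uu_SV hd τ).smooth.differentiable (by simp)) x)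
    (fun x _ => hcon x) (mem_univ (pt X₁ 0 0)) (mem_univ (pt X₂ 0 0))
  have h5 : (1 : ℝ) ≤ ‖hd.uu τ (pt X₂ 0 0) - hd.uu τ (pt X₁ 0 0)‖ := by
    refine le_trans (le_of_eq ?_) (norm_le_pi_norm _ 2)
    show (1 : ℝ) = ‖hd.gg (τ, pt X₂ 0 0) - hd.gg (τ, pt X₁ 0 0)‖
    rw [g1, g2, sub_zero, norm_one]
  have h6 : ‖pt X₂ 0 0 - pt X₁ 0 0‖ ≤ d.ρ / 8 * Real.exp (-τ) := by
    rw [pi_norm_le_iff_of_nonneg (by positivity)]
    intro i
    fin_cases i
    · show ‖(1 / 2 + X₂) - (1 / 2 + X₁)‖ ≤ _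
      have e : (1 / 2 + X₂) - (1 / 2 + X₁) = d.ρ / 8 * Real.exp (-τ) := by
        rw [hX1, hX2]; ring
      rw [e, Real.norm_eq_abs, abs_of_pos (by positivity)]
    · show ‖((1 : ℝ) / 2 + 0) - (1 / 2 + 0)‖ ≤ _
      rw [sub_self, norm_zero]; positivity
    · show ‖(0 : ℝ) - 0‖ ≤ _
      rw [sub_self, norm_zero]; positivity
  have hM0 : 0 ≤ M := (norm_nonneg _).trans (hcon 0)
  have h7 : 1 ≤ M * (d.ρ / 8 * Real.exp (-τ)) := h5.trans (hmv.trans (by gcongr))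
  have h8 : M * (d.ρ / 8 * Real.exp (-τ)) < 1 := by
    calc M * (d.ρ / 8 * Real.exp (-τ)) = M * d.ρ * (Real.exp (-τ) / 8) := by ring
      _ < 8 * Real.exp τ * (Real.exp (-τ) / 8) := by gcongr
      _ = Real.exp τ * Real.exp (-τ) := by ring
      _ = 1 := hexp
  linarith

/-- the momentum equation -/
theorem momentum (hd : d.Ok) {ε : ℝ} {θ : ℝ → ℝ} {t : ℝ} (hθ0 : 0 ≤ θ t)
    (hθ : HasDerivAt θ (ε * SS d (θ t)) t) (x : V) (i : Fin 3) :
    deriv (fun s => hd.uu (θ s) x i) t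
      + ∑ j, hd.uu (θ t) x j * pd j (fun y => hd.uu (θ t) y i) x
      + pd i (fun _ : V => (0 : ℝ)) x
      + crossProduct (curl (hd.uu (θ t)) x) (Kop d ε (hd.uu (θ t)) x) i = 0 := by
  have z0 : ∀ j, pd j (fun y => hd.uu (θ t) y 0) x = 0 := fun j => Dat.pd_const0 j x
  have z1 : ∀ j, pd j (fun y => hd.uu (θ t) y 1) x = 0 := fun j => Dat.pd_const0 j x
  have z2 : pd 2 (fun y => hd.uu (θ t) y 2) x = 0 := gg_pd2 hd (θ t) x
  have u0 : hd.uu (θ t) x 0 = 0 := rfl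
  have u1 : hd.uu (θ t) x 1 = 0 := rfl
  have hc : curl (hd.uu (θ t)) x = ![pd 1 (fun y => hd.gg (θ t, y)) x,
      -pd 0 (fun y => hd.gg (θ t, y)) x, 0] := by
    unfold curl
    simp only [z0, z1]
    have e : (fun y => hd.uu (θ t) y 2) = fun y => hd.gg (θ t, y) := rfl
    rw [e, sub_zero, zero_sub, sub_zero]
  have k2 : Kop d ε (hd.uu (θ t)) x 2 = 0 := by
    rw [Kop_uu hd ε hθ0, Wf_two, mul_zero]
  rw [Fin.sum_univ_three, u0, u1, zero_mul, zero_mul, zero_add, zero_add, Dat.pd_const0, add_zero,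
    cross_apply, hc, k2]
  fin_cases i
  · have e : deriv (fun s => hd.uu (θ s) x 0) t = 0 := by
      show deriv (fun _ => (0 : ℝ)) t = 0
      simp
    show deriv (fun s => hd.uu (θ s) x 0) t
      + hd.uu (θ t) x 2 * pd 2 (fun y => hd.uu (θ t) y 0) x + _ = 0
    rw [e, z0]
    simp
  · have e : deriv (fun s => hd.uu (θ s) x 1) t = 0 := by
      show deriv (fun _ => (0 : ℝ)) t = 0
      simp
    show deriv (fun s => hd.uu (θ s) x 1) t
      + hd.uu (θ t) x 2 * pd 2 (fun y => hd.uu (θ t) y 1) x + _ = 0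
    rw [e, z1]
    simp
  · have hg : HasDerivAt (fun s => hd.uu (θ s) x 2)
        (ε * SS d (θ t) * fderiv ℝ hd.gg (θ t, x) ((1 : ℝ), 0)) t := by
      have h1 : HasDerivAt (fun s => ((θ s, x) : ℝ × V)) (ε * SS d (θ t), 0) t :=
        hθ.prodMk (hasDerivAt_const t x)
      have h2 : HasDerivAt (fun s => hd.gg (θ s, x))
          (fderiv ℝ hd.gg (θ t, x) (ε * SS d (θ t), 0)) t :=
        HasFDerivAt.comp_hasDerivAt (f := fun s => ((θ s, x) : ℝ × V)) t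
          (gg_diff hd (θ t, x)).hasFDerivAt h1
      have e : ((ε * SS d (θ t), 0) : ℝ × V) = (ε * SS d (θ t)) • (((1 : ℝ), 0) : ℝ × V) := by
        apply Prod.ext <;> simp
      rw [e, map_smul, smul_eq_mul] at h2
      exact h2
    show deriv (fun s => hd.uu (θ s) x 2) t
      + hd.uu (θ t) x 2 * pd 2 (fun y => hd.uu (θ t) y 2) x
      + (pd 1 (fun y => hd.gg (θ t, y)) x * Kop d ε (hd.uu (θ t)) x 1
        - -pd 0 (fun y => hd.gg (θ t, y)) x * Kop d ε (hd.uu (θ t)) x 0) = 0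
    rw [hg.deriv, z2, mul_zero, add_zero, Kop_uu hd ε hθ0, Kop_uu hd ε hθ0, transport_eq]
    ring

/-- the blow-up -/
theorem blowup (hd : d.Ok) {ε : ℝ} (hε : 0 < ε) :
    ∃ (T : ℝ) (u : ℝ → V → V) (p : ℝ → V → ℝ), 0 < T ∧ LSol T (Kop d ε) u p ∧
      (∀ t x, ‖u t x‖ ≤ 1) ∧ ∀ M, ∀ᶠ t in 𝓝[<] T, ∃ x, M < ‖fderiv ℝ (u t) x‖ := by
  have hS := SS_pos hd
  have ha := hd.a0
  have hB : ∀ τ, 0 ≤ τ → ∫ s in (0 : ℝ)..τ, (ε * SS d s)⁻¹ ≤ ε⁻¹ * Real.exp 1 * d.a⁻¹ := by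
    intro τ hτ
    have hcont : Continuous (fun s => (ε * SS d s)⁻¹) :=
      (continuous_const.mul (SS_smooth hd).continuous).inv₀ fun s => (mul_pos hε (hS s)).ne'
    have hcont2 : Continuous (fun s => ε⁻¹ * Real.exp 1 * Real.exp (-(d.a * s))) := by fun_prop
    have h1 : ∫ s in (0 : ℝ)..τ, (ε * SS d s)⁻¹
        ≤ ∫ s in (0 : ℝ)..τ, ε⁻¹ * Real.exp 1 * Real.exp (-(d.a * s)) := by
      refine intervalIntegral.integral_mono_on hτ (hcont.intervalIntegrable _ _)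
        (hcont2.intervalIntegrable _ _) fun s hs => ?_
      rw [mul_inv, mul_assoc]
      refine mul_le_mul_of_nonneg_left ?_ (inv_pos.2 hε).le
      have h4 := SS_ge hd hs.1
      rw [← Real.exp_add, inv_le_comm₀ (hS s) (Real.exp_pos _), ← Real.exp_neg]
      refine le_trans (le_of_eq ?_) h4
      congr 1
      ring
    refine h1.trans ?_
    have h2 : ∀ s ∈ uIcc 0 τ, HasDerivAt (fun s => -(ε⁻¹ * Real.exp 1 * d.a⁻¹) *
        Real.exp (-(d.a * s))) (ε⁻¹ * Real.exp 1 * Real.exp (-(d.a * s))) s := by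
      intro s _
      have e2 : HasDerivAt (fun s => -(d.a * s)) (-d.a) s := by
        have h := (hasDerivAt_id s).const_mul (-d.a)
        rw [mul_one] at h
        refine h.congr_of_eventuallyEq (Eventually.of_forall fun y => ?_)
        show -(d.a * y) = -d.a * y
        ring
      refine ((e2.exp).const_mul (-(ε⁻¹ * Real.exp 1 * d.a⁻¹))).congr_deriv ?_
      field_simp
    rw [intervalIntegral.integral_eq_sub_of_hasDerivAt h2 (hcont2.intervalIntegrable _ _)]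
    rw [mul_zero, neg_zero, Real.exp_zero]
    have h3 : 0 ≤ ε⁻¹ * Real.exp 1 * d.a⁻¹ * Real.exp (-(d.a * τ)) := by positivity
    linarith
  obtain ⟨T, θ, hT, hθ0, hθ, hθT⟩ := time_change (f := fun s => (ε * SS d s)⁻¹)
    ((contDiff_const.mul (SS_smooth hd)).inv fun s => (mul_pos hε (hS s)).ne')
    (fun s => inv_pos.2 (mul_pos hε (hS s))) hB
  refine ⟨T, fun t => hd.uu (θ t), fun _ _ => 0, hT, ?_, fun t x => uu_le hd _ x, fun M => ?_⟩
  · refine ⟨?_, contDiffOn_const, fun t _ => (uu_SV hd (θ t)).per, fun t _ i x => rfl,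
      fun t _ x => ?_, fun t ht x i => ?_⟩
    · intro z hz
      have hz1 : ContDiffAt ℝ ∞ θ z.1 := (hθ z.1 hz.1).1
      have h1 : ContDiffAt ℝ ∞ (fun z : ℝ × V => ((θ z.1, z.2) : ℝ × V)) z :=
        (hz1.comp z contDiffAt_fst).prodMk contDiffAt_snd
      refine ContDiffAt.contDiffWithinAt ?_
      rw [contDiffAt_pi]
      intro i
      fin_cases i
      · exact contDiffAt_const
      · exact contDiffAt_const
      · exact ((gg_smooth hd).contDiffAt).comp z h1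
    · rw [Fin.sum_univ_three]
      have z0 : pd 0 (fun y => hd.uu (θ t) y 0) x = 0 := Dat.pd_const0 0 x
      have z1 : pd 1 (fun y => hd.uu (θ t) y 1) x = 0 := Dat.pd_const0 1 x
      have z2 : pd 2 (fun y => hd.uu (θ t) y 2) x = 0 := gg_pd2 hd (θ t) x
      rw [z0, z1, z2]
      norm_num
    · obtain ⟨-, h2, h3⟩ := hθ t ⟨ht.1.le, ht.2⟩
      rw [inv_inv] at h2
      exact momentum hd h3 h2 x i
  · have h1 : ∀ᶠ τ in atTop, 0 ≤ τ ∧ M * d.ρ < 8 * Real.exp τ := by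
      have h2 : Tendsto (fun τ => 8 * Real.exp τ) atTop atTop :=
        Real.tendsto_exp_atTop.const_mul_atTop (by norm_num)
      exact (eventually_ge_atTop 0).and (h2.eventually_gt_atTop _)
    filter_upwards [hθT.eventually h1] with t ht
    exact steep hd ht.1 ht.2

/-- choice of the parameters -/
theorem exists_dat {β r : ℝ} (hβ1 : β < 1) (hr : 0 < r) :
    ∃ d : Dat, d.Ok ∧ d.a ≤ (1 - β) / 4 ∧ 4 * d.N * d.ρ < r := by
  set a : ℝ := min (1 / 4) (min ((1 - β) / 4) (Real.exp (-1) / M1)) with ha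
  have hM := M1_pos
  have h1 : 0 < (1 - β) / 4 := by linarith
  have ha0 : 0 < a := lt_min (by norm_num) (lt_min h1 (div_pos (Real.exp_pos _) hM))
  set N : ℝ := Real.exp (1 / a) with hN
  have hN0 : 0 < N := Real.exp_pos _
  set ρ : ℝ := min (1 / (32 * N)) (r / (8 * N)) with hρ
  have hρ0 : 0 < ρ := lt_min (by positivity) (by positivity)
  refine ⟨⟨a, ρ⟩, ⟨ha0, min_le_left _ _, ?_, hρ0, ?_⟩, ?_, ?_⟩
  · have h2 : a ≤ Real.exp (-1) / M1 := (min_le_right _ _).trans (min_le_right _ _)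
    rwa [le_div_iff₀ hM] at h2
  · have h2 : ρ ≤ 1 / (32 * N) := min_le_left _ _
    rw [le_div_iff₀ (by positivity)] at h2
    show 32 * N * ρ ≤ 1
    linarith
  · exact (min_le_right _ _).trans (min_le_left _ _)
  · have h2 : ρ ≤ r / (8 * N) := min_le_right _ _
    rw [le_div_iff₀ (by positivity)] at h2
    show 4 * N * ρ < r
    linarith

/-- the main result -/
theorem main {β δ r : ℝ} (hβ0 : 0 ≤ β) (hβ1 : β < 1) (hδ : 0 < δ) (hr : 0 < r) :
    ∃ K : (V → V) → V → V, Smo β δ r K ∧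
      ∃ (T : ℝ) (u : ℝ → V → V) (p : ℝ → V → ℝ), 0 < T ∧ LSol T K u p ∧
        (∀ t x, ‖u t x‖ ≤ 1) ∧ ∀ M, ∀ᶠ t in 𝓝[<] T, ∃ x, M < ‖fderiv ℝ (u t) x‖ := by
  obtain ⟨d, hd, ha, hρ⟩ := exists_dat hβ1 hr
  have hK := KC_pos hd
  set ε : ℝ := δ / (4 * KC hd) with hε
  have hε0 : 0 < ε := by positivity
  refine ⟨Kop d ε, Kop_Smo hd hε0.le hβ0 hβ1 ha (le_of_eq ?_) hρ, blowup hd hε0⟩
  rw [hε]
  field_simp

end Pool.Agent.V1183.LM
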