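import Pool.Agent.V1183.LM.Traj2
import Pool.Agent.V1183.LM.Kop

/-!
The measured values.
-/

open Set Filter Topology MeasureTheory
open scoped ContDiff ENNReal

set_option autoImplicit false

namespace Pool.Agent.V1183.LM

open H459R3.NS Pool.Agent.V1178.NS

variable {d : Dat}

/-- the integral of a product over the cube -/
theorem int_prod (f g : ℝ → ℝ) : ∫ x in cube, f (x 0) * g (x 1)
    = (∫ z in Icc (0 : ℝ) 1, f z) * ∫ z in Icc (0 : ℝ) 1, g z := by
  have e1 : (volume.restrict cube : Measure V)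
      = Measure.pi (fun _ : Fin 3 => (volume : Measure ℝ).restrict (Icc 0 1)) := by
    have h1 : (cube : Set V) = Set.univ.pi (fun _ : Fin 3 => Icc (0 : ℝ) 1) := by
      rw [pi_univ_Icc]; rfl
    rw [h1, volume_pi, Measure.restrict_pi_pi]
  have e2 : ∀ x : V, f (x 0) * g (x 1) = ∏ i : Fin 3, (![f, g, fun _ => 1] i) (x i) := by
    intro x
    rw [Fin.prod_univ_three]
    simp
  rw [e1]
  simp_rw [e2]
  rw [integral_fintype_prod_eq_prod (𝕜 := ℝ) (f := fun i => (![f, g, fun _ => 1] : Fin 3 → ℝ → ℝ) i),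
    Fin.prod_univ_three]
  simp

theorem int_sc {h : ℝ → ℝ} {α β l : ℝ} (hl : 0 < l) (hh : ∀ z, z ∉ Icc α β → h z = 0)
    (h1 : 0 ≤ 1 / 2 + α * l) (h2 : 1 / 2 + β * l ≤ 1) :
    ∫ z in Icc (0 : ℝ) 1, h ((z - 1 / 2) / l) = l * ∫ z, h z := by
  rw [setIntegral_eq_integral_of_forall_compl_eq_zero]
  · have e1 : ∫ z, h ((z - 1 / 2) / l) = ∫ z, h (z / l) :=
      integral_sub_right_eq_self (fun z => h (z / l)) (1 / 2)
    rw [e1, Measure.integral_comp_div, abs_of_pos hl, smul_eq_mul]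
  · intro z hz
    apply hh
    intro h3
    apply hz
    have h4 := (le_div_iff₀ hl).1 h3.1
    have h5 := (div_le_iff₀ hl).1 h3.2
    exact ⟨by linarith, by linarith⟩

theorem beta_int_eq (s : ℝ) : ∫ Z, fF (s * Z) * ph1 Z = beta s := by
  unfold beta
  rw [intervalIntegral.integral_of_le (by norm_num), setIntegral_eq_integral_of_forall_compl_eq_zero]
  intro x hx
  rw [ph1_supp fun h => hx ⟨by linarith [h.1], by linarith [h.2]⟩, mul_zero]

/-- the velocity at the time `τ` -/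
noncomputable def Dat.Ok.uu (hd : d.Ok) (τ : ℝ) (x : V) : V := ![0, 0, hd.gg (τ, x)]

theorem gg_per (hd : d.Ok) (τ : ℝ) (i : Fin 3) (x : V) :
    hd.gg (τ, x + Pi.single i 1) = hd.gg (τ, x) :=
  gg_inv hd (fun n x => (hd.H_SV n).per i x) (fun x => f0_sp.per i x) τ x

theorem gg_sp (hd : d.Ok) (τ : ℝ) : SP (fun x => hd.gg (τ, x)) where
  smooth := (gg_smooth hd).comp (contDiff_const.prodMk contDiff_id)
  per := fun i x => gg_per hd τ i x

theorem uu_SV (hd : d.Ok) (τ : ℝ) : SV (hd.uu τ) := by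
  intro i
  fin_cases i
  · exact sp_const 0
  · exact sp_const 0
  · exact gg_sp hd τ

theorem uu_H (hd : d.Ok) (τ : ℝ) (n : ℕ) : dot (hd.uu τ) (d.H n) = 0 := by
  unfold dot
  rw [Fin.sum_univ_three]
  have e0 : ∀ x, hd.uu τ x 0 * d.H n x 0 = 0 := fun x => by
    show (0 : ℝ) * _ = 0
    rw [zero_mul]
  have e1 : ∀ x, hd.uu τ x 1 * d.H n x 1 = 0 := fun x => by
    show (0 : ℝ) * _ = 0
    rw [zero_mul]
  have e2 : ∀ x, hd.uu τ x 2 * d.H n x 2 = 0 := fun x => by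
    show _ * (0 : ℝ) = 0
    rw [mul_zero]
  simp_rw [e0, e1, e2]
  simp

theorem pt_eta (x : V) : x = pt (x 0 - 1 / 2) (x 1 - 1 / 2) (x 2) := by
  funext i
  fin_cases i
  · show x 0 = 1 / 2 + (x 0 - 1 / 2)
    ring
  · show x 1 = 1 / 2 + (x 1 - 1 / 2)
    ring
  · rfl

/-- the integrand -/
theorem integrand (hd : d.Ok) {τ : ℝ} (hτ : 0 ≤ τ) (n : ℕ) {x : V} (hx : x ∈ cube) :
    hd.gg (τ, x) * Pf d ph1 ph2 0 n x
      = (fun Z => fF (8 * Real.exp τ * d.l n / d.ρ * Z) * ph1 Z) ((x 0 - 1 / 2) / d.l n)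
        * ph2 ((x 1 - 1 / 2) / d.l n) := by
  have hl := hd.l_pos n
  have hls := l_small hd n
  have hρ := hd.ρ0
  have hx0 : ∀ i, x i ∈ Icc (0 : ℝ) 1 := fun i => ⟨hx.1 i, hx.2 i⟩
  have hp := hd.pairE
  have e1 : per1 (sc ph2 (d.l n)) (x 1) = ph2 ((x 1 - 1 / 2) / d.l n) :=
    per1_Icc (hp.s1g0 hd n).sup (hx0 1)
  rw [← Qf_zero]
  show hd.gg (τ, x) * (per1 (iteratedDeriv 0 ((Th (d.h n))^[n + 1] (sc ph1 (d.l n)))) (x 0)
    * per1 (iteratedDeriv 0 (sc ph2 (d.l n))) (x 1)) = _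
  rw [iteratedDeriv_zero (f := sc ph2 (d.l n)), e1]
  rcases lt_or_ge (x 0) (1 / 2) with h | h
  · have e2 : ph1 ((x 0 - 1 / 2) / d.l n) = 0 := by
      refine ph1_supp fun h1 => ?_
      have h2 := (le_div_iff₀ hl).1 h1.1
      linarith
    show _ = fF _ * ph1 ((x 0 - 1 / 2) / d.l n) * _
    rw [e2, mul_zero, zero_mul]
    rcases lt_or_ge (x 0) (1 / 4) with h1 | h1
    · have e3 : per1 (iteratedDeriv 0 ((Th (d.h n))^[n + 1] (sc ph1 (d.l n)))) (x 0) = 0 := by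
        rw [per1_Icc (hp.s1f hd 0 n).sup (hx0 0)]
        exact (hp.s1f hd 0 n).sup _ fun h2 => by linarith [h2.1]
      rw [e3]
      ring
    · rw [gg_left hd τ ⟨h1, h.le⟩, zero_mul]
  · rw [tit_right hp hd 0 n ⟨h, (hx0 0).2⟩, pow_zero, one_mul, iteratedDeriv_zero]
    show _ = fF (8 * Real.exp τ * d.l n / d.ρ * ((x 0 - 1 / 2) / d.l n))
      * ph1 ((x 0 - 1 / 2) / d.l n) * _
    by_cases h1 : (x 0 - 1 / 2) / d.l n ∈ Icc (1 / 4 : ℝ) (1 / 2)
    · by_cases h2 : (x 1 - 1 / 2) / d.l n ∈ Icc (-(kap / 4)) (kap / 4)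
      · have h3 := (le_div_iff₀ hl).1 h1.1
        have h4 := (div_le_iff₀ hl).1 h1.2
        have h5 := (le_div_iff₀ hl).1 h2.1
        have h6 := (div_le_iff₀ hl).1 h2.2
        have hk := kap_pos
        have h7 : |x 1 - 1 / 2| ≤ kap * (x 0 - 1 / 2) := by
          rw [abs_le]
          constructor <;> nlinarith
        have h8 := gg_axis (z := x 2) hd hτ (X₀ := x 0 - 1 / 2) (Y₀ := x 1 - 1 / 2) (by linarith)
          (by linarith) h7
        rw [← pt_eta] at h8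
        rw [h8]
        have e3 : 8 * (Real.exp τ * (x 0 - 1 / 2)) / d.ρ
            = 8 * Real.exp τ * d.l n / d.ρ * ((x 0 - 1 / 2) / d.l n) := by
          field_simp
        rw [e3]
        ring
      · rw [ph2_supp h2]
        ring
    · rw [ph1_supp h1]
      ring

theorem uu_E (hd : d.Ok) {τ : ℝ} (hτ : 0 ≤ τ) (n : ℕ) : dot (hd.uu τ) (d.E n) = wt d n τ := by
  have hl := hd.l_pos n
  have hls := l_small hd n
  have hρ := hd.ρ0
  have hk := kap_le
  have hk0 := kap_pos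
  rw [Dat.dotE]
  have e1 : ∫ x in cube, hd.uu τ x 2 * Pf d ph1 ph2 0 n x
      = ∫ x in cube, (fun z => (fun Z => fF (8 * Real.exp τ * d.l n / d.ρ * Z) * ph1 Z)
        ((z - 1 / 2) / d.l n)) (x 0) * (fun z => ph2 ((z - 1 / 2) / d.l n)) (x 1) := by
    refine setIntegral_congr_fun measurableSet_Icc fun x hx => ?_
    exact integrand hd hτ n hx
  rw [e1, int_prod (fun z => (fun Z => fF (8 * Real.exp τ * d.l n / d.ρ * Z) * ph1 Z)
    ((z - 1 / 2) / d.l n)) (fun z => ph2 ((z - 1 / 2) / d.l n))]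
  rw [int_sc (h := fun Z => fF (8 * Real.exp τ * d.l n / d.ρ * Z) * ph1 Z) (α := 1 / 4)
    (β := 1 / 2) hl (fun z hz => by rw [ph1_supp hz, mul_zero]) (by positivity) (by linarith),
    int_sc (h := ph2) (α := -(kap / 4)) (β := kap / 4) hl (fun z hz => ph2_supp hz)
    (by nlinarith) (by nlinarith), ph2_int, beta_int_eq]
  have e2 : (d.l n)⁻¹ ^ 2 * (d.l n * beta (8 * Real.exp τ * d.l n / d.ρ) * (d.l n * 1))
      = beta (8 * Real.exp τ * d.l n / d.ρ) := by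
    field_simp
  rw [e2]
  have e3 : 8 * Real.exp τ * d.l n / d.ρ = 8 * Real.exp τ / d.N ^ n := by
    unfold Dat.l
    field_simp
  rw [e3]
  unfold wt
  split_ifs with h
  · subst h
    apply beta_one
    have := Real.one_le_exp hτ
    rw [pow_zero, div_one]
    linarith
  · rfl

/-- the operator at the solution -/
theorem Kop_uu (hd : d.Ok) (ε : ℝ) {τ : ℝ} (hτ : 0 ≤ τ) (x : V) (i : Fin 3) :
    Kop d ε (hd.uu τ) x i = ε * SS d τ * Wf d (τ, x) i := by
  show (∑' n : ℕ, ε * Real.exp n * dot (hd.uu τ) (d.E n) * d.H n x i)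
    + (∑' n : ℕ, ε * Real.exp n * dot (hd.uu τ) (d.H n) * d.E n x i) = _
  simp_rw [uu_E hd hτ, uu_H hd τ, mul_zero, zero_mul, tsum_zero, add_zero]
  have hS := SS_pos hd τ
  have e : ∀ n : ℕ, ε * Real.exp n * wt d n τ * d.H n x i = ε * (qn d n τ * d.H n x i) := fun n => by
    unfold qn; ring
  simp_rw [e]
  rw [tsum_mul_left]
  show ε * ∑' n, qn d n τ * d.H n x i
    = ε * SS d τ * ((SS d τ)⁻¹ * ∑' n, qn d n τ * d.H n x i)
  field_simp

end Pool.Agent.V1183.LM
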