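import Pool.Agent.V1178.NS.Dec

/-!
Rapidly decreasing sequences and series of fields (adapted from `Pool.Agent.V1178.NS.Seq` and
`Pool.Agent.V1178.NS.Syn` of helper78).
-/

open Set Filter Topology MeasureTheory
open scoped ContDiff ENNReal

set_option autoImplicit false

namespace Pool.Agent.V1183.LM

open H459R3.NS Pool.Agent.V1178.NS

/-- rapidly decreasing sequences -/
def Rap (L : ℕ → ℝ) (a : ℕ → ℝ) : Prop := ∀ k : ℕ, ∃ C, ∀ n, L n ^ k * |a n| ≤ C

section rap

variable {L a b : ℕ → ℝ}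

theorem Rap.mul_pol (hL : ∀ n, 1 ≤ L n) (ha : Rap L a) (hb : Pol L b) :
    Rap L (fun n => a n * b n) := by
  intro k
  obtain ⟨K, m, hK, h⟩ := hb
  obtain ⟨C, hC⟩ := ha (k + m)
  refine ⟨C * K, fun n => ?_⟩
  have h1 : 0 ≤ L n ^ k := pow_nonneg (by linarith [hL n]) k
  calc L n ^ k * |a n * b n| = L n ^ k * |a n| * |b n| := by rw [abs_mul]; ring
    _ ≤ L n ^ k * |a n| * (K * L n ^ m) := by gcongr; exact h n
    _ = (L n ^ (k + m) * |a n|) * K := by rw [pow_add]; ring
    _ ≤ C * K := by gcongr; exact hC n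

theorem Rap.pol (ha : Rap L a) : Pol L a := by
  obtain ⟨C, hC⟩ := ha 0
  refine ⟨|C|, 0, abs_nonneg _, fun n => ?_⟩
  have := hC n
  rw [pow_zero, one_mul] at this
  rw [pow_zero, mul_one]
  exact this.trans (le_abs_self C)

theorem Rap.mul (hL : ∀ n, 1 ≤ L n) (ha : Rap L a) (hb : Rap L b) :
    Rap L (fun n => a n * b n) := ha.mul_pol hL hb.pol

theorem Rap.cmul (hL : ∀ n, 1 ≤ L n) (ha : Rap L a) (c : ℝ) : Rap L (fun n => c * a n) := by
  have := ha.mul_pol hL (Pol.const (L := L) c)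
  simpa only [mul_comm] using this

theorem Rap.add (hL : ∀ n, 1 ≤ L n) (ha : Rap L a) (hb : Rap L b) :
    Rap L (fun n => a n + b n) := by
  intro k
  obtain ⟨C, hC⟩ := ha k
  obtain ⟨D, hD⟩ := hb k
  refine ⟨C + D, fun n => ?_⟩
  have h1 : 0 ≤ L n ^ k := pow_nonneg (by linarith [hL n]) k
  calc L n ^ k * |a n + b n| ≤ L n ^ k * (|a n| + |b n|) := by gcongr; exact abs_add_le _ _
    _ = L n ^ k * |a n| + L n ^ k * |b n| := by ring
    _ ≤ C + D := add_le_add (hC n) (hD n)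

theorem Rap.of_le (hL : ∀ n, 1 ≤ L n) (hb : Rap L b) (h : ∀ n, |a n| ≤ |b n|) : Rap L a := by
  intro k
  obtain ⟨C, hC⟩ := hb k
  refine ⟨C, fun n => ?_⟩
  have h1 : 0 ≤ L n ^ k := pow_nonneg (by linarith [hL n]) k
  exact (mul_le_mul_of_nonneg_left (h n) h1).trans (hC n)

theorem Rap.neg (hL : ∀ n, 1 ≤ L n) (ha : Rap L a) : Rap L (fun n => -a n) :=
  ha.of_le hL fun n => by rw [abs_neg]

theorem Rap.sub (hL : ∀ n, 1 ≤ L n) (ha : Rap L a) (hb : Rap L b) :
    Rap L (fun n => a n - b n) := by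
  have := ha.add hL (hb.neg hL)
  simpa only [sub_eq_add_neg] using this

theorem Rap.abs (hL : ∀ n, 1 ≤ L n) (ha : Rap L a) : Rap L (fun n => |a n|) :=
  ha.of_le hL fun n => by rw [abs_abs]

theorem Rap.summable (hL : ∀ n, 1 ≤ L n) (hs : Summable fun n => (L n)⁻¹) (ha : Rap L a) :
    Summable a := by
  obtain ⟨C, hC⟩ := ha 1
  refine Summable.of_norm_bounded (hs.mul_left C) fun n => ?_
  have h1 := hC n
  have h2 : 0 < L n := by linarith [hL n]
  rw [pow_one] at h1
  rw [Real.norm_eq_abs, ← div_eq_mul_inv, le_div_iff₀ h2]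
  linarith

theorem Rap.shl (hL : ∀ n, 1 ≤ L n) (hm : Monotone L) (ha : Rap L a) :
    Rap L (fun n => a (n + 1)) := by
  intro k
  obtain ⟨C, hC⟩ := ha k
  refine ⟨C, fun n => ?_⟩
  have h1 : L n ≤ L (n + 1) := hm (Nat.le_succ n)
  have h2 : 0 ≤ L n := by linarith [hL n]
  exact (mul_le_mul_of_nonneg_right (pow_le_pow_left₀ h2 h1 k) (abs_nonneg _)).trans (hC (n + 1))

theorem Rap.shr (hL : ∀ n, 1 ≤ L n) {lam : ℝ} (hg : ∀ n, L (n + 1) = lam * L n) (ha : Rap L a) :
    Rap L (fun n => if n = 0 then 0 else a (n - 1)) := by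
  intro k
  obtain ⟨C, hC⟩ := ha k
  refine ⟨|lam| ^ k * |C|, fun n => ?_⟩
  rcases n with _ | n
  · simp
    positivity
  · simp only [Nat.succ_ne_zero, if_false, Nat.add_sub_cancel]
    have h2 : 0 ≤ L n ^ k := pow_nonneg (by linarith [hL n]) k
    rw [hg n, mul_pow]
    have h5 : lam ^ k ≤ |lam| ^ k := by rw [← abs_pow]; exact le_abs_self _
    calc lam ^ k * L n ^ k * |a n| ≤ |lam| ^ k * L n ^ k * |a n| :=
          mul_le_mul_of_nonneg_right (mul_le_mul_of_nonneg_right h5 h2) (abs_nonneg _)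
      _ = |lam| ^ k * (L n ^ k * |a n|) := by ring
      _ ≤ |lam| ^ k * |C| := by
        gcongr
        exact (hC n).trans (le_abs_self C)

theorem Rap.tail (hL : ∀ n, 1 ≤ L n) (hs : Summable fun n => (L n)⁻¹) (hm : Monotone L)
    (ha : Rap L a) : Rap L (fun n => ∑' m : ℕ, a (n + 1 + m)) := by
  intro k
  have hb : Rap L (fun n => L n ^ k * |a n|) := by
    have := (ha.abs hL).mul_pol hL ((Pol.self hL).pow k)
    simpa only [mul_comm] using this
  have hbs : Summable (fun n => L n ^ k * |a n|) := hb.summable hL hs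
  have h0 : ∀ n, 0 ≤ L n ^ k * |a n| := fun n =>
    mul_nonneg (pow_nonneg (by linarith [hL n]) k) (abs_nonneg _)
  refine ⟨∑' n, L n ^ k * |a n|, fun n => ?_⟩
  have hinj : Function.Injective (fun m : ℕ => n + 1 + m) := fun x y h => by
    simpa using h
  have hs2 : Summable (fun m : ℕ => L (n + 1 + m) ^ k * |a (n + 1 + m)|) :=
    hbs.comp_injective hinj
  have hs3 : Summable (fun m : ℕ => |a (n + 1 + m)|) :=
    ((ha.abs hL).summable hL hs).comp_injective hinj
  have h1 : |∑' m : ℕ, a (n + 1 + m)| ≤ ∑' m : ℕ, |a (n + 1 + m)| := by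
    have := norm_tsum_le_tsum_norm (f := fun m : ℕ => a (n + 1 + m)) hs3
    exact this
  have hLn : 0 ≤ L n ^ k := pow_nonneg (by linarith [hL n]) k
  calc L n ^ k * |∑' m : ℕ, a (n + 1 + m)| ≤ L n ^ k * ∑' m : ℕ, |a (n + 1 + m)| := by gcongr
    _ = ∑' m : ℕ, L n ^ k * |a (n + 1 + m)| := tsum_mul_left.symm
    _ ≤ ∑' m : ℕ, L (n + 1 + m) ^ k * |a (n + 1 + m)| := by
      refine (hs3.mul_left _).tsum_le_tsum (fun m => ?_) hs2
      have h2 : L n ≤ L (n + 1 + m) := hm (by omega)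
      have h3 : 0 ≤ L n := by linarith [hL n]
      gcongr
    _ ≤ ∑' n, L n ^ k * |a n| := tsum_comp_le_tsum_of_inj hbs h0 hinj

end rap

/-- the conditions on the sequence of frequencies -/
structure Seqs (L : ℕ → ℝ) : Prop where
  one : ∀ n, 1 ≤ L n
  sum : Summable fun n => (L n)⁻¹
  mono : Monotone L

/-- the series `∑ cₙ Φₙ` -/
noncomputable def syn (c : ℕ → ℝ) (Φ : ℕ → V → V) (x : V) : V := fun i => ∑' n, c n * Φ n x i

/-- families of smooth periodic fields with polynomially bounded derivatives -/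
structure FB (L : ℕ → ℝ) (Φ : ℕ → V → V) : Prop where
  sv : ∀ n, SV (Φ n)
  pb : ∀ i, PB L (fun n x => Φ n x i)

section syn

variable {L : ℕ → ℝ} {c c' : ℕ → ℝ} {Φ : ℕ → V → V}

theorem syn_RB (h : Seqs L) (hc : Rap L c) (hΦ : FB L Φ) (i : Fin 3) :
    RB L (fun n (x : V) => c n * Φ n x i) := (RB.const hc).mul_PB h.one (hΦ.pb i)

theorem syn_SV (h : Seqs L) (hc : Rap L c) (hΦ : FB L Φ) : SV (syn c Φ) := fun i =>
  ⟨(syn_RB h hc hΦ i).contDiff_tsum h.one h.sum, fun j x => by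
    show (∑' n, c n * Φ n (x + Pi.single j 1) i) = ∑' n, c n * Φ n x i
    have : ∀ n, Φ n (x + Pi.single j 1) i = Φ n x i := fun n => (hΦ.sv n i).per j x
    simp_rw [this]⟩

theorem syn_summable (h : Seqs L) (hc : Rap L c) (hΦ : FB L Φ) (x : V) (i : Fin 3) :
    Summable fun n => c n * Φ n x i := (syn_RB h hc hΦ i).summable h.one h.sum x

theorem syn_lin (h : Seqs L) (hc : Rap L c) (hc' : Rap L c') (hΦ : FB L Φ) (a : ℝ) :
    syn (fun n => a * c n + c' n) Φ = a • syn c Φ + syn c' Φ := by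
  funext x i
  show (∑' n, (a * c n + c' n) * Φ n x i) = a * (∑' n, c n * Φ n x i) + ∑' n, c' n * Φ n x i
  rw [← tsum_mul_left, ← ((syn_summable h hc hΦ x i).mul_left a).tsum_add
    (syn_summable h hc' hΦ x i)]
  congr 1
  funext n
  ring

/-- the scalar product with a series -/
theorem dot_syn_aux (h : Seqs L) (hc : Rap L c) (hΦ : FB L Φ) {w : V → V} (hw : SV w)
    (i : Fin 3) : (Summable fun n => c n * ∫ x in cube, w x i * Φ n x i) ∧
      ∫ x in cube, w x i * syn c Φ x i = ∑' n, c n * ∫ x in cube, w x i * Φ n x i := by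
  obtain ⟨M, hM0, hM⟩ := sup_SP (hw i)
  obtain ⟨v, hv, hv2⟩ := (syn_RB h hc hΦ i).summ h.one h.sum 0
  have hint : ∀ n, IntegrableOn (fun x => w x i * (c n * Φ n x i)) cube := fun n =>
    integrableOn_cube ((hw i).cont.mul (continuous_const.mul (hΦ.sv n i).cont))
  have hb : ∀ n, ∀ x ∈ cube, |w x i * (c n * Φ n x i)| ≤ M * v n := by
    intro n x hx
    rw [abs_mul]
    have h1 := hv2 n x
    rw [norm_iteratedFDeriv_zero, Real.norm_eq_abs] at h1
    exact mul_le_mul (hM x hx) h1 (abs_nonneg _) hM0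
  have hs : Summable fun n => ∫ x in cube, ‖w x i * (c n * Φ n x i)‖ := by
    refine Summable.of_norm_bounded (hv.mul_left M) fun n => ?_
    rw [Real.norm_eq_abs]
    refine int_le_cube fun x hx => ?_
    rw [Real.norm_eq_abs, abs_abs]
    exact hb n x hx
  have key := hasSum_integral_of_summable_integral_norm (μ := volume.restrict cube)
    (F := fun n x => w x i * (c n * Φ n x i)) (fun n => hint n) hs
  have e : ∀ n, ∫ x in cube, w x i * (c n * Φ n x i) = c n * ∫ x in cube, w x i * Φ n x i := by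
    intro n
    rw [← integral_const_mul]
    congr 1
    funext x
    ring
  simp_rw [e] at key
  refine ⟨key.summable, ?_⟩
  rw [key.tsum_eq]
  congr 1
  funext x
  show w x i * (∑' n, c n * Φ n x i) = _
  rw [← tsum_mul_left]

theorem dot_syn_summable (h : Seqs L) (hc : Rap L c) (hΦ : FB L Φ) {w : V → V} (hw : SV w) :
    Summable fun n => c n * dot w (Φ n) := by
  unfold dot
  simp_rw [Finset.mul_sum]
  exact summable_sum fun i _ => (dot_syn_aux h hc hΦ hw i).1

theorem dot_syn (h : Seqs L) (hc : Rap L c) (hΦ : FB L Φ) {w : V → V} (hw : SV w) :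
    dot w (syn c Φ) = ∑' n, c n * dot w (Φ n) := by
  have h1 : dot w (syn c Φ) = ∑ i, ∑' n, c n * ∫ x in cube, w x i * Φ n x i :=
    Finset.sum_congr rfl fun i _ => (dot_syn_aux h hc hΦ hw i).2
  rw [h1, ← Summable.tsum_finsetSum fun i _ => (dot_syn_aux h hc hΦ hw i).1]
  congr 1
  funext n
  unfold dot
  rw [Finset.mul_sum]

theorem dot_comm (u v : V → V) : dot u v = dot v u := by
  unfold dot
  refine Finset.sum_congr rfl fun i _ => ?_
  congr 1
  funext x
  ring

theorem dot_add_left {u v w : V → V} (hu : SV u) (hv : SV v) (hw : SV w) (a : ℝ) :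
    dot (a • u + v) w = a * dot u w + dot v w := by
  unfold dot
  rw [Finset.mul_sum, ← Finset.sum_add_distrib]
  refine Finset.sum_congr rfl fun i _ => ?_
  rw [← integral_const_mul, ← integral_add (((hu i).mul (hw i)).int.const_mul a)
    ((hv i).mul (hw i)).int]
  congr 1
  funext x
  show (a * u x i + v x i) * w x i = _
  ring

theorem dot_add_right {u v w : V → V} (hu : SV u) (hv : SV v) (hw : SV w) (a : ℝ) :
    dot w (a • u + v) = a * dot w u + dot w v := by
  rw [dot_comm, dot_add_left hu hv hw, dot_comm u, dot_comm v]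

theorem SV.add_smul {u v : V → V} (hu : SV u) (hv : SV v) (a : ℝ) : SV (a • u + v) :=
  fun i => (sp_cmul (hu i) a).add (hv i)

/-- `Φ` has the support of the family `K` -/
def Sp (K : ℕ → Set V) (Φ : ℕ → V → V) : Prop := ∀ n x, x ∉ K n → Φ n x = 0

theorem syn_at {K : ℕ → Set V} (hK : ∀ m n, m ≠ n → Disjoint (K m) (K n)) (hS : Sp K Φ) {n : ℕ}
    {x : V} (hx : x ∈ K n) (i : Fin 3) : syn c Φ x i = c n * Φ n x i := by
  show (∑' m, c m * Φ m x i) = _
  refine tsum_eq_single n fun m hm => ?_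
  have : x ∉ K m := fun h => (Set.disjoint_left.1 (hK m n hm)) h hx
  rw [hS m x this]
  simp

theorem syn_out {K : ℕ → Set V} (hS : Sp K Φ) {x : V} (hx : ∀ n, x ∉ K n) (i : Fin 3) :
    syn c Φ x i = 0 := by
  show (∑' m, c m * Φ m x i) = _
  have : ∀ m, c m * Φ m x i = 0 := fun m => by rw [hS m x (hx m)]; simp
  simp_rw [this]
  exact tsum_zero

/-- derivatives of a series -/
theorem syn_pd (h : Seqs L) (hc : Rap L c) (hΦ : FB L Φ) (i j : Fin 3) (x : V) :
    pd j (fun y => syn c Φ y i) x = ∑' n, c n * pd j (fun y => Φ n y i) x := by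
  have hRB := syn_RB h hc hΦ i
  unfold pd
  have e1 : fderiv ℝ (fun y => syn c Φ y i) x = ∑' n, fderiv ℝ (fun y => c n * Φ n y i) x :=
    hRB.fderiv_tsum h.one h.sum x
  have e2 := hRB.summable_fderiv h.one h.sum x
  rw [e1]
  have e3 : (∑' n, fderiv ℝ (fun y => c n * Φ n y i) x) (Pi.single j 1)
      = ∑' n, fderiv ℝ (fun y => c n * Φ n y i) x (Pi.single j 1) :=
    ContinuousLinearMap.map_tsum
      (φ := ContinuousLinearMap.apply ℝ ℝ (Pi.single j (1 : ℝ) : V)) e2
  rw [e3]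
  congr 1
  funext n
  exact pd_cmul (hΦ.sv n i) (c n) j x

/-- the family of derivatives -/
theorem FB.pd (hL : ∀ n, 1 ≤ L n) (hΦ : FB L Φ) (j : Fin 3) :
    FB L (fun n x i => H459R3.NS.pd j (fun y => Φ n y i) x) :=
  ⟨fun n i => (hΦ.sv n i).pd j, fun i => PB_pd hL (hΦ.pb i) j⟩

theorem syn_pd' (h : Seqs L) (hc : Rap L c) (hΦ : FB L Φ) (i j : Fin 3) :
    pd j (fun y => syn c Φ y i) = fun x => syn c (fun n x i => pd j (fun y => Φ n y i) x) x i :=
  funext fun x => syn_pd h hc hΦ i j x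

end syn

end Pool.Agent.V1183.LM
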