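import Pool.Agent.V1183.LM.Flow

/-!
The trajectories near the line `x₀ = x₁ = 1/2`.
-/

open Set Filter Topology MeasureTheory
open scoped ContDiff ENNReal

set_option autoImplicit false

namespace Pool.Agent.V1183.LM

open H459R3.NS Pool.Agent.V1178.NS

variable {d : Dat}

/-! ### the fields to the right of the plane `x₀ = 1/2` -/

theorem tit_right {f g : ℝ → ℝ} (hp : Pair d f g) (hd : d.Ok) (i n : ℕ) {z : ℝ}
    (hz : z ∈ Icc (1 / 2 : ℝ) 1) :
    per1 (iteratedDeriv i ((Th (d.h n))^[n + 1] (sc f (d.l n)))) z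
      = ((d.l n)⁻¹) ^ i * iteratedDeriv i f ((z - 1 / 2) / d.l n) := by
  have hl := hd.l_pos n
  have hN := Dat.N_pos (d := d)
  rw [per1_Icc (hp.s1f hd i n).sup ⟨by linarith [hz.1], hz.2⟩,
    iter_Tit (hp.scf hd n) (hd.h_nonneg n)]
  rw [Tit_eq (hd.h_nonneg n)]
  · rw [iter_sc hp.f.smooth]
    rfl
  · intro w hw
    refine ((hp.scf hd n).iter i).supp w fun h => ?_
    have h1 : d.h n = 3 * (d.N * d.l n) := by unfold Dat.h; ring
    have h2 : 0 < d.N * d.l n := by positivity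
    linarith [h.2, hz.1]

theorem H0_right (hd : d.Ok) (n : ℕ) {x : V} (hx : x 0 ∈ Icc (1 / 2 : ℝ) 1) :
    d.H n x 0 = -(d.l n ^ 2) * (fA d.a ((x 0 - 1 / 2) / d.l n)
      * per1 (iteratedDeriv 1 (sc (fB d.N) (d.l n))) (x 1)) := by
  show -(d.l n ^ 2) * Qf d (fA d.a) (fB d.N) 0 1 n x = _
  unfold Qf T2
  rw [tit_right hd.pairH hd 0 n hx, pow_zero, one_mul, iteratedDeriv_zero]

theorem H1_right (hd : d.Ok) (n : ℕ) {x : V} (hx : x 0 ∈ Icc (1 / 2 : ℝ) 1) :
    d.H n x 1 = d.l n * (deriv (fA d.a) ((x 0 - 1 / 2) / d.l n)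
      * per1 (sc (fB d.N) (d.l n)) (x 1)) := by
  have hl := hd.l_pos n
  show (d.l n ^ 2) * Qf d (fA d.a) (fB d.N) 1 0 n x = _
  unfold Qf T2
  rw [tit_right hd.pairH hd 1 n hx, iteratedDeriv_one, iteratedDeriv_zero, pow_one]
  field_simp

theorem H0_half (hd : d.Ok) (n : ℕ) {x : V} (hx : x 0 = 1 / 2) : d.H n x 0 = 0 := by
  rw [H0_right hd n (by rw [hx]; constructor <;> norm_num), hx, sub_self, zero_div, fA_zero']
  ring

theorem H0_quarter (hd : d.Ok) (n : ℕ) {x : V} (hx : x 0 = 1 / 4) : d.H n x 0 = 0 := by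
  rw [hd.H_zero]
  · rfl
  · intro hK
    have h1 := hK.1
    have e : Int.fract (x 0) = 1 / 4 := by
      rw [hx, Int.fract_eq_self]; constructor <;> norm_num
    rw [e, abs_of_neg (by norm_num)] at h1
    linarith [hd.w_le8 n]

theorem Nl_small (hd : d.Ok) (n : ℕ) : d.N * d.l n ≤ 1 / 32 := by
  have h1 := hd.l_le n
  have h2 := hd.ρ1
  have h3 := Dat.N_pos (d := d)
  nlinarith

theorem l_small (hd : d.Ok) (n : ℕ) : d.l n ≤ 1 / 1600 := by
  have h1 := Nl_small hd n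
  have h2 := hd.N50
  have h3 := hd.l_pos n
  nlinarith

theorem H0_far (hd : d.Ok) (n : ℕ) {x : V} (hx : x 0 = 1 / 2 + 1 / 16) : d.H n x 0 = 0 := by
  rw [H0_right hd n (by rw [hx]; constructor <;> norm_num), hx, fA_zero hd.a0]
  · ring
  · have hl := hd.l_pos n
    have h1 := Nl_small hd n
    refine le_trans ?_ (le_abs_self _)
    rw [le_div_iff₀ hl]
    show d.N * d.l n ≤ _
    linarith

theorem H1_half (hd : d.Ok) (n : ℕ) {x : V} (hx : x 1 = 1 / 2) : d.H n x 1 = 0 := by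
  show (d.l n ^ 2) * Qf d (fA d.a) (fB d.N) 1 0 n x = _
  unfold Qf T2
  have e : per1 (iteratedDeriv 0 (sc (fB d.N) (d.l n))) (x 1) = 0 := by
    rw [per1_Icc (hd.pairH.s1g hd 0 n).sup (by rw [hx]; constructor <;> norm_num), hx,
      iteratedDeriv_zero]
    unfold sc
    rw [sub_self, zero_div, fB_zero']
  rw [e]
  ring

theorem Wf_zero_of {j : Fin 3} {x : V} (h : ∀ n, d.H n x j = 0) (s : ℝ) : Wf d (s, x) j = 0 := by
  show (SS d s)⁻¹ * ∑' n, qn d n s * d.H n x j = 0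
  simp_rw [h, mul_zero, tsum_zero, mul_zero]

theorem Wf_two (z : ℝ × V) : Wf d z 2 = 0 := Wf_zero_of (fun n => rfl) z.1

/-! ### the one-dimensional velocity -/

/-- the velocity towards the plane -/
noncomputable def AA (d : Dat) (s X : ℝ) : ℝ :=
  (SS d s)⁻¹ * ∑' n, qn d n s * (d.l n * fA d.a (X / d.l n))

/-- its derivative -/
noncomputable def DD (d : Dat) (s X : ℝ) : ℝ :=
  (SS d s)⁻¹ * ∑' n, qn d n s * deriv (fA d.a) (X / d.l n)

theorem DD_cont (hd : d.Ok) : Continuous (fun z : ℝ × ℝ => DD d z.1 z.2) := by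
  have h1 : Continuous (fun z : ℝ × ℝ => (SS d z.1)⁻¹) :=
    ((SS_smooth hd).continuous.comp continuous_fst).inv₀ fun z => (SS_pos hd z.1).ne'
  exact h1.mul (wsum_smooth hd (Ψ := fun n X => deriv (fA d.a) (X / d.l n)) fun n =>
    (fA_smooth d.a).deriv'.comp (contDiff_id.div_const _)).continuous

theorem HW (hd : d.Ok) (n : ℕ) {x : V} (h0 : 0 ≤ x 0 - 1 / 2) (h1 : x 0 - 1 / 2 ≤ 1 / 2)
    (h2 : |x 1 - 1 / 2| ≤ x 0 - 1 / 2) :
    d.H n x 0 = -(d.l n * fA d.a ((x 0 - 1 / 2) / d.l n)) ∧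
    d.H n x 1 = deriv (fA d.a) ((x 0 - 1 / 2) / d.l n) * (x 1 - 1 / 2) := by
  have hl := hd.l_pos n
  have hN := Dat.N_pos (d := d)
  have hx0 : x 0 ∈ Icc (1 / 2 : ℝ) 1 := ⟨by linarith, by linarith⟩
  have hx1 : x 1 ∈ Icc (0 : ℝ) 1 := by
    have := abs_le.1 h2
    exact ⟨by linarith [this.1], by linarith [this.2]⟩
  rw [H0_right hd n hx0, H1_right hd n hx0]
  rcases lt_or_ge (x 0 - 1 / 2) (d.N * d.l n) with h | h
  · have hY : |(x 1 - 1 / 2) / d.l n| < 2 * d.N := by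
      rw [abs_div, abs_of_pos hl, div_lt_iff₀ hl]
      have : 0 < d.N * d.l n := by positivity
      linarith
    have e1 : per1 (iteratedDeriv 1 (sc (fB d.N) (d.l n))) (x 1) = (d.l n)⁻¹ := by
      rw [per1_Icc (hd.pairH.s1g hd 1 n).sup hx1, iter_sc (fB_smooth _), pow_one]
      show (d.l n)⁻¹ * iteratedDeriv 1 (fB d.N) ((x 1 - 1 / 2) / d.l n) = (d.l n)⁻¹
      rw [iteratedDeriv_one, fB_deriv_eq hN hY, mul_one]
    have e2 : per1 (sc (fB d.N) (d.l n)) (x 1) = (x 1 - 1 / 2) / d.l n := by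
      rw [per1_Icc (hd.pairH.s1g0 hd n).sup hx1]
      unfold sc
      rw [fB_eq hN hY]
    rw [e1, e2]
    constructor <;> field_simp
  · have hX : Real.exp (1 / d.a) ≤ |(x 0 - 1 / 2) / d.l n| := by
      refine le_trans ?_ (le_abs_self _)
      rw [le_div_iff₀ hl]
      exact h
    rw [fA_zero hd.a0 hX, fA_deriv_zero hd.a0 hX]
    constructor <;> ring

theorem W_right (hd : d.Ok) (s : ℝ) {x : V} (h0 : 0 ≤ x 0 - 1 / 2) (h1 : x 0 - 1 / 2 ≤ 1 / 2)
    (h2 : |x 1 - 1 / 2| ≤ x 0 - 1 / 2) :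
    Wf d (s, x) = ![-AA d s (x 0 - 1 / 2), DD d s (x 0 - 1 / 2) * (x 1 - 1 / 2), 0] := by
  funext i
  fin_cases i
  · show (SS d s)⁻¹ * ∑' n, qn d n s * d.H n x 0 = -AA d s (x 0 - 1 / 2)
    unfold AA
    rw [← mul_neg, ← tsum_neg]
    congr 2
    funext n
    rw [(HW hd n h0 h1 h2).1]
    ring
  · show (SS d s)⁻¹ * ∑' n, qn d n s * d.H n x 1 = DD d s (x 0 - 1 / 2) * (x 1 - 1 / 2)
    unfold DD
    rw [mul_assoc, ← tsum_mul_right]
    congr 2
    funext n
    rw [(HW hd n h0 h1 h2).2]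
    ring
  · exact Wf_two (s, x)

theorem AA_lin (hd : d.Ok) {s X : ℝ} (hs : 0 ≤ s) (hX0 : 0 ≤ X)
    (hX : X ≤ d.ρ / 4 * Real.exp (-s)) : AA d s X = X := by
  have hS := SS_pos hd s
  have hρ := hd.ρ0
  have key : ∀ n, qn d n s * (d.l n * fA d.a (X / d.l n)) = qn d n s * X := by
    intro n
    have hl := hd.l_pos n
    by_cases hq : n ≠ 0 ∧ 4 * Real.exp s ≤ d.N ^ n
    · unfold qn
      rw [wt_eq_zero hq.1 hq.2]
      ring
    · have h1 : X < d.l n := by
        rcases Nat.eq_zero_or_pos n with h0 | h0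
        · subst h0
          have e : d.l 0 = d.ρ := by unfold Dat.l; simp
          rw [e]
          have : Real.exp (-s) ≤ 1 := Real.exp_le_one_iff.2 (by linarith)
          nlinarith
        · have h2 : d.N ^ n < 4 * Real.exp s := by
            by_contra h3
            exact hq ⟨by omega, not_lt.1 h3⟩
          refine lt_of_le_of_lt hX ?_
          unfold Dat.l
          rw [lt_div_iff₀ (pow_pos Dat.N_pos n), Real.exp_neg]
          have hes := Real.exp_pos s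
          calc d.ρ / 4 * (Real.exp s)⁻¹ * d.N ^ n < d.ρ / 4 * (Real.exp s)⁻¹ * (4 * Real.exp s) := by
                gcongr
            _ = d.ρ := by field_simp
      have h2 : |X / d.l n| < 2 := by
        rw [abs_div, abs_of_nonneg hX0, abs_of_pos hl, div_lt_iff₀ hl]
        linarith
      rw [fA_eq hd.a0 (by linarith [hd.a1]) h2]
      field_simp
  unfold AA
  simp_rw [key]
  rw [tsum_mul_right]
  show (SS d s)⁻¹ * (SS d s * X) = X
  field_simp

/-- the main inequality for the strain -/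
theorem key_sum (hd : d.Ok) (s : ℝ) {X : ℝ} (hX : 0 < X) :
    -(2 * d.a * M1) ≤ ∑' n, qn d n s * (deriv (fA d.a) (X / d.l n)
      + fA d.a (X / d.l n) / (X / d.l n)) := by
  set b : ℕ → ℝ := fun n => deriv (fA d.a) (X / d.l n) + fA d.a (X / d.l n) / (X / d.l n) with hb
  have hρ := hd.ρ0
  have hN := Dat.N_pos (d := d)
  have h50 := hd.N50
  have ht : ∀ n, X / d.l n = X / d.ρ * d.N ^ n := fun n => by
    unfold Dat.l; field_simp
  have htp : ∀ n, 0 < X / d.l n := fun n => div_pos hX (hd.l_pos n)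
  have hex : ∃ n, 1 < X / d.l n := by
    obtain ⟨n, hn⟩ := pow_unbounded_of_one_lt (d.ρ / X) (by linarith : 1 < d.N)
    refine ⟨n, ?_⟩
    rw [ht]
    rw [div_lt_iff₀ hX] at hn
    rw [div_mul_eq_mul_div, lt_div_iff₀ hρ]
    linarith
  classical
  set m := Nat.find hex with hm
  have hm1 : 1 < X / d.l m := Nat.find_spec hex
  have hlow : ∀ n < m, b n = 2 := fun n hn =>
    fA_key2 hd.a0 (by linarith [hd.a1]) (htp n) (not_lt.1 (Nat.find_min hex hn))
  have hhigh : ∀ n, n ∉ Finset.range (m + 1) → b n = 0 := by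
    intro n hn
    have hn' : m + 1 ≤ n := by simpa using hn
    refine fA_key0 hd.a0 ?_
    show d.N ≤ _
    have e : X / d.l n = (X / d.l m) * d.N ^ (n - m) := by
      rw [ht, ht, mul_assoc, ← pow_add]
      congr 2
      omega
    rw [e]
    have h3 : d.N ^ 1 ≤ d.N ^ (n - m) := pow_le_pow_right₀ (by linarith) (by omega)
    rw [pow_one] at h3
    nlinarith
  have hall : ∀ n, -(2 * d.a * M1) ≤ b n := fun n => fA_key hd.a0 (htp n)
  have e : ∑' n, qn d n s * b n = ∑ n ∈ Finset.range (m + 1), qn d n s * b n :=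
    tsum_eq_sum fun n hn => by rw [hhigh n hn, mul_zero]
  have haM : 0 < d.a * M1 := mul_pos hd.a0 M1_pos
  rw [e, Finset.sum_range_succ]
  rcases Nat.eq_zero_or_pos m with h0 | h0
  · rw [h0, Finset.sum_range_zero, zero_add]
    have e1 : qn d 0 s = 1 := by unfold qn; rw [wt_zero0]; simp
    rw [e1, one_mul]
    exact hall 0
  · obtain ⟨k, hk⟩ : ∃ k, m = k + 1 := ⟨m - 1, by omega⟩
    rw [hk, Finset.sum_range_succ]
    have s1 : 0 ≤ ∑ n ∈ Finset.range k, qn d n s * b n := by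
      refine Finset.sum_nonneg fun n hn => mul_nonneg (qn_nonneg n s) ?_
      rw [hlow n (by have := Finset.mem_range.1 hn; omega)]
      norm_num
    rw [hlow k (by omega)]
    have s2 : qn d k s * 2 + qn d (k + 1) s * b (k + 1) ≥ 0 := by
      have h1 := wt_anti hd k s
      have h2 := wt_nonneg (d := d) (k + 1) s
      have h3 := hall (k + 1)
      have h4 : d.a * M1 ≤ Real.exp (-1) := hd.aM
      have h5 : -(2 * Real.exp (-1)) ≤ b (k + 1) := by linarith
      have h6 : qn d (k + 1) s * -(2 * Real.exp (-1)) ≤ qn d (k + 1) s * b (k + 1) :=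
        mul_le_mul_of_nonneg_left h5 (qn_nonneg _ _)
      have h7 : qn d (k + 1) s * Real.exp (-1) = Real.exp k * wt d (k + 1) s := by
        unfold qn
        have : Real.exp ((k + 1 : ℕ) : ℝ) * Real.exp (-1) = Real.exp k := by
          rw [← Real.exp_add]; congr 1; push_cast; ring
        calc Real.exp ((k + 1 : ℕ) : ℝ) * wt d (k + 1) s * Real.exp (-1)
            = (Real.exp ((k + 1 : ℕ) : ℝ) * Real.exp (-1)) * wt d (k + 1) s := by ring
          _ = _ := by rw [this]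
      have h8 : qn d k s = Real.exp k * wt d k s := rfl
      have h9 : Real.exp k * wt d (k + 1) s ≤ Real.exp k * wt d k s :=
        mul_le_mul_of_nonneg_left h1 (Real.exp_pos _).le
      nlinarith
    linarith

theorem DA_key (hd : d.Ok) {s X : ℝ} (hs : 0 ≤ s) (hX : 0 < X) :
    -AA d s X - X * DD d s X ≤ X * (2 * d.a * M1 * (Real.exp 1 * Real.exp (-(d.a * s)))) := by
  have hS := SS_pos hd s
  have h1 := key_sum hd s hX
  have e : AA d s X + X * DD d s X = X * ((SS d s)⁻¹ * ∑' n, qn d n s *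
      (deriv (fA d.a) (X / d.l n) + fA d.a (X / d.l n) / (X / d.l n))) := by
    unfold AA DD
    have e1 : ∀ n, qn d n s * (deriv (fA d.a) (X / d.l n) + fA d.a (X / d.l n) / (X / d.l n))
        = qn d n s * deriv (fA d.a) (X / d.l n)
          + X⁻¹ * (qn d n s * (d.l n * fA d.a (X / d.l n))) := by
      intro n
      have hl := hd.l_pos n
      field_simp
    simp_rw [e1]
    rw [(wsum_summable hd s _).tsum_add ((wsum_summable hd s _).mul_left _), tsum_mul_left]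
    field_simp
    ring
  have h2 : -(AA d s X + X * DD d s X) ≤ X * ((SS d s)⁻¹ * (2 * d.a * M1)) := by
    rw [e, ← mul_neg, ← mul_neg]
    gcongr
    linarith
  have h3 : (SS d s)⁻¹ ≤ Real.exp 1 * Real.exp (-(d.a * s)) := by
    have h4 := SS_ge hd hs
    rw [← Real.exp_add, inv_le_comm₀ hS (Real.exp_pos _), ← Real.exp_neg]
    refine le_trans (le_of_eq ?_) h4
    congr 1
    ring
  have haM : 0 < d.a * M1 := mul_pos hd.a0 M1_pos
  calc -AA d s X - X * DD d s X = -(AA d s X + X * DD d s X) := by ring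
    _ ≤ X * ((SS d s)⁻¹ * (2 * d.a * M1)) := h2
    _ ≤ X * ((Real.exp 1 * Real.exp (-(d.a * s))) * (2 * d.a * M1)) := by
      have : 0 ≤ 2 * d.a * M1 := by linarith
      gcongr
    _ = _ := by ring

/-! ### trajectories -/

theorem band_lt {f : ℝ → ℝ} (hf : Continuous f) {c : ℝ} (h : ∀ s, f s ≠ c) {τ : ℝ}
    (hτ : f τ < c) (s : ℝ) : f s < c := by
  by_contra h1
  obtain ⟨r, hr⟩ := mem_range_of_exists_le_of_exists_ge hf ⟨τ, hτ.le⟩ ⟨s, not_lt.1 h1⟩
  exact h r hr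

theorem band_gt {f : ℝ → ℝ} (hf : Continuous f) {c : ℝ} (h : ∀ s, f s ≠ c) {τ : ℝ}
    (hτ : c < f τ) (s : ℝ) : c < f s := by
  by_contra h1
  obtain ⟨r, hr⟩ := mem_range_of_exists_le_of_exists_ge hf ⟨s, not_lt.1 h1⟩ ⟨τ, hτ.le⟩
  exact h r hr

theorem Trj.cont {G : ℝ × V → V} {γ : ℝ → V} (h : Trj G γ) : Continuous γ :=
  continuous_iff_continuousAt.2 fun s => (h s).continuousAt

section traj

variable {γ : ℝ → V} {j : Fin 3} {c τ : ℝ}

theorem Trj.comp_cont (h : Trj (Wf d) γ) (j : Fin 3) : Continuous (fun s => γ s j) :=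
  (continuous_apply j).comp h.cont

theorem Trj.ne_plane (hd : d.Ok) (hc : ∀ n (x : V), x j = c → d.H n x j = 0)
    (h : Trj (Wf d) γ) (hτ : γ τ j ≠ c) (s : ℝ) : γ s j ≠ c := fun h1 =>
  hτ (Trj.plane (Wf_smooth hd) (Wf_le hd) (fun s x hx => Wf_zero_of (fun n => hc n x hx) s) h h1 τ)

theorem Trj.le_plane (hd : d.Ok) (hc : ∀ n (x : V), x j = c → d.H n x j = 0)
    (h : Trj (Wf d) γ) (hτ : γ τ j ≤ c) (s : ℝ) : γ s j ≤ c := by
  rcases hτ.eq_or_lt with h1 | h1
  · exact (Trj.plane (Wf_smooth hd) (Wf_le hd)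
      (fun s x hx => Wf_zero_of (fun n => hc n x hx) s) h h1 s).le
  · exact (band_lt (h.comp_cont j) (h.ne_plane hd hc h1.ne) h1 s).le

theorem Trj.ge_plane (hd : d.Ok) (hc : ∀ n (x : V), x j = c → d.H n x j = 0)
    (h : Trj (Wf d) γ) (hτ : c ≤ γ τ j) (s : ℝ) : c ≤ γ s j := by
  rcases hτ.eq_or_lt with h1 | h1
  · exact (Trj.plane (Wf_smooth hd) (Wf_le hd)
      (fun s x hx => Wf_zero_of (fun n => hc n x hx) s) h h1.symm s).ge
  · exact (band_gt (h.comp_cont j) (h.ne_plane hd hc h1.ne') h1 s).le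

end traj

/-- the point with given offsets from the line -/
noncomputable def pt (X Y z : ℝ) : V := ![1 / 2 + X, 1 / 2 + Y, z]

theorem pt_hasDerivAt {X Y : ℝ → ℝ} {X' Y' z s : ℝ} (hX : HasDerivAt X X' s)
    (hY : HasDerivAt Y Y' s) : HasDerivAt (fun s => pt (X s) (Y s) z) ![X', Y', 0] s := by
  rw [hasDerivAt_pi]
  intro i
  fin_cases i
  · exact hX.const_add _
  · exact hY.const_add _
  · exact hasDerivAt_const s z

theorem W_pt (hd : d.Ok) (s : ℝ) {X Y z : ℝ} (h0 : 0 ≤ X) (h1 : X ≤ 1 / 2) (h2 : |Y| ≤ X) :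
    Wf d (s, pt X Y z) = ![-AA d s X, DD d s X * Y, 0] := by
  have e0 : pt X Y z 0 - 1 / 2 = X := by show 1 / 2 + X - 1 / 2 = X; ring
  have e1 : pt X Y z 1 - 1 / 2 = Y := by show 1 / 2 + Y - 1 / 2 = Y; ring
  have := W_right hd s (x := pt X Y z) (by rw [e0]; exact h0) (by rw [e0]; exact h1)
    (by rw [e0, e1]; exact h2)
  rw [e0, e1] at this
  exact this

/-- the trajectory in the axis `x₁ = 1/2` -/
theorem axis (hd : d.Ok) {τ X₀ z : ℝ} (h0 : 0 < X₀) (h1 : X₀ ≤ 1 / 16) :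
    ∃ X : ℝ → ℝ, X τ = X₀ ∧ (∀ s, 0 < X s ∧ X s ≤ 1 / 16) ∧
      (∀ s, HasDerivAt X (-AA d s (X s)) s) ∧ Trj (Wf d) (fun s => pt (X s) 0 z) := by
  obtain ⟨γ, hγ, hγτ⟩ := Trj.exists (Wf_smooth hd) (Wf_le hd) τ (pt X₀ 0 z)
  have hγ0 : γ τ 0 = 1 / 2 + X₀ := by rw [hγτ]; rfl
  have hγ1 : γ τ 1 = 1 / 2 := by
    rw [hγτ]
    show (1 / 2 + 0 : ℝ) = 1 / 2
    ring
  have p1 : ∀ s, γ s 1 = 1 / 2 := Trj.plane (Wf_smooth hd) (Wf_le hd)
    (fun s x hx => Wf_zero_of (fun n => H1_half hd n hx) s) hγ hγ1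
  have p2 : ∀ s, γ s 2 = z := by
    intro s
    have h3 : ∀ s, HasDerivAt (fun s => γ s 2) 0 s := by
      intro s
      have := hasDerivAt_pi.1 (hγ s) 2
      rwa [Wf_two] at this
    have := is_const_of_deriv_eq_zero (f := fun s => γ s 2)
      (fun s => (h3 s).differentiableAt) (fun s => (h3 s).deriv) s τ
    rw [this]
    show γ τ 2 = z
    rw [hγτ]
    rfl
  have p3 : ∀ s, 1 / 2 < γ s 0 := band_gt (hγ.comp_cont 0)
    (hγ.ne_plane hd (fun n x hx => H0_half hd n hx) (τ := τ) (by rw [hγ0]; linarith))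
    (by rw [hγ0]; linarith)
  have p4 : ∀ s, γ s 0 ≤ 1 / 2 + 1 / 16 := hγ.le_plane hd (fun n x hx => H0_far hd n hx) (τ := τ)
    (by rw [hγ0]; linarith)
  have e : γ = fun s => pt (γ s 0 - 1 / 2) 0 z := by
    funext s i
    fin_cases i
    · show γ s 0 = 1 / 2 + (γ s 0 - 1 / 2)
      ring
    · show γ s 1 = 1 / 2 + 0
      rw [p1 s, add_zero]
    · exact p2 s
  refine ⟨fun s => γ s 0 - 1 / 2, by show γ τ 0 - 1 / 2 = X₀; rw [hγ0]; ring, fun s => ⟨by linarith [p3 s],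
    by linarith [p4 s]⟩, fun s => ?_, by rw [← e]; exact hγ⟩
  have h3 := (hasDerivAt_pi.1 (hγ s) 0).sub_const (1 / 2)
  have h4 : Wf d (s, γ s) 0 = -AA d s (γ s 0 - 1 / 2) := by
    have h5 := W_pt hd s (X := γ s 0 - 1 / 2) (Y := 0) (z := z) (by linarith [p3 s])
      (by linarith [p4 s]) (by rw [abs_zero]; linarith [p3 s])
    have h6 : γ s = pt (γ s 0 - 1 / 2) 0 z := congrFun e s
    rw [← h6] at h5
    rw [h5]
    rfl
  rw [h4] at h3
  exact h3

/-- the position at time zero, when it is small -/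
theorem axis_lin (hd : d.Ok) {τ : ℝ} {X : ℝ → ℝ} {z : ℝ}
    (hX : ∀ s, 0 < X s ∧ X s ≤ 1 / 16) (hT : Trj (Wf d) (fun s => pt (X s) 0 z)) {c : ℝ}
    (hc0 : 0 ≤ c) (hc : c ≤ d.ρ / 4) {s₀ : ℝ} (hs₀ : s₀ ∈ Icc 0 τ) (h0 : X s₀ = c * Real.exp (-s₀)) :
    ∀ s ∈ Icc 0 τ, X s = c * Real.exp (-s) := by
  have hρ := hd.ρ0
  have hρ1 : d.ρ ≤ 1 / 32 := by
    have := Nl_small hd 0
    have e : d.l 0 = d.ρ := by unfold Dat.l; simp
    rw [e] at this
    have := hd.N50
    nlinarith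
  have key := Trj.unique_Icc (Wf_smooth hd) (γ := fun s => pt (X s) 0 z)
    (γ' := fun s => pt (c * Real.exp (-s)) 0 z) (fun s _ => hT s) (fun s hs => ?_) hs₀
    (by simp only [h0])
  · intro s hs
    have h1 := congrFun (key s hs) 0
    have h2 : 1 / 2 + X s = 1 / 2 + c * Real.exp (-s) := h1
    linarith
  · have h1 : Real.exp (-s) ≤ 1 := Real.exp_le_one_iff.2 (by linarith [hs.1])
    have h2 : 0 ≤ c * Real.exp (-s) := by positivity
    have h3 : c * Real.exp (-s) ≤ d.ρ / 4 * Real.exp (-s) := by gcongr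
    have h4 : c * Real.exp (-s) ≤ 1 / 2 := by
      have : d.ρ / 4 * Real.exp (-s) ≤ d.ρ / 4 * 1 := by gcongr
      linarith
    rw [W_pt hd s h2 h4 (by rw [abs_zero]; exact h2), AA_lin hd hs.1 h2 h3]
    have h5 : HasDerivAt (fun s => c * Real.exp (-s)) (-(c * Real.exp (-s))) s := by
      have := ((hasDerivAt_neg s).exp).const_mul c
      simpa using this
    have h6 := pt_hasDerivAt (z := z) h5 (hasDerivAt_const s (0 : ℝ))
    rw [mul_zero]
    exact h6

end Pool.Agent.V1183.LM
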