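import Pool.Agent.V1183.LM.Traj

/-!
The transported function.
-/

open Set Filter Topology MeasureTheory
open scoped ContDiff ENNReal

set_option autoImplicit false

namespace Pool.Agent.V1183.LM

open H459R3.NS Pool.Agent.V1178.NS

variable {d : Dat}

theorem DD_comp_cont (hd : d.Ok) {X : ℝ → ℝ} (hXc : Continuous X) :
    Continuous (fun σ => DD d σ (X σ)) := by
  have h : Continuous (fun σ => ((σ, X σ) : ℝ × ℝ)) := continuous_id.prodMk hXc
  have h2 := Continuous.comp (g := fun z : ℝ × ℝ => DD d z.1 z.2)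
    (f := fun σ => ((σ, X σ) : ℝ × ℝ)) (DD_cont hd) h
  exact h2

theorem exists_prim {f : ℝ → ℝ} (hDc : Continuous f) (τ : ℝ) :
    ∃ I : ℝ → ℝ, (∀ s, HasDerivAt I (-f s) s) ∧ I τ = 0 := by
  refine ⟨fun s => ∫ σ in s..τ, f σ, fun s => ?_, intervalIntegral.integral_same⟩
  exact intervalIntegral.integral_hasDerivAt_left (hDc.intervalIntegrable _ _)
      (hDc.stronglyMeasurableAtFilter _ _) hDc.continuousAt

/-- the primitive of the strain -/
theorem exists_I (hd : d.Ok) {X : ℝ → ℝ} (hXc : Continuous X) (τ : ℝ) :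
    ∃ I : ℝ → ℝ, (∀ s, HasDerivAt I (-DD d s (X s)) s) ∧ I τ = 0 :=
  exists_prim (f := fun s => DD d s (X s)) (DD_comp_cont hd hXc) τ

theorem E0_eq : kap = (Real.exp (2 * Real.exp 1 * M1))⁻¹ := by
  unfold kap
  rw [← Real.exp_neg]

/-- the bound for the strain -/
theorem strain_bound (hd : d.Ok) {X I : ℝ → ℝ} (hXb : ∀ s, 0 < X s)
    (hXd : ∀ s, HasDerivAt X (-AA d s (X s)) s) (hId : ∀ s, HasDerivAt I (-DD d s (X s)) s)
    {τ : ℝ} (hτ : 0 ≤ τ) (hIτ : I τ = 0) {s : ℝ} (hs : s ∈ Icc 0 τ) :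
    kap * X τ ≤ X s * Real.exp (I s) := by
  have ha := hd.a0
  obtain ⟨E0, hE0⟩ : ∃ E0 : ℝ, E0 = 2 * Real.exp 1 * M1 := ⟨_, rfl⟩
  have hE0p : 0 < E0 := by
    have := M1_pos
    have := Real.exp_pos 1
    rw [hE0]
    positivity
  have hZd : ∀ s, HasDerivAt (fun s => X s * Real.exp (I s) * Real.exp (E0 * Real.exp (-(d.a * s))))
      (Real.exp (I s) * Real.exp (E0 * Real.exp (-(d.a * s)))
      * (-AA d s (X s) - X s * DD d s (X s) - X s * (d.a * E0 * Real.exp (-(d.a * s))))) s := by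
    intro s
    have e1 : HasDerivAt (fun s => Real.exp (I s)) (Real.exp (I s) * -DD d s (X s)) s := (hId s).exp
    have e2 : HasDerivAt (fun s => -(d.a * s)) (-d.a) s := by
      have h := (hasDerivAt_id s).const_mul (-d.a)
      rw [mul_one] at h
      refine h.congr_of_eventuallyEq (Eventually.of_forall fun y => ?_)
      show -(d.a * y) = -d.a * y
      ring
    have e3 : HasDerivAt (fun s => Real.exp (E0 * Real.exp (-(d.a * s))))
        (Real.exp (E0 * Real.exp (-(d.a * s))) * (E0 * (Real.exp (-(d.a * s)) * -d.a))) s :=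
      ((e2.exp).const_mul E0).exp
    have e5 : HasDerivAt (fun s => X s * Real.exp (I s))
      (-AA d s (X s) * Real.exp (I s) + X s * (Real.exp (I s) * -DD d s (X s))) s := (hXd s).mul e1
    have e4 : HasDerivAt (fun s => X s * Real.exp (I s) * Real.exp (E0 * Real.exp (-(d.a * s))))
      ((-AA d s (X s) * Real.exp (I s) + X s * (Real.exp (I s) * -DD d s (X s))) *
        Real.exp (E0 * Real.exp (-(d.a * s))) + X s * Real.exp (I s) *
        (Real.exp (E0 * Real.exp (-(d.a * s))) * (E0 * (Real.exp (-(d.a * s)) * -d.a)))) s :=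
      e5.mul e3
    refine e4.congr_deriv ?_
    ring
  have hanti : AntitoneOn (fun s => X s * Real.exp (I s) *
      Real.exp (E0 * Real.exp (-(d.a * s)))) (Icc 0 τ) := by
    refine antitoneOn_of_deriv_nonpos (convex_Icc 0 τ)
      (fun s _ => (hZd s).continuousAt.continuousWithinAt)
      (fun s _ => (hZd s).differentiableAt.differentiableWithinAt) (fun s hs => ?_)
    rw [interior_Icc] at hs
    rw [(hZd s).deriv]
    have h2 := DA_key hd hs.1.le (hXb s)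
    have h3 : -AA d s (X s) - X s * DD d s (X s) - X s * (d.a * E0 * Real.exp (-(d.a * s))) ≤ 0 := by
      have e : X s * (2 * d.a * M1 * (Real.exp 1 * Real.exp (-(d.a * s))))
          = X s * (d.a * E0 * Real.exp (-(d.a * s))) := by rw [hE0]; ring
      rw [e] at h2
      linarith
    exact mul_nonpos_of_nonneg_of_nonpos (by positivity) h3
  have h2 : X τ * Real.exp (I τ) * Real.exp (E0 * Real.exp (-(d.a * τ)))
      ≤ X s * Real.exp (I s) * Real.exp (E0 * Real.exp (-(d.a * s))) := hanti hs ⟨hτ, le_rfl⟩ hs.2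
  have h3 : X τ ≤ X τ * Real.exp (I τ) * Real.exp (E0 * Real.exp (-(d.a * τ))) := by
    rw [hIτ, Real.exp_zero, mul_one]
    refine le_mul_of_one_le_right (hXb τ).le (Real.one_le_exp ?_)
    positivity
  have h4 : X s * Real.exp (I s) * Real.exp (E0 * Real.exp (-(d.a * s)))
      ≤ X s * Real.exp (I s) * Real.exp E0 := by
    have h5 : Real.exp (-(d.a * s)) ≤ 1 := Real.exp_le_one_iff.2 (by
      have : 0 ≤ d.a * s := mul_nonneg ha.le hs.1
      linarith)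
    have h6 := hXb s
    have h7 : E0 * Real.exp (-(d.a * s)) ≤ E0 := by nlinarith
    gcongr
  rw [E0_eq, ← hE0, inv_mul_le_iff₀ (Real.exp_pos _)]
  linarith

theorem front_eq (hd : d.Ok) {τ z : ℝ} (hτ : 0 ≤ τ) {X : ℝ → ℝ}
    (hXb : ∀ s, 0 < X s ∧ X s ≤ 1 / 16) (hXT : Trj (Wf d) (fun s => pt (X s) 0 z)) :
    fF (8 * X 0 / d.ρ) = fF (8 * (Real.exp τ * X τ) / d.ρ) := by
  have hρ := hd.ρ0
  have hexp : Real.exp τ * Real.exp (-τ) = 1 := by rw [← Real.exp_add]; simp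
  rcases le_or_gt (Real.exp τ * X τ) (d.ρ / 4) with h | h
  · have h1 : X τ = Real.exp τ * X τ * Real.exp (-τ) := by
      calc X τ = (Real.exp τ * Real.exp (-τ)) * X τ := by rw [hexp, one_mul]
        _ = _ := by ring
    have h0 : 0 ≤ Real.exp τ * X τ := mul_nonneg (Real.exp_pos _).le (hXb τ).1.le
    have h2 := axis_lin (z := z) hd hXb hXT (c := Real.exp τ * X τ) h0 h
      (s₀ := τ) ⟨hτ, le_rfl⟩ h1 0 ⟨le_rfl, hτ⟩
    rw [neg_zero, Real.exp_zero, mul_one] at h2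
    rw [h2]
  · have h2 : d.ρ / 4 ≤ X 0 := by
      by_contra h3
      rw [not_le] at h3
      have h4 := axis_lin (z := z) hd hXb hXT (c := X 0) (hXb 0).1.le h3.le
        (s₀ := 0) ⟨le_rfl, hτ⟩ (by rw [neg_zero, Real.exp_zero, mul_one]) τ ⟨hτ, le_rfl⟩
      have h5 : Real.exp τ * X τ = X 0 := by
        rw [h4]
        calc Real.exp τ * (X 0 * Real.exp (-τ)) = (Real.exp τ * Real.exp (-τ)) * X 0 := by ring
          _ = X 0 := by rw [hexp, one_mul]
      linarith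
    rw [fF_one, fF_one]
    · rw [le_div_iff₀ hρ]; linarith
    · rw [le_div_iff₀ hρ]; linarith

/-- trajectories which end near the axis -/
theorem near_axis (hd : d.Ok) {τ X₀ Y₀ z : ℝ} (hτ : 0 ≤ τ) (h0 : 0 < X₀) (h1 : X₀ ≤ 1 / 16)
    (hY : |Y₀| ≤ kap * X₀) {γ : ℝ → V} (hγ : Trj (Wf d) γ) (hγτ : γ τ = pt X₀ Y₀ z) :
    ∃ X Y : ℝ, γ 0 = pt X Y z ∧ 0 < X ∧ X ≤ 1 / 16 ∧ |Y| ≤ X ∧
      fF (8 * X / d.ρ) = fF (8 * (Real.exp τ * X₀) / d.ρ) := by
  obtain ⟨X, hXτ, hXb, hXd, hXT⟩ := axis (z := z) hd (τ := τ) h0 h1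
  have hXc : Continuous X := continuous_iff_continuousAt.2 fun s => (hXd s).continuousAt
  obtain ⟨I, hId, hIτ⟩ := exists_I hd hXc τ
  have hYX : ∀ s ∈ Icc 0 τ, |Y₀ * Real.exp (-I s)| ≤ X s := by
    intro s hs
    have h5 := strain_bound hd (fun s => (hXb s).1) hXd hId hτ hIτ hs
    rw [hXτ] at h5
    rw [abs_mul, abs_of_pos (Real.exp_pos _), Real.exp_neg, ← div_eq_mul_inv,
      div_le_iff₀ (Real.exp_pos _)]
    exact hY.trans h5
  have hγ' : ∀ s ∈ Icc 0 τ, HasDerivAt (fun s => pt (X s) (Y₀ * Real.exp (-I s)) z)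
      (Wf d (s, pt (X s) (Y₀ * Real.exp (-I s)) z)) s := by
    intro s hs
    rw [W_pt hd s (hXb s).1.le (by linarith [(hXb s).2]) (hYX s hs)]
    have e0 : HasDerivAt (fun s => Real.exp (-I s)) (Real.exp (-I s) * DD d s (X s)) s := by
      have := (hId s).neg.exp
      rwa [neg_neg] at this
    have e1 : HasDerivAt (fun s => Y₀ * Real.exp (-I s))
        (DD d s (X s) * (Y₀ * Real.exp (-I s))) s := by
      refine (e0.const_mul Y₀).congr_deriv ?_
      ring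
    exact pt_hasDerivAt (hXd s) e1
  have hend : γ τ = pt (X τ) (Y₀ * Real.exp (-I τ)) z := by
    rw [hγτ, hXτ, hIτ, neg_zero, Real.exp_zero, mul_one]
  have key := Trj.unique_Icc (Wf_smooth hd) (γ := γ)
    (γ' := fun s => pt (X s) (Y₀ * Real.exp (-I s)) z) (a := 0) (b := τ)
    (fun s _ => hγ s) hγ' ⟨hτ, le_rfl⟩ hend 0 ⟨le_rfl, hτ⟩
  have hf := front_eq hd hτ hXb hXT
  rw [hXτ] at hf
  exact ⟨X 0, Y₀ * Real.exp (-I 0), key, (hXb 0).1, (hXb 0).2, hYX 0 ⟨le_rfl, hτ⟩, hf⟩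

/-- trajectories on the left -/
theorem left_side (hd : d.Ok) {τ : ℝ} {γ : ℝ → V} (hγ : Trj (Wf d) γ)
    (h : γ τ 0 ∈ Icc (1 / 4 : ℝ) (1 / 2)) : γ 0 0 ∈ Icc (1 / 4 : ℝ) (1 / 2) :=
  ⟨hγ.ge_plane hd (fun n x hx => H0_quarter hd n hx) h.1 0,
    hγ.le_plane hd (fun n x hx => H0_half hd n hx) h.2 0⟩

/-! ### the initial values -/

/-- cut-off -/
noncomputable def chi (z : ℝ) : ℝ := st (2 - (16 * (z - 1 / 2)) ^ 2)

theorem chi_smooth : ContDiff ℝ ∞ chi :=
  st_smooth.comp (contDiff_const.sub ((contDiff_const.mul (contDiff_id.sub contDiff_const)).pow 2))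

theorem chi_one {z : ℝ} (h : |z - 1 / 2| ≤ 1 / 16) : chi z = 1 := by
  unfold chi
  apply st_one
  have h1 : (16 * (z - 1 / 2)) ^ 2 ≤ 1 := by
    rw [← sq_abs, abs_mul, abs_of_pos (by norm_num : (0 : ℝ) < 16)]
    nlinarith [abs_nonneg (z - 1 / 2)]
  linarith

theorem chi_SI : SI (3 / 8) (5 / 8) chi := by
  refine ⟨chi_smooth, fun z hz => ?_⟩
  unfold chi
  apply st_zero
  have h1 : 1 / 8 ≤ |z - 1 / 2| := by
    by_contra h
    rw [not_le, abs_lt] at h
    exact hz ⟨by linarith [h.1], by linarith [h.2]⟩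
  have h2 : 2 ≤ (16 * (z - 1 / 2)) ^ 2 := by
    rw [← sq_abs, abs_mul, abs_of_pos (by norm_num : (0 : ℝ) < 16)]
    nlinarith
  linarith

/-- the profile of the initial values -/
noncomputable def fin (ρ z : ℝ) : ℝ := fF (8 * (z - 1 / 2) / ρ) * chi z

theorem fin_SI (ρ : ℝ) : SI (3 / 8) (5 / 8) (fin ρ) := by
  refine ⟨?_, fun z hz => ?_⟩
  · exact (fF_smooth.comp ((contDiff_const.mul (contDiff_id.sub contDiff_const)).div_const ρ)).mul
      chi_smooth
  · unfold fin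
    rw [chi_SI.supp z hz, mul_zero]

/-- the initial values -/
noncomputable def f0 (d : Dat) : V → ℝ := T2 (fin d.ρ) chi

theorem f0_sp : SP (f0 d) :=
  T2_sp ((fin_SI _).s1 (by norm_num) (by norm_num)) (chi_SI.s1 (by norm_num) (by norm_num))

theorem f0_left {x : V} (hρ : 0 < d.ρ) (h : x 0 ∈ Icc (1 / 4 : ℝ) (1 / 2)) : f0 d x = 0 := by
  unfold f0 T2
  have e : per1 (fin d.ρ) (x 0) = 0 := by
    rw [per1_Icc ((fin_SI d.ρ).s1 (by norm_num) (by norm_num)).sup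
      ⟨by linarith [h.1], by linarith [h.2]⟩]
    unfold fin
    rw [fF_zero, zero_mul]
    rw [div_le_iff₀ hρ]
    linarith [h.2]
  rw [e, zero_mul]

theorem f0_pt {X Y z : ℝ} (h0 : 0 ≤ X) (h1 : X ≤ 1 / 16) (h2 : |Y| ≤ X) :
    f0 d (pt X Y z) = fF (8 * X / d.ρ) := by
  have h3 := abs_le.1 h2
  have e0 : per1 (fin d.ρ) (1 / 2 + X) = fF (8 * X / d.ρ) := by
    rw [per1_Icc ((fin_SI d.ρ).s1 (by norm_num) (by norm_num)).sup ⟨by linarith, by linarith⟩]
    unfold fin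
    rw [chi_one, mul_one]
    · congr 2; ring
    · rw [show 1 / 2 + X - 1 / 2 = X by ring, abs_of_nonneg h0]; exact h1
  have e1 : per1 chi (1 / 2 + Y) = 1 := by
    rw [per1_Icc (chi_SI.s1 (by norm_num) (by norm_num)).sup
      ⟨by linarith [h3.1], by linarith [h3.2]⟩]
    apply chi_one
    rw [show 1 / 2 + Y - 1 / 2 = Y by ring]
    exact h2.trans h1
  show per1 (fin d.ρ) (1 / 2 + X) * per1 chi (1 / 2 + Y) = _
  rw [e0, e1, mul_one]

/-! ### the transported function -/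

/-- the flow -/
noncomputable def Dat.Ok.phi (hd : d.Ok) : ℝ → ℝ × V → ℝ × V :=
  (bflow (Wf_smooth hd) (Wf_le hd)).choose

/-- the transported function -/
noncomputable def Dat.Ok.gg (hd : d.Ok) (z : ℝ × V) : ℝ := f0 d (hd.phi (-z.1) z).2

theorem gg_smooth (hd : d.Ok) : ContDiff ℝ ∞ hd.gg := by
  obtain ⟨-, -, h2, -⟩ := (bflow (Wf_smooth hd) (Wf_le hd)).choose_spec
  have h3 : ContDiff ℝ ∞ (fun z : ℝ × V => hd.phi (-z.1) z) :=
    h2.comp (contDiff_fst.neg.prodMk contDiff_id)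
  exact f0_sp.smooth.comp h3.snd

theorem gg_traj (hd : d.Ok) {γ : ℝ → V} (hγ : Trj (Wf d) γ) (s : ℝ) :
    hd.gg (s, γ s) = f0 d (γ 0) := by
  obtain ⟨h0, h1, -, -⟩ := (bflow (Wf_smooth hd) (Wf_le hd)).choose_spec
  have h2 : ∀ t, HasDerivAt (fun t => ((s + t, γ (s + t)) : ℝ × V))
      ((1 : ℝ), Wf d (s + t, γ (s + t))) t := fun t =>
    HasDerivAt.comp_const_add s t (hγ.lift (s + t))
  have h3 := Pool.Agent.V11198.ode_unique (E := ℝ × V) (V := fun z => ((1 : ℝ), Wf d z))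
    (contDiff_const.prodMk (Wf_smooth hd)) (a := fun t => hd.phi t (s, γ s))
    (b := fun t => (s + t, γ (s + t))) (fun t => h1 _ t) (fun t => h2 t) 0
    (by
      show hd.phi 0 (s, γ s) = _
      rw [show hd.phi 0 (s, γ s) = (s, γ s) from h0 _]
      simp)
  have h4 := congrFun h3 (-s)
  show f0 d (hd.phi (-s) (s, γ s)).2 = _
  have h5 : hd.phi (-s) (s, γ s) = (s + -s, γ (s + -s)) := h4
  rw [h5, add_neg_cancel]

theorem trj_at (hd : d.Ok) (s : ℝ) (x : V) : ∃ γ, Trj (Wf d) γ ∧ γ s = x :=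
  Trj.exists (Wf_smooth hd) (Wf_le hd) s x

/-- the transport equation -/
theorem gg_transport (hd : d.Ok) (s : ℝ) (x : V) :
    fderiv ℝ hd.gg (s, x) ((1 : ℝ), Wf d (s, x)) = 0 := by
  obtain ⟨γ, hγ, hs⟩ := trj_at hd s x
  have h1 : HasDerivAt (fun s => hd.gg (s, γ s))
      (fderiv ℝ hd.gg (s, γ s) ((1 : ℝ), Wf d (s, γ s))) s :=
    HasFDerivAt.comp_hasDerivAt (f := fun s => ((s, γ s) : ℝ × V)) s
      (((gg_smooth hd).differentiable (by simp)) (s, γ s)).hasFDerivAt (hγ.lift s)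
  have e : (fun s => hd.gg (s, γ s)) = fun _ => f0 d (γ 0) := funext fun s => gg_traj hd hγ s
  rw [e] at h1
  have h2 := h1.unique (hasDerivAt_const s _)
  rw [hs] at h2
  exact h2

/-- invariance under translations -/
theorem gg_inv (hd : d.Ok) {v : V} (hH : ∀ n x, d.H n (x + v) = d.H n x)
    (hf : ∀ x, f0 d (x + v) = f0 d x) (s : ℝ) (x : V) : hd.gg (s, x + v) = hd.gg (s, x) := by
  obtain ⟨γ, hγ, hs⟩ := trj_at hd s x
  have hγ' : Trj (Wf d) (fun s => γ s + v) := by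
    intro s
    have e : Wf d (s, γ s + v) = Wf d (s, γ s) := by
      funext i
      show (SS d s)⁻¹ * ∑' n, qn d n s * d.H n (γ s + v) i = _
      simp_rw [hH]
      rfl
    rw [e]
    exact (hγ s).add_const v
  have h1 := gg_traj hd hγ s
  have h2 := gg_traj hd hγ' s
  rw [hs] at h1 h2
  rw [h1, h2]
  exact hf _

theorem gg_left (hd : d.Ok) (s : ℝ) {x : V} (h : x 0 ∈ Icc (1 / 4 : ℝ) (1 / 2)) :
    hd.gg (s, x) = 0 := by
  obtain ⟨γ, hγ, hs⟩ := trj_at hd s x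
  have h1 := gg_traj hd hγ s
  rw [hs] at h1
  rw [h1]
  refine f0_left hd.ρ0 (left_side hd (τ := s) hγ ?_)
  rw [hs]
  exact h

theorem gg_axis (hd : d.Ok) {τ X₀ Y₀ z : ℝ} (hτ : 0 ≤ τ) (h0 : 0 < X₀) (h1 : X₀ ≤ 1 / 16)
    (hY : |Y₀| ≤ kap * X₀) : hd.gg (τ, pt X₀ Y₀ z) = fF (8 * (Real.exp τ * X₀) / d.ρ) := by
  obtain ⟨γ, hγ, hs⟩ := trj_at hd τ (pt X₀ Y₀ z)
  have h2 := gg_traj hd hγ τ
  rw [hs] at h2
  rw [h2]
  obtain ⟨X, Y, e1, e2, e3, e4, e5⟩ := near_axis hd hτ h0 h1 hY hγ hs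
  rw [e1, f0_pt e2.le e3 e4, e5]

end Pool.Agent.V1183.LM
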