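import Pool.Agent.V1183.LM.Ser
import Pool.Agent.V1183.LM.Stm

/-!
Uniqueness of smooth solutions of the modified equations.
-/

open Set Filter Topology MeasureTheory
open scoped ContDiff ENNReal

set_option autoImplicit false

namespace Pool.Agent.V1183.LM

open H459R3.NS Pool.Agent.V1178.NS

section sol

variable {T : ℝ} {K : (V → V) → V → V} {u : ℝ → V → V} {p : ℝ → V → ℝ}

theorem LSol.smooth_c (h : LSol T K u p) (i : Fin 3) :
    ContDiffOn ℝ ∞ (fun z : ℝ × V => u z.1 z.2 i) (Ico 0 T ×ˢ univ) :=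
  (contDiffOn_pi.1 h.smooth_u) i

theorem LSol.sv (h : LSol T K u p) {t : ℝ} (ht : t ∈ Ico 0 T) : SV (u t) := fun i =>
  { smooth := contDiff_slice (f := fun t y => u t y i) (h.smooth_c i) ht
    per := fun j x => by simp only [h.per_u t ht j x] }

theorem LSol.sp_p (h : LSol T K u p) {t : ℝ} (ht : t ∈ Ico 0 T) : SP (p t) where
  smooth := contDiff_slice h.smooth_p ht
  per := h.per_p t ht

/-- the right-hand side -/
noncomputable def rhs (K : (V → V) → V → V) (v : V → V) (q : V → ℝ) (i : Fin 3) (x : V) : ℝ :=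
  -(∑ j, v x j * pd j (fun y => v y i) x) - pd i q x - crossProduct (curl v x) (K v x) i

theorem LSol.dt_eq (h : LSol T K u p) {t : ℝ} (ht : t ∈ Ioo 0 T) (i : Fin 3) (x : V) :
    dt (fun s y => u s y i) t x = rhs K (u t) (p t) i x := by
  have h1 := h.momentum t ht x i
  unfold dt rhs
  linarith

/-- bounds on compact time intervals -/
theorem LSol.bdd (h : LSol T K u p) {b : ℝ} (hb : b < T) :
    ∃ M, 1 ≤ M ∧ ∀ t ∈ Icc 0 b, ∀ x ∈ cube, (∀ i, |u t x i| ≤ M) ∧
      ∀ i j, |pd j (fun y => u t y i) x| ≤ M := by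
  have hK : IsCompact (Icc 0 b ×ˢ cube) := isCompact_Icc.prod isCompact_Icc
  have hsub : Icc 0 b ×ˢ cube ⊆ Ico 0 T ×ˢ (univ : Set V) :=
    prod_mono (fun t ht => ⟨ht.1, ht.2.trans_lt hb⟩) (subset_univ _)
  have h1 : ∀ i, ∃ C, ∀ z ∈ Icc 0 b ×ˢ cube, ‖u z.1 z.2 i‖ ≤ C := fun i =>
    hK.exists_bound_of_continuousOn ((h.smooth_c i).continuousOn.mono hsub)
  have h2 : ∀ i j, ∃ C, ∀ z ∈ Icc 0 b ×ˢ cube, ‖pd j (fun y => u z.1 y i) z.2‖ ≤ C := fun i j =>
    hK.exists_bound_of_continuousOn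
      ((contDiffOn_pd (f := fun s y => u s y i) (h.smooth_c i) j).continuousOn.mono hsub)
  choose C hC using h1
  choose D hD using h2
  refine ⟨1 + ∑ i, |C i| + ∑ i, ∑ j, |D i j|, ?_, fun t ht x hx => ⟨fun i => ?_, fun i j => ?_⟩⟩
  · have : 0 ≤ ∑ i, |C i| := Finset.sum_nonneg fun i _ => abs_nonneg _
    have : 0 ≤ ∑ i, ∑ j, |D i j| :=
      Finset.sum_nonneg fun i _ => Finset.sum_nonneg fun j _ => abs_nonneg _
    linarith
  · have h3 := hC i (t, x) ⟨ht, hx⟩
    have h4 : |C i| ≤ ∑ i, |C i| :=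
      Finset.single_le_sum (f := fun i => |C i|) (fun i _ => abs_nonneg _) (Finset.mem_univ i)
    have : 0 ≤ ∑ i, ∑ j, |D i j| :=
      Finset.sum_nonneg fun i _ => Finset.sum_nonneg fun j _ => abs_nonneg _
    have h5 : |u t x i| ≤ C i := h3
    linarith [le_abs_self (C i)]
  · have h3 := hD i j (t, x) ⟨ht, hx⟩
    have h4 : |D i j| ≤ ∑ j, |D i j| :=
      Finset.single_le_sum (f := fun j => |D i j|) (fun i _ => abs_nonneg _) (Finset.mem_univ j)
    have h6 : ∑ j, |D i j| ≤ ∑ i, ∑ j, |D i j| :=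
      Finset.single_le_sum (f := fun i => ∑ j, |D i j|)
        (fun i _ => Finset.sum_nonneg fun j _ => abs_nonneg _) (Finset.mem_univ i)
    have : 0 ≤ ∑ i, |C i| := Finset.sum_nonneg fun i _ => abs_nonneg _
    have h5 : |pd j (fun y => u t y i) x| ≤ D i j := h3
    linarith [le_abs_self (D i j)]

end sol

/-! ### norms -/

theorem op_le (L : V →L[ℝ] V) {M : ℝ} (hM : ∀ i j, |L (Pi.single j 1) i| ≤ M) :
    ‖L‖ ≤ 3 * M := by
  have hM0 : 0 ≤ M := (abs_nonneg _).trans (hM 0 0)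
  refine L.opNorm_le_bound (by positivity) fun x => ?_
  rw [pi_norm_le_iff_of_nonneg (by positivity)]
  intro i
  have hx : x = ∑ j, x j • (Pi.single j (1 : ℝ) : V) := by
    funext k
    rw [Finset.sum_apply]
    simp [Pi.single_apply]
  have e : L x i = ∑ j, x j * L (Pi.single j 1) i := by
    conv_lhs => rw [hx]
    rw [map_sum, Finset.sum_apply]
    refine Finset.sum_congr rfl fun j _ => ?_
    rw [map_smul]
    rfl
  rw [e, Real.norm_eq_abs]
  refine (Finset.abs_sum_le_sum_abs _ _).trans ?_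
  have : ∀ j ∈ Finset.univ, |x j * L (Pi.single j 1) i| ≤ ‖x‖ * M := by
    intro j _
    rw [abs_mul]
    exact mul_le_mul (norm_le_pi_norm x j) (hM i j) (abs_nonneg _) (norm_nonneg _)
  refine (Finset.sum_le_card_nsmul _ _ _ this).trans (le_of_eq ?_)
  simp
  ring

theorem fderiv_le {v : V → V} (hv : SV v) {x : V} {M : ℝ}
    (hM : ∀ i j, |pd j (fun y => v y i) x| ≤ M) : ‖fderiv ℝ v x‖ ≤ 3 * M := by
  refine op_le _ fun i j => ?_
  have hd : DifferentiableAt ℝ v x := (hv.smooth.differentiable (by simp)) x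
  have e : pd j (fun y => v y i) x = (fderiv ℝ v x (Pi.single j 1)) i := by
    unfold pd
    have h1 : HasFDerivAt (fun y => v y i)
        ((ContinuousLinearMap.proj (R := ℝ) (φ := fun _ : Fin 3 => ℝ) i).comp (fderiv ℝ v x)) x :=
      (ContinuousLinearMap.proj (R := ℝ) (φ := fun _ : Fin 3 => ℝ) i).hasFDerivAt.comp x
        hd.hasFDerivAt
    rw [h1.fderiv]
    rfl
  rw [← e]
  exact hM i j

theorem Np_top_le {E : Type*} [NormedAddCommGroup E] {v : V → E} {M : ℝ} (hM0 : 0 ≤ M)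
    (h : ∀ x ∈ cube, ‖v x‖ ≤ M) : Np ⊤ v ≤ M := by
  unfold Np
  refine ENNReal.toReal_le_of_le_ofReal hM0 ?_
  rw [eLpNorm_exponent_top]
  refine eLpNormEssSup_le_of_ae_bound ?_
  exact (ae_restrict_iff' measurableSet_Icc).2 (Filter.Eventually.of_forall fun x hx => h x hx)

theorem Np_one_eq {v : V → V} (hv : Continuous v) : Np 1 v = ∫ x in cube, ‖v x‖ := by
  unfold Np
  rw [eLpNorm_one_eq_lintegral_enorm, integral_norm_eq_lintegral_enorm hv.aestronglyMeasurable]

theorem Np_two_sq {v : V → V} (hv : Continuous v) : Np 2 v ^ 2 = ∫ x in cube, ‖v x‖ ^ 2 := by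
  have hm : MemLp v 2 (volume.restrict cube) := memLp_cube hv 2
  unfold Np
  rw [hm.eLpNorm_eq_integral_rpow_norm (by norm_num) (by norm_num),
    ENNReal.toReal_ofReal (Real.rpow_nonneg (integral_nonneg fun x => by positivity) _)]
  rw [← Real.rpow_natCast, ← Real.rpow_mul (integral_nonneg fun x => by positivity)]
  norm_num

/-- energy of a field -/
noncomputable def En (w : V → V) : ℝ := ∑ i, ∫ x in cube, w x i * w x i

theorem sq_norm_le (y : V) : ‖y‖ ^ 2 ≤ ∑ i, y i * y i := by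
  have h0 : 0 ≤ ∑ i, y i * y i := Finset.sum_nonneg fun i _ => mul_self_nonneg _
  have h1 : ‖y‖ ≤ Real.sqrt (∑ i, y i * y i) := by
    rw [pi_norm_le_iff_of_nonneg (Real.sqrt_nonneg _)]
    intro i
    rw [Real.norm_eq_abs]
    apply Real.abs_le_sqrt
    rw [sq]
    exact Finset.single_le_sum (f := fun i => y i * y i) (fun i _ => mul_self_nonneg _)
      (Finset.mem_univ i)
  calc ‖y‖ ^ 2 ≤ Real.sqrt (∑ i, y i * y i) ^ 2 := by gcongr
    _ = _ := Real.sq_sqrt h0

theorem En_eq {w : V → V} (hw : SV w) : En w = ∫ x in cube, ∑ i, w x i * w x i := by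
  unfold En
  rw [integral_finsetSum _ fun i _ => ((hw i).mul (hw i)).int]

theorem int_sq_le {w : V → V} (hw : SV w) : ∫ x in cube, ‖w x‖ ^ 2 ≤ En w := by
  rw [En_eq hw]
  refine setIntegral_mono_on ?_ ?_ measurableSet_Icc fun x _ => sq_norm_le (w x)
  · exact integrableOn_cube (hw.cont.norm.pow 2)
  · exact integrableOn_cube (continuous_finset_sum _ fun i _ => ((hw i).cont.mul (hw i).cont))

theorem En_nonneg (w : V → V) : 0 ≤ En w :=
  Finset.sum_nonneg fun i _ => integral_nonneg fun x => mul_self_nonneg _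

end Pool.Agent.V1183.LM
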