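import Pool.Agent.V1183.LM.Uniq

/-!
Uniqueness of smooth solutions of the modified equations: the estimate.
-/

open Set Filter Topology MeasureTheory
open scoped ContDiff ENNReal

set_option autoImplicit false

namespace Pool.Agent.V1183.LM

open H459R3.NS Pool.Agent.V1178.NS

theorem pd_sub' {f g : V → ℝ} (hf : SP f) (hg : SP g) (j : Fin 3) (x : V) :
    pd j (fun y => f y - g y) x = pd j f x - pd j g x := by
  unfold pd
  have h : HasFDerivAt (fun y => f y - g y) (fderiv ℝ f x - fderiv ℝ g x) x :=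
    (hf.diff x).hasFDerivAt.sub (hg.diff x).hasFDerivAt
  rw [h.fderiv]
  rfl

theorem cross0 (a b : V) : crossProduct a b 0 = a 1 * b 2 - a 2 * b 1 := by rw [cross_apply]; rfl
theorem cross1 (a b : V) : crossProduct a b 1 = a 2 * b 0 - a 0 * b 2 := by rw [cross_apply]; rfl
theorem cross2 (a b : V) : crossProduct a b 2 = a 0 * b 1 - a 1 * b 0 := by rw [cross_apply]; rfl

theorem curl_sv {v : V → V} (hv : SV v) : SV (curl v) := by
  intro i
  fin_cases i
  · exact sp_sub ((hv 2).pd 1) ((hv 1).pd 2)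
  · exact sp_sub ((hv 0).pd 2) ((hv 2).pd 0)
  · exact sp_sub ((hv 1).pd 0) ((hv 0).pd 1)

theorem sp_congr {f g : V → ℝ} (h : SP f) (e : ∀ x, g x = f x) : SP g := by
  have : g = f := funext e
  rwa [this]

theorem cross_sv {a b : V → V} (ha : SV a) (hb : SV b) :
    SV (fun x => crossProduct (a x) (b x)) := by
  intro i
  fin_cases i
  · exact sp_congr (sp_sub ((ha 1).mul (hb 2)) ((ha 2).mul (hb 1))) fun x => cross0 _ _
  · exact sp_congr (sp_sub ((ha 2).mul (hb 0)) ((ha 0).mul (hb 2))) fun x => cross1 _ _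
  · exact sp_congr (sp_sub ((ha 0).mul (hb 1)) ((ha 1).mul (hb 0))) fun x => cross2 _ _

theorem toSPV {v : V → V} (h : SV v) : SPV v := ⟨h.smooth, h.per⟩

theorem int6 {f1 f2 f3 f4 f5 f6 : V → ℝ} (h1 : SP f1) (h2 : SP f2) (h3 : SP f3) (h4 : SP f4)
    (h5 : SP f5) (h6 : SP f6) :
    ∫ x in cube, (-(f1 x) - f2 x - f3 x - f4 x + f5 x - f6 x)
      = -(∫ x in cube, f1 x) - (∫ x in cube, f2 x) - (∫ x in cube, f3 x) - (∫ x in cube, f4 x)
        + (∫ x in cube, f5 x) - ∫ x in cube, f6 x := by
  have i1 : IntegrableOn (fun x => -(f1 x)) cube := h1.int.neg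
  have i2 : IntegrableOn (fun x => -(f1 x) - f2 x) cube := i1.sub h2.int
  have i3 : IntegrableOn (fun x => -(f1 x) - f2 x - f3 x) cube := i2.sub h3.int
  have i4 : IntegrableOn (fun x => -(f1 x) - f2 x - f3 x - f4 x) cube := i3.sub h4.int
  have i5 : IntegrableOn (fun x => -(f1 x) - f2 x - f3 x - f4 x + f5 x) cube := i4.add h5.int
  rw [integral_sub i5 h6.int, integral_add i4 h5.int, integral_sub i3 h4.int,
    integral_sub i2 h3.int, integral_sub i1 h2.int, integral_neg]

section static

variable {β δ r : ℝ} {K : (V → V) → V → V}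

theorem K_sub (hK : Smo β δ r K) {u v : V → V} (hu : SV u) (hv : SV v) :
    K (fun x => u x - v x) = fun x => K u x - K v x := by
  have h1 := hK.linear (-1) v u (toSPV hv) (toSPV hu)
  have e : (-1 : ℝ) • v + u = fun x => u x - v x := by
    funext x; simp [sub_eq_neg_add]
  rw [e] at h1
  rw [h1]
  funext x
  simp [sub_eq_neg_add]

theorem K_sv (hK : Smo β δ r K) {u : V → V} (hu : SV u) : SV (K u) :=
  (hK.smooth u (toSPV hu)).sv

theorem curl_sub {u v : V → V} (hu : SV u) (hv : SV v) (x : V) :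
    curl (fun x => u x - v x) x = curl u x - curl v x := by
  have e : ∀ i j, pd j (fun y => u y i - v y i) x = pd j (fun y => u y i) x
      - pd j (fun y => v y i) x := fun i j => pd_sub' (hu i) (hv i) j x
  unfold curl
  simp only [Pi.sub_apply, e]
  funext k
  fin_cases k <;> simp <;> ring

/-- the transport term vanishes -/
theorem transport0 {a w : V → V} (ha : SV a) (hw : SV w)
    (hdiv : ∀ x, ∑ i, pd i (fun y => a y i) x = 0) :
    ∫ x in cube, ∑ i, ∑ j, a x j * (w x i * pd j (fun y => w y i) x) = 0 := by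
  rw [integral_finsetSum _ fun i _ => ?_]
  · refine Finset.sum_eq_zero fun i _ => ?_
    rw [integral_finsetSum _ fun j _ => ((ha j).mul ((hw i).mul ((hw i).pd j))).int]
    exact transport_zero (v := fun j y => a y j) (fun j => ha j) hdiv (hw i)
  · exact (SP.sum fun j _ => (ha j).mul ((hw i).mul ((hw i).pd j))).int

/-- the commutator term -/
theorem comm_term {a w : V → V} (ha : SV a) (hw : SV w)
    (hdiv : ∀ x, ∑ i, pd i (fun y => w y i) x = 0) :
    ∫ x in cube, ∑ i, ∑ j, w x i * a x j * pd i (fun y => w y j) x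
      = -∑ i, dot (fun x j => pd i (fun y => a y j) x) (fun x j => w x i * w x j) := by
  have hsp : ∀ i j, SP (fun x => w x i * a x j) := fun i j => (hw i).mul (ha j)
  have e1 : ∫ x in cube, ∑ i, ∑ j, w x i * a x j * pd i (fun y => w y j) x
      = ∑ i, ∑ j, ∫ x in cube, w x i * a x j * pd i (fun y => w y j) x := by
    rw [integral_finsetSum _ fun i _ => (SP.sum fun j _ => (hsp i j).mul ((hw j).pd i)).int]
    refine Finset.sum_congr rfl fun i _ => ?_
    rw [integral_finsetSum _ fun j _ => ((hsp i j).mul ((hw j).pd i)).int]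
  have e2 : ∀ i j, ∫ x in cube, w x i * a x j * pd i (fun y => w y j) x
      = -(∫ x in cube, pd i (fun y => w y i) x * (a x j * w x j))
        - ∫ x in cube, pd i (fun y => a y j) x * (w x i * w x j) := by
    intro i j
    have h1 := ibp (hsp i j) (hw j) i
    have h2 : ∫ x in cube, pd i (fun x => w x i * a x j) x * w x j
        = (∫ x in cube, pd i (fun y => w y i) x * (a x j * w x j))
        + ∫ x in cube, pd i (fun y => a y j) x * (w x i * w x j) := by
      rw [← integral_add (((hw i).pd i).mul ((ha j).mul (hw j))).int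
        (((ha j).pd i).mul ((hw i).mul (hw j))).int]
      congr 1
      funext x
      rw [pd_mul (hw i) (ha j)]
      ring
    rw [h2] at h1
    linarith
  have e3 : ∑ i, ∑ j, ∫ x in cube, pd i (fun y => w y i) x * (a x j * w x j) = 0 := by
    rw [Finset.sum_comm]
    refine Finset.sum_eq_zero fun j _ => ?_
    rw [← integral_finsetSum _ fun i _ => (((hw i).pd i).mul ((ha j).mul (hw j))).int]
    have : ∀ x, ∑ i, pd i (fun y => w y i) x * (a x j * w x j) = 0 := fun x => by
      rw [← Finset.sum_mul, hdiv, zero_mul]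
    simp_rw [this]
    simp
  rw [e1]
  simp_rw [e2]
  simp_rw [Finset.sum_sub_distrib, Finset.sum_neg_distrib]
  rw [e3, neg_zero, zero_sub]
  rfl

/-- pointwise identity -/
theorem pw_id (w a v c k : V) (Dw Du : Fin 3 → Fin 3 → ℝ) (P : V) (cw : V)
    (hcw : cw = ![Dw 2 1 - Dw 1 2, Dw 0 2 - Dw 2 0, Dw 1 0 - Dw 0 1]) :
    ∑ i, w i * (-(∑ j, (w j * Du i j + v j * Dw i j)) - P i
        - (crossProduct cw a i + crossProduct c k i))
      = -(∑ i, ∑ j, w i * w j * Du i j) - (∑ i, ∑ j, v j * (w i * Dw i j)) - (∑ i, w i * P i)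
        - (∑ i, ∑ j, a j * (w i * Dw i j)) + (∑ i, ∑ j, w i * a j * Dw j i)
        - ∑ i, k i * crossProduct w c i := by
  subst hcw
  simp only [Fin.sum_univ_three, cross0, cross1, cross2, Matrix.cons_val_zero, Matrix.cons_val_one,
    Matrix.cons_val]
  ring

theorem rhs_diff (hK : Smo β δ r K) {u v : V → V} (hu : SV u) (hv : SV v) {p q : V → ℝ}
    (hp : SP p) (hq : SP q) (x : V) (i : Fin 3) :
    rhs K u p i x - rhs K v q i x =
      -(∑ j, ((u x - v x) j * pd j (fun y => u y i) x
        + v x j * pd j (fun y => (u y - v y) i) x)) - pd i (fun y => p y - q y) x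
      - (crossProduct (curl (fun x => u x - v x) x) (K u x) i
        + crossProduct (curl v x) (K (fun x => u x - v x) x) i) := by
  have e : ∀ j, pd j (fun y => (u y - v y) i) x = pd j (fun y => u y i) x
      - pd j (fun y => v y i) x := fun j => pd_sub' (hu i) (hv i) j x
  rw [K_sub hK hu hv, curl_sub hu hv, pd_sub' hp hq]
  simp only [e]
  unfold rhs
  have e2 : crossProduct (curl u x - curl v x) (K u x) i
      = crossProduct (curl u x) (K u x) i - crossProduct (curl v x) (K u x) i := by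
    rw [map_sub]; rfl
  have e3 : crossProduct (curl v x) (K u x - K v x) i
      = crossProduct (curl v x) (K u x) i - crossProduct (curl v x) (K v x) i := by
    rw [map_sub]; rfl
  rw [e2, e3]
  have e4 : ∑ j, ((u x - v x) j * pd j (fun y => u y i) x
        + v x j * (pd j (fun y => u y i) x - pd j (fun y => v y i) x))
      = (∑ j, u x j * pd j (fun y => u y i) x) - ∑ j, v x j * pd j (fun y => v y i) x := by
    rw [← Finset.sum_sub_distrib]
    refine Finset.sum_congr rfl fun j _ => ?_
    rw [Pi.sub_apply]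
    ring
  rw [e4]
  ring

theorem Np1_le {w : V → V} (hw : SV w) (i : Fin 3) :
    Np 1 (fun x j => w x i * w x j) ≤ En w := by
  have hc : Continuous (fun (x : V) (j : Fin 3) => w x i * w x j) :=
    continuous_pi fun j => (hw i).cont.mul (hw j).cont
  rw [Np_one_eq hc]
  refine le_trans ?_ (int_sq_le hw)
  refine setIntegral_mono_on (integrableOn_cube hc.norm) (integrableOn_cube (hw.cont.norm.pow 2))
    measurableSet_Icc fun x _ => ?_
  rw [pi_norm_le_iff_of_nonneg (by positivity)]
  intro j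
  rw [norm_mul, sq]
  exact mul_le_mul (norm_le_pi_norm _ i) (norm_le_pi_norm _ j) (norm_nonneg _) (norm_nonneg _)

theorem Np2_cross {w c : V → V} (hw : SV w) (hc : SV c) {M : ℝ} (hM0 : 0 ≤ M)
    (hM : ∀ x ∈ cube, ∀ i, |c x i| ≤ 2 * M) :
    Np 2 w * Np 2 (fun x => crossProduct (w x) (c x)) ≤ 4 * M * En w := by
  have hs := cross_sv hw hc
  have h1 := Np_two_sq hw.cont
  have h2 := Np_two_sq hs.cont
  have h3 : ∫ x in cube, ‖crossProduct (w x) (c x)‖ ^ 2 ≤ ∫ x in cube, (4 * M) ^ 2 * ‖w x‖ ^ 2 := by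
    refine setIntegral_mono_on (integrableOn_cube (hs.cont.norm.pow 2))
      (integrableOn_cube ((hw.cont.norm.pow 2).const_mul _)) measurableSet_Icc fun x hx => ?_
    rw [← mul_pow]
    have h4 : ‖crossProduct (w x) (c x)‖ ≤ 4 * M * ‖w x‖ := by
      have hb : ∀ a b : ℝ, |a| ≤ ‖w x‖ → |b| ≤ 2 * M → |a * b| ≤ 2 * M * ‖w x‖ := by
        intro a b ha hb
        rw [abs_mul, mul_comm]
        exact mul_le_mul hb ha (abs_nonneg _) (by positivity)
      rw [pi_norm_le_iff_of_nonneg (by positivity)]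
      intro i
      have hn : ∀ j, |w x j| ≤ ‖w x‖ := fun j => norm_le_pi_norm (w x) j
      rw [Real.norm_eq_abs]
      fin_cases i
      · show |crossProduct (w x) (c x) 0| ≤ _
        rw [cross0]
        have a1 := hb _ _ (hn 1) (hM x hx 2)
        have a2 := hb _ _ (hn 2) (hM x hx 1)
        have a3 := abs_sub (w x 1 * c x 2) (w x 2 * c x 1)
        linarith
      · show |crossProduct (w x) (c x) 1| ≤ _
        rw [cross1]
        have a1 := hb _ _ (hn 2) (hM x hx 0)
        have a2 := hb _ _ (hn 0) (hM x hx 2)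
        have a3 := abs_sub (w x 2 * c x 0) (w x 0 * c x 2)
        linarith
      · show |crossProduct (w x) (c x) 2| ≤ _
        rw [cross2]
        have a1 := hb _ _ (hn 0) (hM x hx 1)
        have a2 := hb _ _ (hn 1) (hM x hx 0)
        have a3 := abs_sub (w x 0 * c x 1) (w x 1 * c x 0)
        linarith
    gcongr
  rw [integral_const_mul, ← h1, ← h2] at h3
  have h5 : Np 2 (fun x => crossProduct (w x) (c x)) ≤ 4 * M * Np 2 w := by
    rw [← mul_pow] at h3
    exact le_of_sq_le_sq h3 (by have := Np_nonneg 2 w; positivity)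
  have h6 := int_sq_le hw
  rw [← h1] at h6
  have h7 := Np_nonneg 2 w
  calc Np 2 w * Np 2 (fun x => crossProduct (w x) (c x)) ≤ Np 2 w * (4 * M * Np 2 w) := by gcongr
    _ = 4 * M * Np 2 w ^ 2 := by ring
    _ ≤ 4 * M * En w := by gcongr
where
  le_of_sq_le_sq {a b : ℝ} (h : a ^ 2 ≤ b ^ 2) (hb : 0 ≤ b) : a ≤ b := by
    exact abs_le_of_sq_le_sq' h hb |>.2

/-- the estimate at a fixed time -/
theorem static_bound (hK : Smo β δ r K) (hβ0 : 0 ≤ β) (hβ1 : β < 1) (hδ : 0 ≤ δ) {u v : V → V} (hu : SV u)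
    (hv : SV v) (du : ∀ x, ∑ i, pd i (fun y => u y i) x = 0)
    (dv : ∀ x, ∑ i, pd i (fun y => v y i) x = 0) {p q : V → ℝ} (hp : SP p) (hq : SP q) {M : ℝ}
    (hM : 1 ≤ M) (bu : ∀ x ∈ cube, (∀ i, |u x i| ≤ M) ∧ ∀ i j, |pd j (fun y => u y i) x| ≤ M)
    (bv : ∀ x ∈ cube, (∀ i, |v x i| ≤ M) ∧ ∀ i j, |pd j (fun y => v y i) x| ≤ M) :
    ∑ i, ∫ x in cube, (u x i - v x i) * (rhs K u p i x - rhs K v q i x)
      ≤ (3 * M + 13 * δ * M) * En (fun x => u x - v x) := by
  obtain ⟨w, hwdef⟩ : ∃ w : V → V, w = fun x => u x - v x := ⟨_, rfl⟩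
  have hw : SV w := by rw [hwdef]; exact fun i => sp_sub (hu i) (hv i)
  have hwi : ∀ x i, w x i = u x i - v x i := fun x i => by rw [hwdef]; rfl
  have dw : ∀ x, ∑ i, pd i (fun y => w y i) x = 0 := by
    intro x
    have e : ∀ i, pd i (fun y => w y i) x = pd i (fun y => u y i) x - pd i (fun y => v y i) x :=
      fun i => by
        rw [← pd_sub' (hu i) (hv i)]
        simp_rw [hwi]
    simp_rw [e]
    rw [Finset.sum_sub_distrib, du, dv, sub_zero]
  have hKu := K_sv hK hu
  have hKw := K_sv hK hw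
  have hcv := curl_sv hv
  have hcw := curl_sv hw
  have hpq : SP (fun y => p y - q y) := sp_sub hp hq
  -- the integrand
  have key : ∀ x, ∑ i, (u x i - v x i) * (rhs K u p i x - rhs K v q i x)
      = -(∑ i, ∑ j, w x i * w x j * pd j (fun y => u y i) x)
        - (∑ i, ∑ j, v x j * (w x i * pd j (fun y => w y i) x))
        - (∑ i, w x i * pd i (fun y => p y - q y) x)
        - (∑ i, ∑ j, K u x j * (w x i * pd j (fun y => w y i) x))
        + (∑ i, ∑ j, w x i * K u x j * pd i (fun y => w y j) x)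
        - ∑ i, K w x i * crossProduct (w x) (curl v x) i := by
    intro x
    have h1 := pw_id (w x) (K u x) (v x) (curl v x) (K w x)
      (fun i j => pd j (fun y => w y i) x) (fun i j => pd j (fun y => u y i) x)
      (fun i => pd i (fun y => p y - q y) x) (curl w x) rfl
    rw [← h1]
    refine Finset.sum_congr rfl fun i _ => ?_
    rw [rhs_diff hK hu hv hp hq, ← hwi, ← hwdef]
    have e1 : ∀ j, (u x - v x) j = w x j := fun j => (hwi x j).symm
    have e2 : (fun y => (u y - v y) i) = fun y => w y i := funext fun y => (hwi y i).symm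
    simp only [e1, e2]
  have s1 : SP (fun x => ∑ i, ∑ j, w x i * w x j * pd j (fun y => u y i) x) :=
    SP.sum fun i _ => SP.sum fun j _ => ((hw i).mul (hw j)).mul ((hu i).pd j)
  have s2 : SP (fun x => ∑ i, ∑ j, v x j * (w x i * pd j (fun y => w y i) x)) :=
    SP.sum fun i _ => SP.sum fun j _ => (hv j).mul ((hw i).mul ((hw i).pd j))
  have s3 : SP (fun x => ∑ i, w x i * pd i (fun y => p y - q y) x) :=
    SP.sum fun i _ => (hw i).mul (hpq.pd i)
  have s4 : SP (fun x => ∑ i, ∑ j, K u x j * (w x i * pd j (fun y => w y i) x)) :=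
    SP.sum fun i _ => SP.sum fun j _ => (hKu j).mul ((hw i).mul ((hw i).pd j))
  have s5 : SP (fun x => ∑ i, ∑ j, w x i * K u x j * pd i (fun y => w y j) x) :=
    SP.sum fun i _ => SP.sum fun j _ => ((hw i).mul (hKu j)).mul ((hw j).pd i)
  have s6 : SP (fun x => ∑ i, K w x i * crossProduct (w x) (curl v x) i) :=
    SP.sum fun i _ => (hKw i).mul (cross_sv hw hcv i)
  have hrhs : ∀ (u : V → V) (_ : SV u) (p : V → ℝ) (_ : SP p) i, SP (rhs K u p i) := by
    intro u hu p hp i
    have h1 : SP (fun x => -1 * (∑ j, u x j * pd j (fun y => u y i) x)) :=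
      sp_cmul (SP.sum fun j _ => (hu j).mul ((hu i).pd j)) (-1)
    refine sp_congr (sp_sub (sp_sub h1 (hp.pd i)) (cross_sv (curl_sv hu) (K_sv hK hu) i))
      fun x => ?_
    unfold rhs
    ring
  have e0 : ∑ i, ∫ x in cube, (u x i - v x i) * (rhs K u p i x - rhs K v q i x)
      = ∫ x in cube, ∑ i, (u x i - v x i) * (rhs K u p i x - rhs K v q i x) := by
    rw [integral_finsetSum _ fun i _ => ((sp_sub (hu i) (hv i)).mul
      (sp_sub (hrhs u hu p hp i) (hrhs v hv q hq i))).int]
  rw [e0]
  simp_rw [key]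
  have i1 := s1.int
  rw [int6 s1 s2 s3 s4 s5 s6, transport0 hv hw dv, transport0 hKu hw (hK.divfree u (toSPV hu)), comm_term hKu hw dw]
  have e3 : ∫ x in cube, ∑ i, w x i * pd i (fun y => p y - q y) x = 0 := by
    rw [integral_finsetSum _ fun i _ => ((hw i).mul (hpq.pd i)).int]
    exact int_press (v := fun i y => w y i) (fun i => hw i) dw hpq
  have e6 : ∫ x in cube, ∑ i, K w x i * crossProduct (w x) (curl v x) i
      = dot (K w) (fun x => crossProduct (w x) (curl v x)) := by
    unfold dot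
    rw [integral_finsetSum _ fun i _ => ((hKw i).mul (cross_sv hw hcv i)).int]
  rw [e3, e6]
  -- the bounds
  have hM0 : 0 ≤ M := by linarith
  have hEn := En_nonneg w
  have b1 : -(∫ x in cube, ∑ i, ∑ j, w x i * w x j * pd j (fun y => u y i) x) ≤ 3 * M * En w := by
    rw [← integral_neg, En_eq hw, ← integral_const_mul]
    refine setIntegral_mono_on i1.neg (integrableOn_cube ?_) measurableSet_Icc fun x hx => ?_
    · exact continuous_const.mul
        (continuous_finsetSum _ fun i _ => ((hw i).cont.mul (hw i).cont))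
    · have h1 : ∀ i j, -(w x i * w x j * pd j (fun y => u y i) x) ≤ M * (|w x i| * |w x j|) := by
        intro i j
        have h2 := (bu x hx).2 i j
        have h3 : |w x i * w x j * pd j (fun y => u y i) x| ≤ (|w x i| * |w x j|) * M := by
          rw [abs_mul, abs_mul]
          exact mul_le_mul_of_nonneg_left h2 (by positivity)
        have h4 := neg_abs_le (w x i * w x j * pd j (fun y => u y i) x)
        linarith
      have h5 : -(∑ i, ∑ j, w x i * w x j * pd j (fun y => u y i) x)
          ≤ ∑ i, ∑ j, M * (|w x i| * |w x j|) := by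
        rw [← Finset.sum_neg_distrib]
        refine Finset.sum_le_sum fun i _ => ?_
        rw [← Finset.sum_neg_distrib]
        exact Finset.sum_le_sum fun j _ => h1 i j
      refine h5.trans ?_
      simp only [Fin.sum_univ_three]
      have a0 := sq_abs (w x 0)
      have a1 := sq_abs (w x 1)
      have a2 := sq_abs (w x 2)
      nlinarith [sq_nonneg (|w x 0| - |w x 1|), sq_nonneg (|w x 0| - |w x 2|),
        sq_nonneg (|w x 1| - |w x 2|), mul_nonneg hM0 (sq_nonneg (|w x 0| - |w x 1|)),
        mul_nonneg hM0 (sq_nonneg (|w x 0| - |w x 2|)),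
        mul_nonneg hM0 (sq_nonneg (|w x 1| - |w x 2|))]
  have b5 : -∑ i, dot (fun x j => pd i (fun y => K u y j) x) (fun x j => w x i * w x j)
      ≤ 9 * δ * M * En w := by
    have h1 : ∀ i, -dot (fun x j => pd i (fun y => K u y j) x) (fun x j => w x i * w x j)
        ≤ 3 * δ * M * En w := by
      intro i
      have hww : SV (fun x j => w x i * w x j) := fun j => (hw i).mul (hw j)
      have h2 := hK.order ⊤ 1 (by simp) u _ (toSPV hu) (toSPV hww) i
      have h3 : Np ⊤ u ≤ 3 * M := (Np_top_le hM0 fun x hx =>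
        (pi_norm_le_iff_of_nonneg hM0).2 fun i => (bu x hx).1 i).trans (by linarith)
      have h4 : Np ⊤ (fderiv ℝ u) ≤ 3 * M :=
        Np_top_le (by positivity) fun x hx => fderiv_le hu (bu x hx).2
      have h5 : Np 1 (fun x j => w x i * w x j) ≤ En w := Np1_le hw i
      have h6 : Np ⊤ u ^ β * Np ⊤ (fderiv ℝ u) ^ (1 - β) ≤ 3 * M := by
        have h7 : Np ⊤ u ^ β ≤ (3 * M) ^ β := Real.rpow_le_rpow (Np_nonneg _ _) h3 hβ0
        have h8 : Np ⊤ (fderiv ℝ u) ^ (1 - β) ≤ (3 * M) ^ (1 - β) :=
          Real.rpow_le_rpow (Np_nonneg _ _) h4 (by linarith)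
        calc Np ⊤ u ^ β * Np ⊤ (fderiv ℝ u) ^ (1 - β) ≤ (3 * M) ^ β * (3 * M) ^ (1 - β) :=
              mul_le_mul h7 h8 (Real.rpow_nonneg (Np_nonneg _ _) _) (by positivity)
          _ = 3 * M := by
              rw [← Real.rpow_add (by positivity)]
              rw [show β + (1 - β) = 1 by ring, Real.rpow_one]
      calc -dot (fun x j => pd i (fun y => K u y j) x) (fun x j => w x i * w x j)
          ≤ |dot (fun x j => pd i (fun y => K u y j) x) (fun x j => w x i * w x j)| :=
            neg_le_abs _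
        _ ≤ δ * (Np ⊤ u ^ β * Np ⊤ (fderiv ℝ u) ^ (1 - β) * Np 1 (fun x j => w x i * w x j)) := h2
        _ ≤ δ * (3 * M * En w) := by
            have := Np_nonneg 1 (fun (x : V) (j : Fin 3) => w x i * w x j)
            gcongr
        _ = _ := by ring
    rw [← Finset.sum_neg_distrib]
    refine (Finset.sum_le_card_nsmul _ _ _ fun i _ => h1 i).trans (le_of_eq ?_)
    simp
    ring
  have b6 : -dot (K w) (fun x => crossProduct (w x) (curl v x)) ≤ 4 * δ * M * En w := by
    have h2 := hK.bound 2 2 (by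
      rw [ENNReal.inv_two_add_inv_two]) w _ (toSPV hw) (toSPV (cross_sv hw hcv))
    have h3 : ∀ x ∈ cube, ∀ i, |curl v x i| ≤ 2 * M := by
      intro x hx i
      have hb := (bv x hx).2
      fin_cases i
      · exact (abs_sub _ _).trans (by linarith [hb 2 1, hb 1 2])
      · exact (abs_sub _ _).trans (by linarith [hb 0 2, hb 2 0])
      · exact (abs_sub _ _).trans (by linarith [hb 1 0, hb 0 1])
    have h4 := Np2_cross hw hcv hM0 h3
    calc -dot (K w) (fun x => crossProduct (w x) (curl v x))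
        ≤ |dot (K w) (fun x => crossProduct (w x) (curl v x))| := neg_le_abs _
      _ ≤ δ * (Np 2 w * Np 2 (fun x => crossProduct (w x) (curl v x))) := h2
      _ ≤ δ * (4 * M * En w) := by gcongr
      _ = _ := by ring
  rw [← hwdef]
  linarith

end static

end Pool.Agent.V1183.LM
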