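import Pool.Agent.V1183.LM.Uniq2

/-!
Uniqueness of smooth solutions of the modified equations.
-/

open Set Filter Topology MeasureTheory
open scoped ContDiff ENNReal

set_option autoImplicit false

namespace Pool.Agent.V1183.LM

open H459R3.NS Pool.Agent.V1178.NS

variable {β δ r T T' : ℝ} {K : (V → V) → V → V} {u v : ℝ → V → V} {p q : ℝ → V → ℝ}

theorem LSol.restrict (h : LSol T K u p) (hT : T' ≤ T) : LSol T' K u p where
  smooth_u := h.smooth_u.mono (prod_mono (Ico_subset_Ico_right hT) subset_rfl)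
  smooth_p := h.smooth_p.mono (prod_mono (Ico_subset_Ico_right hT) subset_rfl)
  per_u := fun t ht => h.per_u t ⟨ht.1, ht.2.trans_le hT⟩
  per_p := fun t ht => h.per_p t ⟨ht.1, ht.2.trans_le hT⟩
  divfree := fun t ht => h.divfree t ⟨ht.1, ht.2.trans_le hT⟩
  momentum := fun t ht => h.momentum t ⟨ht.1, ht.2.trans_le hT⟩

theorem slice_dt (h : LSol T K u p) {t : ℝ} (ht : t ∈ Ioo 0 T) (i : Fin 3) (x : V) :
    HasDerivAt (fun s => u s x i) (rhs K (u t) (p t) i x) t := by
  have := hasDerivAt_slice (F := fun s y => u s y i)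
    (mono_Ioo (f := fun s y => u s y i) (h.smooth_c i) (by norm_cast)) ht x
  rw [← H459R3.NS.dt_eq (f := fun s y => u s y i) (h.smooth_c i) ht x, h.dt_eq ht] at this
  exact this

theorem En_hasDerivAt (h : LSol T K u p) (h' : LSol T K v q) {t : ℝ} (ht : t ∈ Ioo 0 T) :
    HasDerivAt (fun s => En (fun x => u s x - v s x))
      (2 * ∑ i, ∫ x in cube, (u t x i - v t x i) * (rhs K (u t) (p t) i x - rhs K (v t) (q t) i x))
      t := by
  have h1 : ∀ i, HasDerivAt (fun s => ∫ x in cube, (u s x i - v s x i) * (u s x i - v s x i))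
      (2 * ∫ x in cube, (u t x i - v t x i) * (rhs K (u t) (p t) i x - rhs K (v t) (q t) i x))
      t := by
    intro i
    have hD : ContDiffOn ℝ 1 (fun z : ℝ × V => u z.1 z.2 i - v z.1 z.2 i) (Ioo 0 T ×ˢ univ) :=
      (mono_Ioo (f := fun s y => u s y i) (h.smooth_c i) (by norm_cast)).sub
        (mono_Ioo (f := fun s y => v s y i) (h'.smooth_c i) (by norm_cast))
    have hF : ContDiffOn ℝ 1 (fun z : ℝ × V => (u z.1 z.2 i - v z.1 z.2 i)
        * (u z.1 z.2 i - v z.1 z.2 i)) (Ioo 0 T ×ˢ univ) := hD.mul hD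
    have key := hasDerivAt_int (F := fun s x => (u s x i - v s x i) * (u s x i - v s x i)) hF ht
    refine key.congr_deriv ?_
    rw [← integral_const_mul]
    congr 1
    funext x
    have h2 := (slice_dt h ht i x).sub (slice_dt h' ht i x)
    have h3 : HasDerivAt (fun s => (u s x i - v s x i) * (u s x i - v s x i))
        ((rhs K (u t) (p t) i x - rhs K (v t) (q t) i x) * (u t x i - v t x i)
          + (u t x i - v t x i) * (rhs K (u t) (p t) i x - rhs K (v t) (q t) i x)) t := h2.mul h2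
    rw [h3.deriv]
    ring
  have h2 := HasDerivAt.fun_sum fun i (_ : i ∈ Finset.univ) => h1 i
  rw [← Finset.mul_sum] at h2
  exact h2

theorem En_cont (h : LSol T K u p) (h' : LSol T K v q) :
    ContinuousOn (fun s => En (fun x => u s x - v s x)) (Ico 0 T) := by
  unfold En
  refine continuousOn_finsetSum _ fun i _ => ?_
  have h1 : ContinuousOn (fun z : ℝ × V => u z.1 z.2 i - v z.1 z.2 i) (Ico 0 T ×ˢ univ) :=
    (h.smooth_c i).continuousOn.sub (h'.smooth_c i).continuousOn
  exact continuousOn_int (F := fun s x => (u s x i - v s x i) * (u s x i - v s x i)) (h1.mul h1)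

theorem cube_closure : (cube : Set V) ⊆ closure (interior cube) := by
  have hc : Convex ℝ (cube : Set V) := convex_Icc 0 1
  have hi : (interior (cube : Set V)).Nonempty := by
    refine ⟨fun _ => 1 / 2, ?_⟩
    have e : (cube : Set V) = Set.univ.pi (fun _ : Fin 3 => Icc (0 : ℝ) 1) := by
      rw [pi_univ_Icc]; rfl
    rw [e, interior_pi_set finite_univ]
    intro i _
    rw [interior_Icc]
    constructor <;> norm_num
  rw [hc.closure_interior_eq_closure_of_nonempty_interior hi]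
  exact subset_closure

theorem eq_zero_of_En {w : V → V} (hw : SV w) (h : En w = 0) : ∀ x ∈ cube, w x = 0 := by
  have h1 : ∀ i, ∫ x in cube, w x i * w x i = 0 := by
    intro i
    have h2 := (Finset.sum_eq_zero_iff_of_nonneg (fun i _ =>
      integral_nonneg fun x => mul_self_nonneg (w x i))).1 h
    exact h2 i (Finset.mem_univ i)
  intro x hx
  funext i
  have h2 : (fun x => w x i * w x i) =ᵐ[volume.restrict cube] 0 :=
    (integral_eq_zero_iff_of_nonneg (fun x => mul_self_nonneg (w x i))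
      ((hw i).mul (hw i)).int).1 (h1 i)
  have h3 := Measure.eqOn_of_ae_eq h2 ((hw i).mul (hw i)).cont.continuousOn
    continuousOn_const cube_closure hx
  exact mul_self_eq_zero.1 h3

theorem per_cube {F : Type*} {f : V → F} (hf : Per f) (x : V) : ∃ y ∈ cube, f x = f y := by
  refine ⟨fun i => Int.fract (x i), ⟨fun i => Int.fract_nonneg _, fun i => (Int.fract_lt_one _).le⟩,
    ?_⟩
  have h := hf.int (fun i => ⌊x i⌋) (fun i => Int.fract (x i))
  rw [← h]
  congr 1
  funext i
  exact (Int.fract_add_floor (x i)).symm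

/-- uniqueness of smooth solutions -/
theorem uniq (hK : Smo β δ r K) (hβ0 : 0 ≤ β) (hβ1 : β < 1) (hδ : 0 ≤ δ) (h : LSol T K u p)
    (h' : LSol T K v q) (h0 : u 0 = v 0) : ∀ t ∈ Ico 0 T, u t = v t := by
  intro b hb
  obtain ⟨M₁, hM₁, hb1⟩ := h.bdd hb.2
  obtain ⟨M₂, hM₂, hb2⟩ := h'.bdd hb.2
  set M := max M₁ M₂ with hM
  have hM1 : 1 ≤ M := hM₁.trans (le_max_left _ _)
  set C := 2 * (3 * M + 13 * δ * M) with hC
  set E : ℝ → ℝ := fun s => En (fun x => u s x - v s x) with hE
  have hcont : ContinuousOn E (Icc 0 b) :=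
    (En_cont h h').mono fun t ht => ⟨ht.1, ht.2.trans_lt hb.2⟩
  have hder : ∀ t ∈ Ioo 0 b, ∃ E', HasDerivAt E E' t ∧ E' ≤ C * E t := by
    intro t ht
    have ht2 : t ∈ Ioo 0 T := ⟨ht.1, ht.2.trans hb.2⟩
    have hI : t ∈ Ico 0 T := ⟨ht.1.le, ht2.2⟩
    refine ⟨_, En_hasDerivAt h h' ht2, ?_⟩
    have hs := static_bound hK hβ0 hβ1 hδ (h.sv hI) (h'.sv hI) (h.divfree t hI) (h'.divfree t hI)
      (h.sp_p hI) (h'.sp_p hI) hM1
      (fun x hx => ⟨fun i => ((hb1 t ⟨ht.1.le, ht.2.le⟩ x hx).1 i).trans (le_max_left _ _),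
        fun i j => ((hb1 t ⟨ht.1.le, ht.2.le⟩ x hx).2 i j).trans (le_max_left _ _)⟩)
      (fun x hx => ⟨fun i => ((hb2 t ⟨ht.1.le, ht.2.le⟩ x hx).1 i).trans (le_max_right _ _),
        fun i j => ((hb2 t ⟨ht.1.le, ht.2.le⟩ x hx).2 i j).trans (le_max_right _ _)⟩)
    calc _ ≤ 2 * ((3 * M + 13 * δ * M) * En (fun x => u t x - v t x)) := by gcongr
      _ = C * E t := by rw [hC]; ring
  have hanti : AntitoneOn (fun t => E t * Real.exp (-(C * t))) (Icc 0 b) := by
    have hd : ∀ t ∈ Ioo 0 b, ∃ F', HasDerivAt (fun t => E t * Real.exp (-(C * t))) F' t ∧ F' ≤ 0 := by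
      intro t ht
      obtain ⟨E', h1, h2⟩ := hder t ht
      have e2 : HasDerivAt (fun s => -(C * s)) (-C) t := by
        have h := (hasDerivAt_id t).const_mul (-C)
        rw [mul_one] at h
        refine h.congr_of_eventuallyEq (Eventually.of_forall fun y => ?_)
        show -(C * y) = -C * y
        ring
      have h3 : HasDerivAt (fun t => E t * Real.exp (-(C * t)))
        (E' * Real.exp (-(C * t)) + E t * (Real.exp (-(C * t)) * -C)) t := h1.mul e2.exp
      refine ⟨_, h3, ?_⟩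
      have h4 := Real.exp_pos (-(C * t))
      have h5 : E' * Real.exp (-(C * t)) + E t * (Real.exp (-(C * t)) * -C)
          = (E' - C * E t) * Real.exp (-(C * t)) := by ring
      rw [h5]
      exact mul_nonpos_of_nonpos_of_nonneg (by linarith) h4.le
    refine antitoneOn_of_deriv_nonpos (convex_Icc 0 b) (hcont.mul (by fun_prop))
      (fun t ht => ?_) (fun t ht => ?_)
    · rw [interior_Icc] at ht
      obtain ⟨F', h1, -⟩ := hd t ht
      exact h1.differentiableAt.differentiableWithinAt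
    · rw [interior_Icc] at ht
      obtain ⟨F', h1, h2⟩ := hd t ht
      rw [h1.deriv]
      exact h2
  have hE0 : E 0 = 0 := by
    simp only [hE]
    have : (fun x => u 0 x - v 0 x) = fun _ => (0 : V) := by
      funext x; rw [h0, sub_self]
    rw [this]
    unfold En
    simp
  have hfin : E b = 0 := by
    have h1 := hanti ⟨le_rfl, hb.1⟩ ⟨hb.1, le_rfl⟩ hb.1
    simp only [hE0, zero_mul] at h1
    have h2 : E b ≤ 0 := by
      by_contra h3
      have := mul_pos (not_le.1 h3) (Real.exp_pos (-(C * b)))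
      linarith
    exact le_antisymm h2 (En_nonneg _)
  have hw : SV (fun x => u b x - v b x) := fun i => sp_sub (h.sv hb i) (h'.sv hb i)
  have hz := eq_zero_of_En hw hfin
  funext x
  obtain ⟨y, hy, hxy⟩ := per_cube hw.per x
  have h1 : u b x - v b x = 0 := hxy.trans (hz y hy)
  exact sub_eq_zero.1 h1

/-- a solution with unbounded gradient cannot be continued -/
theorem no_ext (hK : Smo β δ r K) (hβ0 : 0 ≤ β) (hβ1 : β < 1) (hδ : 0 ≤ δ) (h : LSol T K u p)
    (hT : 0 < T) (hblow : ∀ M, ∀ᶠ t in 𝓝[<] T, ∃ x, M < ‖fderiv ℝ (u t) x‖)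
    (h' : LSol T' K v q) (h0 : v 0 = u 0) : T' ≤ T ∧ ∀ t ∈ Ico 0 T', v t = u t := by
  have hle : T' ≤ T := by
    by_contra hlt
    rw [not_le] at hlt
    have heq := uniq hK hβ0 hβ1 hδ (h'.restrict hlt.le) h h0
    obtain ⟨M, hM1, hM⟩ := h'.bdd hlt
    have hev : ∀ᶠ t in 𝓝[<] T, t ∈ Ioo 0 T := Ioo_mem_nhdsLT hT
    obtain ⟨t, ⟨x, hx⟩, ht⟩ := ((hblow (3 * M)).and hev).exists
    have hI : t ∈ Ico 0 T' := ⟨ht.1.le, ht.2.trans hlt⟩
    have hsv := h'.sv hI
    obtain ⟨y, hy, hxy⟩ := per_cube hsv.per.fderiv x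
    have h1 := fderiv_le hsv (hM t ⟨ht.1.le, ht.2.le⟩ y hy).2
    rw [← heq t ⟨ht.1.le, ht.2⟩, hxy] at hx
    linarith
  exact ⟨hle, uniq hK hβ0 hβ1 hδ h' (h.restrict hle) h0⟩

end Pool.Agent.V1183.LM
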